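import Pool.Agent.PCW.Defs

/-!
# Packing convex sets of given minimum width into the unit ball: the orthant pieces of the ball
-/

set_option autoImplicit false

open MeasureTheory ProbabilityTheory
open scoped RealInnerProductSpace

namespace PCW

section low
variable {d : ℕ}

/-- the sign of a boolean -/
def sg (b : Bool) : ℝ := if b then 1 else -1

lemma sg_sq (b : Bool) : sg b * sg b = 1 := by
  cases b <;> simp [sg]

lemma sg_ne {b c : Bool} (h : b ≠ c) : sg c = -sg b := by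
  cases b <;> cases c <;> simp_all [sg]

/-- the piece of the ball in the orthant of `s` -/
def orth (s : Fin d → Bool) : Set (E d) := {x | ‖x‖ ≤ 1 ∧ ∀ i, 0 ≤ sg (s i) * x i}

lemma convex_orth (s : Fin d → Bool) : Convex ℝ (orth s) := by
  rintro x ⟨hx1, hx2⟩ y ⟨hy1, hy2⟩ a b ha hb hab
  refine ⟨?_, fun i => ?_⟩
  · calc ‖a • x + b • y‖ ≤ ‖a • x‖ + ‖b • y‖ := norm_add_le _ _
      _ = a * ‖x‖ + b * ‖y‖ := by
        rw [norm_smul, norm_smul, Real.norm_of_nonneg ha, Real.norm_of_nonneg hb]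
      _ ≤ a * 1 + b * 1 := by gcongr
      _ = 1 := by rw [mul_one, mul_one, hab]
  · have h1 := mul_nonneg ha (hx2 i)
    have h2 := mul_nonneg hb (hy2 i)
    have h3 : sg (s i) * (a • x + b • y) i = a * (sg (s i) * x i) + b * (sg (s i) * y i) := by
      show sg (s i) * (a * x i + b * y i) = _
      ring
    rw [h3]
    exact add_nonneg h1 h2

lemma pos_of_mem_interior {s : Fin d → Bool} {x : E d} (hx : x ∈ interior (orth s)) (i : Fin d) :
    0 < sg (s i) * x i := by
  obtain ⟨ε, hε, hb⟩ := Metric.mem_nhds_iff.1 (mem_interior_iff_mem_nhds.1 hx)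
  set y : E d := x - (ε / 2 * sg (s i)) • EuclideanSpace.single i (1 : ℝ) with hy
  have h1 : y ∈ Metric.ball x ε := by
    rw [Metric.mem_ball, dist_eq_norm, hy, sub_sub_cancel_left, norm_neg, norm_smul, EuclideanSpace.norm_single,
      norm_one, mul_one, Real.norm_eq_abs, abs_mul, abs_of_pos (by positivity : 0 < ε / 2)]
    have h2 : |sg (s i)| = 1 := by
      cases s i <;> simp [sg]
    rw [h2]
    linarith
  have h2 := (hb h1).2 i
  have h3 : y i = x i - ε / 2 * sg (s i) := by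
    rw [hy]
    show x i - (ε / 2 * sg (s i)) * (EuclideanSpace.single i (1 : ℝ) : E d) i = _
    rw [EuclideanSpace.single_apply, if_pos rfl, mul_one]
  rw [h3, mul_sub, mul_comm (ε / 2), ← mul_assoc, sg_sq, one_mul] at h2
  linarith

lemma inner_sum (x y : E d) : ⟪x, y⟫ = ∑ i, x i * y i := by
  rw [PiLp.inner_apply]
  refine Finset.sum_congr rfl fun i _ => ?_
  rw [real_inner_comm]
  rfl

lemma exists_point {s : Fin d → Bool} {v u : E d} {c : ℝ} (hv : ∀ i, 0 ≤ sg (s i) * v i) (h : ⟪v, u⟫ = c * ‖v‖ ^ 2) :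
    ∃ x ∈ orth s, ⟪x, u⟫ = c * ‖v‖ := by
  refine ⟨‖v‖⁻¹ • v, ⟨?_, fun i => ?_⟩, ?_⟩
  · rw [norm_smul, norm_inv, norm_norm]
    exact inv_mul_le_one
  · show 0 ≤ sg (s i) * (‖v‖⁻¹ * v i)
    rw [mul_left_comm]
    exact mul_nonneg (inv_nonneg.2 (norm_nonneg _)) (hv i)
  · rw [real_inner_smul_left, h]
    by_cases h0 : ‖v‖ = 0
    · rw [h0]
      simp
    · field_simp

/-- the width of an orthant piece is at least one -/
lemma one_le_wd (s : Fin d → Bool) {u : E d} (hu : ‖u‖ = 1) : 1 ≤ wd (orth s) u := by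
  classical
  set p : E d := WithLp.toLp 2 fun i => if 0 ≤ sg (s i) * u i then u i else 0 with hp
  set q : E d := WithLp.toLp 2 fun i => if 0 ≤ sg (s i) * u i then 0 else -u i with hq
  have hpi : ∀ i, p i = if 0 ≤ sg (s i) * u i then u i else 0 := fun i => rfl
  have hqi : ∀ i, q i = if 0 ≤ sg (s i) * u i then 0 else -u i := fun i => rfl
  have p0 : ∀ i, 0 ≤ sg (s i) * p i := by
    intro i
    rw [hpi]
    split_ifs with h
    · exact h
    · simp
  have q0 : ∀ i, 0 ≤ sg (s i) * q i := by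
    intro i
    rw [hqi]
    split_ifs with h
    · simp
    · rw [mul_neg]
      linarith
  have p1 : ⟪p, u⟫ = 1 * ‖p‖ ^ 2 := by
    rw [one_mul, ← real_inner_self_eq_norm_sq, inner_sum, inner_sum]
    refine Finset.sum_congr rfl fun i _ => ?_
    rw [hpi]
    split_ifs <;> simp
  have q1 : ⟪q, u⟫ = (-1) * ‖q‖ ^ 2 := by
    rw [← real_inner_self_eq_norm_sq, inner_sum, inner_sum, Finset.mul_sum]
    refine Finset.sum_congr rfl fun i _ => ?_
    rw [hqi]
    split_ifs
    · simp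
    · ring
  have pq : ‖p‖ ^ 2 + ‖q‖ ^ 2 = 1 := by
    have h1 : ‖u‖ ^ 2 = 1 := by rw [hu, one_pow]
    rw [← h1, ← real_inner_self_eq_norm_sq, ← real_inner_self_eq_norm_sq, ← real_inner_self_eq_norm_sq, inner_sum,
      inner_sum, inner_sum, ← Finset.sum_add_distrib]
    refine Finset.sum_congr rfl fun i _ => ?_
    rw [hpi, hqi]
    split_ifs
    · ring
    · ring
  obtain ⟨x, hx, hxu⟩ := exists_point p0 p1
  obtain ⟨y, hy, hyu⟩ := exists_point q0 q1
  have hb : ∀ z ∈ orth s, |⟪z, u⟫| ≤ 1 := fun z hz => by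
    refine (abs_real_inner_le_norm z u).trans ?_
    rw [hu, mul_one]
    exact hz.1
  have ha : BddAbove ((fun z => ⟪z, u⟫) '' orth s) := ⟨1, by
    rintro _ ⟨z, hz, rfl⟩
    exact (abs_le.1 (hb z hz)).2⟩
  have hc : BddBelow ((fun z => ⟪z, u⟫) '' orth s) := ⟨-1, by
    rintro _ ⟨z, hz, rfl⟩
    exact (abs_le.1 (hb z hz)).1⟩
  have h1 : 1 * ‖p‖ ≤ sSup ((fun z => ⟪z, u⟫) '' orth s) := by
    rw [← hxu]
    exact le_csSup ha ⟨x, hx, rfl⟩
  have h2 : sInf ((fun z => ⟪z, u⟫) '' orth s) ≤ (-1) * ‖q‖ := by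
    rw [← hyu]
    exact csInf_le hc ⟨y, hy, rfl⟩
  have h3 : 1 ≤ ‖p‖ + ‖q‖ := by
    have h4 : (1 : ℝ) ^ 2 ≤ (‖p‖ + ‖q‖) ^ 2 := by
      nlinarith [norm_nonneg p, norm_nonneg q]
    exact le_of_sq_le_sq h4 (by positivity)
  unfold wd
  linarith

end low

/-- **the orthant pieces of the unit ball** -/
theorem pack_two_pow {d : ℕ} {t : ℝ} (ht : t ≤ 1) : Pack d t (2 ^ d) := by
  have hcard : Fintype.card (Fin d → Bool) = 2 ^ d := by simp
  let e : (Fin d → Bool) ≃ Fin (2 ^ d) := Fintype.equivFinOfCardEq hcard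
  refine ⟨fun k => orth (e.symm k), fun k => convex_orth _, fun k x hx => ?_, fun k l hkl => ?_, fun k u hu => ?_⟩
  · rw [mem_closedBall_zero_iff]
    exact hx.1
  · have hne : e.symm k ≠ e.symm l := fun h => hkl (e.symm.injective h)
    obtain ⟨i, hi⟩ := Function.ne_iff.1 hne
    rw [Set.disjoint_left]
    intro x hx hx'
    have h1 := pos_of_mem_interior hx i
    have h2 := pos_of_mem_interior hx' i
    rw [sg_ne hi] at h2
    linarith
  · exact ht.trans (one_le_wd _ hu)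

end PCW
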