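import Mathlib

/-!
# Packing convex sets of given minimum width into the unit ball: definitions
-/

set_option autoImplicit false

open MeasureTheory ProbabilityTheory
open scoped RealInnerProductSpace

namespace PCW

/-- `ℝ^d` -/
abbrev E (d : ℕ) := EuclideanSpace ℝ (Fin d)

/-- the distance between the two supporting hyperplanes of `C` orthogonal to the unit vector `u` -/
noncomputable def wd {d : ℕ} (C : Set (E d)) (u : E d) : ℝ :=
  sSup ((fun x => ⟪x, u⟫) '' C) - sInf ((fun x => ⟪x, u⟫) '' C)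

/-- there is a packing of `m` convex sets of width at least `t` into the unit ball of `ℝ^d` -/
def Pack (d : ℕ) (t : ℝ) (m : ℕ) : Prop :=
  ∃ C : Fin m → Set (E d), (∀ i, Convex ℝ (C i)) ∧ (∀ i, C i ⊆ Metric.closedBall 0 1) ∧
    (∀ i j, i ≠ j → Disjoint (interior (C i)) (interior (C j))) ∧
    ∀ i, ∀ u : E d, ‖u‖ = 1 → t ≤ wd (C i) u

section arr
variable {V : Type*} [NormedAddCommGroup V] [InnerProductSpace ℝ V] {ι : Type*}

/-- arrays of unit vectors -/
structure Arr (u : ι → ι → V) : Prop where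
  unit : ∀ i j, i ≠ j → ‖u i j‖ = 1
  anti : ∀ i j, i ≠ j → u j i = -u i j
  nn : ∀ i j k, j ≠ i → k ≠ i → 0 ≤ ⟪u i j, u i k⟫

/-- families of unit vectors with nonnegative inner products -/
structure Fam (n : ι → V) : Prop where
  unit : ∀ j, ‖n j‖ = 1
  nn : ∀ i j, 0 ≤ ⟪n i, n j⟫

/-- the cone -/
def Kc (n : ι → V) : Set V := {x | ∀ j, 0 ≤ ⟪n j, x⟫}

/-- the orthogonal projection along `n` -/
noncomputable def pj (n x : V) : V := x - ⟪n, x⟫ • n

end arr

/-- the standard Gaussian measure of `ℝ^d` -/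
noncomputable abbrev gam (d : ℕ) : Measure (E d) := stdGaussian (E d)

end PCW
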