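import Pool.Agent.PCW.Defs

/-!
# The standard Gaussian measure: density, translations, cones, resampling of a coordinate
-/

set_option autoImplicit false

open MeasureTheory ProbabilityTheory Module
open scoped RealInnerProductSpace

namespace PCW

section gau
variable {V : Type*} [NormedAddCommGroup V] [InnerProductSpace ℝ V] [FiniteDimensional ℝ V]
  [MeasurableSpace V] [BorelSpace V]

/-- the density of the standard Gaussian measure -/
noncomputable def dn (x : V) : ℝ := (2 * Real.pi) ^ (-(finrank ℝ V : ℝ) / 2) * Real.exp (-‖x‖ ^ 2 / 2)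

omit [FiniteDimensional ℝ V] [MeasurableSpace V] [BorelSpace V] in
lemma dn_pos (x : V) : 0 < dn x := by
  unfold dn
  positivity

omit [FiniteDimensional ℝ V] [MeasurableSpace V] [BorelSpace V] in
lemma continuous_dn : Continuous (dn : V → ℝ) := by
  unfold dn
  fun_prop

lemma integrable_exp_sq {s : ℝ} (hs : 0 < s) : Integrable (fun x : V => Real.exp (-s * ‖x‖ ^ 2)) := by
  have h := (GaussianFourier.integrable_cexp_neg_mul_sq_norm_add (V := V) (b := (s : ℂ)) (by simpa using hs) 0 0).norm
  refine h.congr (Filter.Eventually.of_forall fun x => ?_)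
  show ‖Complex.exp _‖ = _
  rw [Complex.norm_exp]
  congr 1
  simp [← Complex.ofReal_pow]

lemma integrable_dn : Integrable (dn : V → ℝ) := by
  unfold dn
  refine (Integrable.const_mul ?_ _)
  refine (integrable_exp_sq (V := V) (s := 1 / 2) (by norm_num)).congr (Filter.Eventually.of_forall fun x => ?_)
  show Real.exp _ = Real.exp _
  congr 1
  ring

/-- the standard Gaussian measure has the density `dn` -/
theorem std_eq : stdGaussian V = (volume : Measure V).withDensity (fun x => ENNReal.ofReal (dn x)) := by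
  have hf : IsFiniteMeasure ((volume : Measure V).withDensity (fun x => ENNReal.ofReal (dn x))) :=
    isFiniteMeasure_withDensity_ofReal integrable_dn.2
  refine Measure.ext_of_charFun ?_
  ext t
  rw [charFun_stdGaussian, charFun_apply,
    integral_withDensity_eq_integral_toReal_smul continuous_dn.measurable.ennreal_ofReal
      (Filter.Eventually.of_forall fun x => ENNReal.ofReal_lt_top)]
  have h := GaussianFourier.integral_cexp_neg_mul_sq_norm_add (V := V) (b := (1 / 2 : ℂ)) (by norm_num) Complex.I t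
  have e : ∀ x : V, (ENNReal.ofReal (dn x)).toReal • Complex.exp ((⟪x, t⟫ : ℝ) * Complex.I) =
      ((2 * Real.pi) ^ (-(finrank ℝ V : ℝ) / 2) : ℝ) *
        Complex.exp (-(1 / 2) * ‖x‖ ^ 2 + Complex.I * (⟪t, x⟫ : ℝ)) := by
    intro x
    rw [ENNReal.toReal_ofReal (dn_pos x).le, dn, Complex.real_smul, Complex.ofReal_mul, mul_assoc, Complex.ofReal_exp,
      ← Complex.exp_add, real_inner_comm x t]
    congr 2
    push_cast
    ring
  simp_rw [e]
  rw [integral_const_mul, h, ← mul_assoc]
  have e2 : (((2 * Real.pi) ^ (-(finrank ℝ V : ℝ) / 2) : ℝ) : ℂ) * (Real.pi / (1 / 2 : ℂ)) ^ (finrank ℝ V / 2 : ℂ) = 1 := by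
    have e3 : (Real.pi / (1 / 2 : ℂ)) ^ (finrank ℝ V / 2 : ℂ) = (((2 * Real.pi) ^ ((finrank ℝ V : ℝ) / 2) : ℝ) : ℂ) := by
      rw [Complex.ofReal_cpow (by positivity)]
      push_cast
      congr 1
      ring
    rw [e3, ← Complex.ofReal_mul, ← Real.rpow_add (by positivity)]
    norm_num
    simp [neg_div]
  rw [e2, one_mul]
  congr 1
  rw [Complex.I_sq]
  ring

theorem integral_std (f : V → ℝ) : ∫ x, f x ∂(stdGaussian V) = ∫ x, dn x * f x := by
  rw [std_eq, integral_withDensity_eq_integral_toReal_smul continuous_dn.measurable.ennreal_ofReal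
      (Filter.Eventually.of_forall fun x => ENNReal.ofReal_lt_top)]
  refine integral_congr_ae (Filter.Eventually.of_forall fun x => ?_)
  simp [ENNReal.toReal_ofReal (dn_pos x).le]

/-- Cameron-Martin formula -/
theorem cameron_martin (v : V) (f : V → ℝ) :
    ∫ x, f (x + v) ∂(stdGaussian V) = ∫ x, Real.exp (⟪v, x⟫ - ‖v‖ ^ 2 / 2) * f x ∂(stdGaussian V) := by
  rw [integral_std, integral_std]
  have h := integral_add_right_eq_self (μ := (volume : Measure V)) (fun x => dn (x - v) * f x) v
  simp only [add_sub_cancel_right] at h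
  rw [h]
  refine integral_congr_ae (Filter.Eventually.of_forall fun x => ?_)
  show dn (x - v) * f x = dn x * (Real.exp (⟪v, x⟫ - ‖v‖ ^ 2 / 2) * f x)
  rw [dn, dn, ← mul_assoc, mul_assoc _ (Real.exp _) (Real.exp _), ← Real.exp_add]
  congr 3
  rw [@norm_sub_sq_real, real_inner_comm]
  ring

theorem cameron_martin_set (v : V) {K : Set V} (hK : MeasurableSet K) :
    (stdGaussian V).real {x | x - v ∈ K} = ∫ x in K, Real.exp (- ⟪v, x⟫ - ‖v‖ ^ 2 / 2) ∂(stdGaussian V) := by
  have h := cameron_martin (-v) (K.indicator (fun _ => (1 : ℝ)))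
  rw [← integral_indicator hK]
  have e1 : (stdGaussian V).real {x | x - v ∈ K} = ∫ x, K.indicator (fun _ => (1 : ℝ)) (x + -v) ∂(stdGaussian V) := by
    have hm : MeasurableSet {x | x - v ∈ K} := hK.preimage (measurable_id.sub_const v)
    rw [← integral_indicator_one hm]
    refine integral_congr_ae (Filter.Eventually.of_forall fun x => ?_)
    show Set.indicator {x | x - v ∈ K} 1 x = K.indicator (fun _ => (1 : ℝ)) (x + -v)
    rw [← sub_eq_add_neg]
    by_cases hx : x - v ∈ K
    · rw [Set.indicator_of_mem hx, Set.indicator_of_mem (show x ∈ {x | x - v ∈ K} from hx), Pi.one_apply]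
    · rw [Set.indicator_of_notMem hx, Set.indicator_of_notMem (show x ∉ {x | x - v ∈ K} from hx)]
  rw [e1, h]
  refine integral_congr_ae (Filter.Eventually.of_forall fun x => ?_)
  by_cases hx : x ∈ K
  · simp [hx]
  · simp [hx]

/-- Gaussian integrals over cones -/
theorem integral_cone_exp {K : Set V} (hK : MeasurableSet K) (hc : ∀ c : ℝ, 0 < c → ∀ x ∈ K, c • x ∈ K)
    {s : ℝ} (hs : 0 ≤ s) :
    ∫ x in K, Real.exp (- (s * ‖x‖ ^ 2) / 2) ∂(stdGaussian V) =
      ((√(1 + s)) ^ (finrank ℝ V))⁻¹ * (stdGaussian V).real K := by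
  have h1 : 0 < 1 + s := by linarith
  set c : ℝ := √(1 + s) with hcd
  have hc0 : 0 < c := Real.sqrt_pos.2 h1
  have hiff : ∀ x : V, c • x ∈ K ↔ x ∈ K := fun x => by
    constructor
    · intro h
      have := hc c⁻¹ (inv_pos.2 hc0) _ h
      rwa [smul_smul, inv_mul_cancel₀ hc0.ne', one_smul] at this
    · exact hc c hc0 x
  rw [← integral_indicator hK, ← integral_indicator_one hK, integral_std, integral_std]
  have h := Measure.integral_comp_smul (volume : Measure V) (fun x => dn x * K.indicator 1 x) c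
  rw [abs_of_pos (by positivity), smul_eq_mul] at h
  rw [← h]
  refine integral_congr_ae (Filter.Eventually.of_forall fun x => ?_)
  show dn x * K.indicator (fun x => Real.exp (- (s * ‖x‖ ^ 2) / 2)) x = dn (c • x) * K.indicator 1 (c • x)
  by_cases hx : x ∈ K
  · rw [Set.indicator_of_mem hx, Set.indicator_of_mem ((hiff x).2 hx), dn, dn, mul_assoc, ← Real.exp_add,
      norm_smul, Real.norm_eq_abs, abs_of_pos hc0, mul_pow, hcd, Real.sq_sqrt h1.le, Pi.one_apply, mul_one]
    congr 2
    ring
  · rw [Set.indicator_of_notMem hx, Set.indicator_of_notMem (fun h => hx ((hiff x).1 h))]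
    simp

omit [FiniteDimensional ℝ V] [MeasurableSpace V] [BorelSpace V] in
lemma inner_pj_left {n : V} (x y : V) : ⟪pj n x, y⟫ = ⟪x, pj n y⟫ := by
  simp only [pj, inner_sub_left, inner_sub_right, inner_smul_left, inner_smul_right]
  rw [real_inner_comm x n]
  simp
  ring

omit [FiniteDimensional ℝ V] [MeasurableSpace V] [BorelSpace V] in
lemma norm_pj_sq {n : V} (hn : ‖n‖ = 1) (x : V) : ‖pj n x‖ ^ 2 = ‖x‖ ^ 2 - ⟪n, x⟫ ^ 2 := by
  rw [pj, @norm_sub_sq_real, norm_smul, hn, inner_smul_right, real_inner_comm, Real.norm_eq_abs, mul_one, sq_abs]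
  ring

omit [FiniteDimensional ℝ V] [MeasurableSpace V] [BorelSpace V] in
lemma continuous_pj' (n : V) : Continuous (pj n) := by
  unfold pj
  fun_prop

/-- resampling of the coordinate `n` -/
theorem map_resample {n : V} (hn : ‖n‖ = 1) :
    ((gaussianReal 0 1).prod (stdGaussian V)).map (fun p : ℝ × V => p.1 • n + pj n p.2) = stdGaussian V := by
  have hm : Measurable (fun p : ℝ × V => p.1 • n + pj n p.2) := by
    have := (continuous_pj' n).measurable
    fun_prop
  have hp : IsProbabilityMeasure (((gaussianReal 0 1).prod (stdGaussian V)).map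
      (fun p : ℝ × V => p.1 • n + pj n p.2)) := Measure.isProbabilityMeasure_map hm.aemeasurable
  refine Measure.ext_of_charFun ?_
  ext t
  rw [charFun_stdGaussian, charFun_apply, integral_map hm.aemeasurable (by fun_prop)]
  have e : ∀ p : ℝ × V, Complex.exp ((⟪p.1 • n + pj n p.2, t⟫ : ℝ) * Complex.I) =
      Complex.exp ((p.1 * ⟪n, t⟫ : ℝ) * Complex.I) * Complex.exp ((⟪p.2, pj n t⟫ : ℝ) * Complex.I) := by
    intro p
    rw [← Complex.exp_add, inner_add_left, inner_smul_left, inner_pj_left]
    congr 1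
    push_cast
    simp
    ring
  simp_rw [e]
  rw [integral_prod_mul (fun s : ℝ => Complex.exp ((s * ⟪n, t⟫ : ℝ) * Complex.I))
    (fun x : V => Complex.exp ((⟪x, pj n t⟫ : ℝ) * Complex.I)), ← charFun_apply (μ := stdGaussian V) (pj n t), charFun_stdGaussian]
  have h2 : ∫ s : ℝ, Complex.exp ((s * ⟪n, t⟫ : ℝ) * Complex.I) ∂(gaussianReal 0 1) = charFun (gaussianReal 0 1) ⟪n, t⟫ := by
    rw [charFun_apply_real]
    refine integral_congr_ae (Filter.Eventually.of_forall fun x => ?_)
    show Complex.exp _ = Complex.exp _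
    push_cast
    ring_nf
  rw [h2, charFun_gaussianReal, ← Complex.exp_add]
  congr 1
  have h3 := norm_pj_sq hn t
  have h4 : (‖pj n t‖ : ℂ) ^ 2 = ‖t‖ ^ 2 - (⟪n, t⟫ : ℝ) ^ 2 := by exact_mod_cast h3
  rw [h4]
  push_cast
  ring

theorem integrable_std_iff {f : V → ℝ} :
    Integrable f (stdGaussian V) ↔ Integrable (fun x => dn x * f x) (volume : Measure V) := by
  rw [std_eq, integrable_withDensity_iff_integrable_smul' continuous_dn.measurable.ennreal_ofReal
      (Filter.Eventually.of_forall fun x => ENNReal.ofReal_lt_top)]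
  refine integrable_congr (Filter.Eventually.of_forall fun x => ?_)
  simp [ENNReal.toReal_ofReal (dn_pos x).le]

theorem integrable_exp_inner (z : V) : Integrable (fun x => Real.exp ⟪z, x⟫) (stdGaussian V) := by
  rw [integrable_std_iff]
  have h := (GaussianFourier.integrable_cexp_neg_mul_sq_norm_add (V := V) (b := (1 / 2 : ℂ)) (by norm_num) 1 z).norm
  refine (h.const_mul ((2 * Real.pi) ^ (-(finrank ℝ V : ℝ) / 2))).congr (Filter.Eventually.of_forall fun x => ?_)
  show (2 * Real.pi) ^ (-(finrank ℝ V : ℝ) / 2) * ‖Complex.exp _‖ = dn x * Real.exp _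
  rw [Complex.norm_exp, dn, mul_assoc, ← Real.exp_add]
  congr 2
  have e : (-(1 / 2) * (‖x‖ : ℂ) ^ 2 + 1 * ((⟪z, x⟫ : ℝ) : ℂ)) = (((-‖x‖ ^ 2 / 2 + ⟪z, x⟫ : ℝ)) : ℂ) := by
    push_cast
    ring
  rw [e, Complex.ofReal_re]

end gau

end PCW
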