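import Pool.Agent.PCW.Defs

/-!
# Packing convex sets of given minimum width: from packings to arrays

* `arr_of_pack` : if packings of `m` sets of width close to `1` exist, then there is an array of size `m`.
-/

set_option autoImplicit false

open MeasureTheory ProbabilityTheory
open scoped RealInnerProductSpace

namespace PCW

section red
variable {d : ℕ}

/-- a convex set all of whose widths are positive has interior points -/
lemma rd_int {C : Set (E d)} (hd : 1 ≤ d) (hC : Convex ℝ C) (h : ∀ u : E d, ‖u‖ = 1 → 0 < wd C u) :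
    (interior C).Nonempty := by
  rw [hC.interior_nonempty_iff_affineSpan_eq_top]
  by_contra hne
  rcases C.eq_empty_or_nonempty with rfl | ⟨x₀, hx₀⟩
  · let i : Fin d := ⟨0, hd⟩
    have hu : ‖(EuclideanSpace.single i (1 : ℝ) : E d)‖ = 1 := by simp
    have := h _ hu
    simp [wd] at this
  · have h1 : (affineSpan ℝ C).direction ≠ ⊤ := by
      intro h2
      exact hne ((AffineSubspace.direction_eq_top_iff_of_nonempty ⟨x₀, subset_affineSpan ℝ C hx₀⟩).1 h2)
    have h2 : (affineSpan ℝ C).directionᗮ ≠ ⊥ := by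
      intro h3
      exact h1 (Submodule.orthogonal_eq_bot_iff.1 h3)
    obtain ⟨v, hv, hv0⟩ := Submodule.exists_mem_ne_zero_of_ne_bot h2
    have hn : ‖v‖ ≠ 0 := norm_ne_zero_iff.2 hv0
    set u : E d := ‖v‖⁻¹ • v with hu
    have hu1 : ‖u‖ = 1 := by
      rw [hu, norm_smul, norm_inv, norm_norm, inv_mul_cancel₀ hn]
    have key : ∀ x ∈ C, ⟪x, u⟫ = ⟪x₀, u⟫ := by
      intro x hx
      have h4 : x -ᵥ x₀ ∈ (affineSpan ℝ C).direction :=
        AffineSubspace.vsub_mem_direction (subset_affineSpan ℝ C hx) (subset_affineSpan ℝ C hx₀)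
      have h5 : ⟪x -ᵥ x₀, v⟫ = 0 := (Submodule.mem_orthogonal _ _).1 hv _ h4
      rw [vsub_eq_sub] at h5
      have h6 : ⟪x - x₀, u⟫ = 0 := by
        rw [hu, inner_smul_right, h5, mul_zero]
      rw [inner_sub_left] at h6
      linarith
    have him : (fun x => ⟪x, u⟫) '' C = {⟪x₀, u⟫} := by
      ext r
      constructor
      · rintro ⟨x, hx, rfl⟩
        exact key x hx
      · rintro rfl
        exact ⟨x₀, hx₀, rfl⟩
    have := h u hu1
    rw [wd, him] at this
    simp at this

/-- separation of two convex sets with interior points and disjoint interiors -/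
lemma rd_sep {A B : Set (E d)} (hA : Convex ℝ A) (hB : Convex ℝ B) (iA : (interior A).Nonempty)
    (iB : (interior B).Nonempty) (h : Disjoint (interior A) (interior B)) :
    ∃ u : E d, ∃ c : ℝ, ‖u‖ = 1 ∧ (∀ x ∈ A, c ≤ ⟪x, u⟫) ∧ ∀ x ∈ B, ⟪x, u⟫ ≤ c := by
  obtain ⟨f, s, h1, h2⟩ := geometric_hahn_banach_open_open hB.interior isOpen_interior hA.interior
    isOpen_interior h.symm
  set v : E d := (InnerProductSpace.toDual ℝ (E d)).symm f with hv
  have hf : ∀ x, f x = ⟪x, v⟫ := fun x => by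
    rw [real_inner_comm, hv, InnerProductSpace.toDual_symm_apply]
  have hv0 : v ≠ 0 := by
    intro h0
    obtain ⟨a, ha⟩ := iA
    obtain ⟨b, hb⟩ := iB
    have e1 := h1 b hb
    have e2 := h2 a ha
    rw [hf, h0, inner_zero_right] at e1 e2
    linarith
  have hn : 0 < ‖v‖ := norm_pos_iff.2 hv0
  have cA : A ⊆ closure (interior A) := by
    rw [hA.closure_interior_eq_closure_of_nonempty_interior iA]
    exact subset_closure
  have cB : B ⊆ closure (interior B) := by
    rw [hB.closure_interior_eq_closure_of_nonempty_interior iB]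
    exact subset_closure
  have hA' : ∀ x ∈ A, s ≤ f x := by
    intro x hx
    have : closure (interior A) ⊆ {y | s ≤ f y} :=
      closure_minimal (fun y hy => (h2 y hy).le) (isClosed_le continuous_const f.continuous)
    exact this (cA hx)
  have hB' : ∀ x ∈ B, f x ≤ s := by
    intro x hx
    have : closure (interior B) ⊆ {y | f y ≤ s} :=
      closure_minimal (fun y hy => (h1 y hy).le) (isClosed_le f.continuous continuous_const)
    exact this (cB hx)
  refine ⟨‖v‖⁻¹ • v, ‖v‖⁻¹ * s, ?_, ?_, ?_⟩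
  · rw [norm_smul, norm_inv, norm_norm, inv_mul_cancel₀ hn.ne']
  · intro x hx
    rw [inner_smul_right, ← hf]
    exact mul_le_mul_of_nonneg_left (hA' x hx) (by positivity)
  · intro x hx
    rw [inner_smul_right, ← hf]
    exact mul_le_mul_of_nonneg_left (hB' x hx) (by positivity)

/-- approximate array with error `e` -/
structure Ap {m : ℕ} (e : ℝ) (u : Fin m → Fin m → E d) : Prop where
  ball : ∀ i j, ‖u i j‖ ≤ 1
  unit : ∀ i j, i ≠ j → ‖u i j‖ = 1
  anti : ∀ i j, i ≠ j → u j i = -u i j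
  nn : ∀ i j k, j ≠ i → k ≠ i → -e ≤ ⟪u i j, u i k⟫

lemma Ap.mono {m : ℕ} {e e' : ℝ} (h : e ≤ e') {u : Fin m → Fin m → E d} (hu : Ap e u) : Ap e' u :=
  ⟨hu.ball, hu.unit, hu.anti, fun i j k hj hk => (neg_le_neg h).trans (hu.nn i j k hj hk)⟩

/-- a packing of sets of width at least `1 - ε` gives an approximate array -/
lemma rd_step {m : ℕ} (hd : 1 ≤ d) {ε t : ℝ} (h0 : 0 < ε) (h1 : ε ≤ 1) (ht : 1 - ε < t) (hP : Pack d t m) :
    ∃ u : Fin m → Fin m → E d, Ap (ε + √(6 * ε)) u := by
  classical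
  obtain ⟨C, hC, hb, hdis, hw⟩ := hP
  have ht0 : 0 < t := by linarith
  have hint : ∀ i, (interior (C i)).Nonempty := fun i => rd_int hd (hC i) fun u hu => ht0.trans_le (hw i u hu)
  have hsep : ∀ p : Fin m × Fin m, p.1 ≠ p.2 → ∃ q : E d × ℝ, ‖q.1‖ = 1 ∧ (∀ x ∈ C p.1, q.2 ≤ ⟪x, q.1⟫) ∧
      ∀ x ∈ C p.2, ⟪x, q.1⟫ ≤ q.2 := by
    intro p hp
    obtain ⟨u, c, h⟩ := rd_sep (hC p.1) (hC p.2) (hint _) (hint _) (hdis _ _ hp)
    exact ⟨(u, c), h⟩
  choose! q hq using hsep
  -- antisymmetrise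
  let u : Fin m → Fin m → E d := fun i j => if i < j then (q (i, j)).1 else if j < i then -(q (j, i)).1 else 0
  let c : Fin m → Fin m → ℝ := fun i j => if i < j then (q (i, j)).2 else -(q (j, i)).2
  have hu : ∀ i j, i ≠ j → ‖u i j‖ = 1 := by
    intro i j hij
    rcases lt_or_gt_of_ne hij with h | h
    · simp only [u, h, if_true]
      exact (hq (i, j) hij).1
    · simp only [u, h, not_lt_of_gt h, if_true, if_false, norm_neg]
      exact (hq (j, i) hij.symm).1
  have ha : ∀ i j, i ≠ j → u j i = -u i j := by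
    intro i j hij
    rcases lt_or_gt_of_ne hij with h | h
    · simp only [u, h, not_lt_of_gt h, if_true, if_false]
    · simp only [u, h, not_lt_of_gt h, if_true, if_false, neg_neg]
  have hlow : ∀ i j, i ≠ j → ∀ x ∈ C i, c i j ≤ ⟪x, u i j⟫ := by
    intro i j hij x hx
    rcases lt_or_gt_of_ne hij with h | h
    · simp only [u, c, h, if_true]
      exact (hq (i, j) hij).2.1 x hx
    · simp only [u, c, h, not_lt_of_gt h, if_true, if_false, inner_neg_right]
      exact neg_le_neg ((hq (j, i) hij.symm).2.2 x hx)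
  have hupp : ∀ i j, i ≠ j → ∀ x ∈ C j, ⟪x, u i j⟫ ≤ c i j := by
    intro i j hij x hx
    rcases lt_or_gt_of_ne hij with h | h
    · simp only [u, c, h, if_true]
      exact (hq (i, j) hij).2.2 x hx
    · simp only [u, c, h, not_lt_of_gt h, if_true, if_false, inner_neg_right]
      exact neg_le_neg ((hq (j, i) hij.symm).2.1 x hx)
  have hne : ∀ i, (C i).Nonempty := fun i => (hint i).mono interior_subset
  have habs : ∀ i (w : E d), ‖w‖ = 1 → ∀ x ∈ C i, -1 ≤ ⟪x, w⟫ ∧ ⟪x, w⟫ ≤ 1 := by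
    intro i w hw1 x hx
    have h2 : ‖x‖ ≤ 1 := by simpa using hb i hx
    have h3 := abs_real_inner_le_norm x w
    rw [hw1, mul_one] at h3
    exact abs_le.1 (h3.trans h2)
  have hcl : ∀ i j, i ≠ j → t - 1 ≤ c i j := by
    intro i j hij
    have h2 := hw j (u i j) (hu i j hij)
    have h3 : sSup ((fun x => ⟪x, u i j⟫) '' C j) ≤ c i j := by
      refine csSup_le ((hne j).image _) ?_
      rintro _ ⟨x, hx, rfl⟩
      exact hupp i j hij x hx
    have h4 : -1 ≤ sInf ((fun x => ⟪x, u i j⟫) '' C j) := by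
      refine le_csInf ((hne j).image _) ?_
      rintro _ ⟨x, hx, rfl⟩
      exact (habs j _ (hu i j hij) x hx).1
    rw [wd] at h2
    linarith
  have hx : ∀ i j, i ≠ j → ∃ x ∈ C i, 1 - 3 * ε ≤ ⟪x, u i j⟫ := by
    intro i j hij
    have h2 := hw i (u i j) (hu i j hij)
    have h3 : c i j ≤ sInf ((fun x => ⟪x, u i j⟫) '' C i) := by
      refine le_csInf ((hne i).image _) ?_
      rintro _ ⟨x, hx, rfl⟩
      exact hlow i j hij x hx
    have h4 := hcl i j hij
    rw [wd] at h2
    have h5 : 1 - 3 * ε < sSup ((fun x => ⟪x, u i j⟫) '' C i) := by linarith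
    obtain ⟨_, ⟨x, hx, rfl⟩, hx2⟩ := exists_lt_of_lt_csSup ((hne i).image _) h5
    exact ⟨x, hx, hx2.le⟩
  refine ⟨u, ⟨?_, hu, ha, ?_⟩⟩
  · intro i j
    by_cases hij : i = j
    · subst hij
      simp [u]
    · exact (hu i j hij).le
  · intro i j k hj hk
    obtain ⟨x, hxC, hx1⟩ := hx i j hj.symm
    have h2 := hlow i k hk.symm x hxC
    have h3 := hcl i k hk.symm
    have hu1 := hu i j hj.symm
    have hu2 := hu i k hk.symm
    have hxn : ‖x‖ ≤ 1 := by simpa using hb i hxC
    have h4 : ‖x - u i j‖ ^ 2 ≤ 6 * ε := by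
      rw [norm_sub_sq_real, hu1]
      nlinarith [norm_nonneg x]
    have h5 : ‖x - u i j‖ ≤ √(6 * ε) := Real.le_sqrt_of_sq_le h4
    have h6 : ⟪x - u i j, u i k⟫ ≤ √(6 * ε) := by
      refine (real_inner_le_norm _ _).trans ?_
      rw [hu2, mul_one]
      exact h5
    rw [inner_sub_left] at h6
    linarith

theorem arr_of_pack {d m : ℕ} (hd : 1 ≤ d) (h : ∀ ε : ℝ, 0 < ε → ∃ t, 1 - ε < t ∧ Pack d t m) :
    ∃ u : Fin m → Fin m → E d, Arr u := by
  classical
  set er : ℕ → ℝ := fun n => 1 / ((n : ℝ) + 1) + √(6 * (1 / ((n : ℝ) + 1))) with her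
  have hanti : Antitone er := by
    intro a b hab
    have h1 : 1 / ((b : ℝ) + 1) ≤ 1 / ((a : ℝ) + 1) := by
      apply one_div_le_one_div_of_le (by positivity)
      have : (a : ℝ) ≤ b := by exact_mod_cast hab
      linarith
    exact add_le_add h1 (Real.sqrt_le_sqrt (by linarith))
  set S : ℕ → Set (Fin m → Fin m → E d) := fun n => {u | Ap (er n) u} with hS
  have hcl : ∀ n, IsClosed (S n) := by
    intro n
    have e : S n = {u | ∀ i j, ‖u i j‖ ≤ 1} ∩ {u | ∀ i j, i ≠ j → ‖u i j‖ = 1} ∩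
        {u | ∀ i j, i ≠ j → u j i = -u i j} ∩ {u | ∀ i j k, j ≠ i → k ≠ i → -er n ≤ ⟪u i j, u i k⟫} := by
      ext u
      exact ⟨fun hu => ⟨⟨⟨hu.ball, hu.unit⟩, hu.anti⟩, hu.nn⟩, fun hu => ⟨hu.1.1.1, hu.1.1.2, hu.1.2, hu.2⟩⟩
    have hc : ∀ i j : Fin m, Continuous fun u : Fin m → Fin m → E d => u i j := fun i j =>
      (continuous_apply j).comp (continuous_apply i)
    rw [e]
    refine ((IsClosed.inter ?_ ?_).inter ?_).inter ?_
    · simp only [Set.ofPred_forall]
      exact isClosed_iInter fun i => isClosed_iInter fun j => isClosed_le (hc i j).norm continuous_const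
    · simp only [Set.ofPred_forall]
      exact isClosed_iInter fun i => isClosed_iInter fun j => isClosed_iInter fun _ =>
        isClosed_eq (hc i j).norm continuous_const
    · simp only [Set.ofPred_forall]
      exact isClosed_iInter fun i => isClosed_iInter fun j => isClosed_iInter fun _ =>
        isClosed_eq (hc j i) (hc i j).neg
    · simp only [Set.ofPred_forall]
      exact isClosed_iInter fun i => isClosed_iInter fun j => isClosed_iInter fun k =>
        isClosed_iInter fun _ => isClosed_iInter fun _ =>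
        isClosed_le continuous_const ((hc i j).inner (hc i k))
  have hcomp : IsCompact (S 0) := by
    have h1 : IsCompact (Set.univ.pi fun _ : Fin m => Set.univ.pi fun _ : Fin m =>
        Metric.closedBall (0 : E d) 1) :=
      isCompact_univ_pi fun _ => isCompact_univ_pi fun _ => isCompact_closedBall _ _
    refine h1.of_isClosed_subset (hcl 0) ?_
    intro u hu i _ j _
    simpa using hu.ball i j
  have hne : ∀ n, (S n).Nonempty := by
    intro n
    have h0 : (0 : ℝ) < 1 / ((n : ℝ) + 1) := by positivity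
    have h1 : 1 / ((n : ℝ) + 1) ≤ 1 := by
      rw [div_le_one (by positivity)]
      linarith [(Nat.cast_nonneg n : (0 : ℝ) ≤ n)]
    obtain ⟨t, ht, hP⟩ := h _ h0
    obtain ⟨u, hu⟩ := rd_step hd h0 h1 ht hP
    exact ⟨u, hu⟩
  have hsub : ∀ n, S (n + 1) ⊆ S n := fun n u hu => Ap.mono (hanti (Nat.le_succ n)) hu
  obtain ⟨u, hu⟩ := IsCompact.nonempty_iInter_of_sequence_nonempty_isCompact_isClosed S hsub hne hcomp hcl
  rw [Set.mem_iInter] at hu
  refine ⟨u, ⟨(hu 0).unit, (hu 0).anti, fun i j k hj hk => ?_⟩⟩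
  have hlim : Filter.Tendsto (fun n => -er n) Filter.atTop (nhds (-(0 + √(6 * 0)))) := by
    have h1 : Filter.Tendsto (fun n : ℕ => 1 / ((n : ℝ) + 1)) Filter.atTop (nhds 0) :=
      tendsto_one_div_add_atTop_nhds_zero_nat
    exact (h1.add ((Real.continuous_sqrt.tendsto _).comp (h1.const_mul 6))).neg
  have h0 : -(0 + √(6 * 0)) = (0 : ℝ) := by simp
  rw [h0] at hlim
  exact le_of_tendsto' hlim fun n => (hu n).nn i j k hj hk

end red

end PCW
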