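import Pool.Agent.PCW.Defs

/-!
# Packing convex sets of given minimum width: common lemmas

* `map_inner` : the law of a linear functional; `null_hyper` : hyperplanes are null sets;
* `resample` : the component along a unit vector may be resampled independently;
* `comb` : the law of `a x + b y`.
-/

set_option autoImplicit false

open MeasureTheory ProbabilityTheory
open scoped RealInnerProductSpace

namespace PCW

section cone
variable {V : Type*} [NormedAddCommGroup V] [InnerProductSpace ℝ V] {ι : Type*}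

lemma isClosed_Kc (n : ι → V) : IsClosed (Kc n) := by
  have : Kc n = ⋂ j, {x | 0 ≤ ⟪n j, x⟫} := by
    ext x
    simp [Kc]
  rw [this]
  exact isClosed_iInter fun j => isClosed_le continuous_const (continuous_const.inner continuous_id)

lemma smul_Kc (n : ι → V) (c : ℝ) (hc : 0 < c) (x : V) (hx : x ∈ Kc n) : c • x ∈ Kc n := fun j => by
  rw [inner_smul_right]
  exact mul_nonneg hc.le (hx j)

lemma inner_pj (n x y : V) : ⟪pj n x, y⟫ = ⟪x, pj n y⟫ := by
  unfold pj
  rw [inner_sub_left, inner_sub_right, real_inner_smul_left, real_inner_smul_right, real_inner_comm x n]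
  ring

lemma inner_pj_self {n : V} (hn : ‖n‖ = 1) (x : V) : ⟪n, pj n x⟫ = 0 := by
  unfold pj
  rw [inner_sub_right, real_inner_smul_right, real_inner_self_eq_norm_sq, hn]
  ring

lemma pj_self {n : V} (hn : ‖n‖ = 1) : pj n n = 0 := by
  unfold pj
  rw [real_inner_self_eq_norm_sq, hn]
  simp

lemma pj_pj {n : V} (hn : ‖n‖ = 1) (x : V) : pj n (pj n x) = pj n x := by
  show pj n x - ⟪n, pj n x⟫ • n = pj n x
  rw [inner_pj_self hn]
  simp

lemma norm_sq_pj {n : V} (hn : ‖n‖ = 1) (x : V) : ‖x‖ ^ 2 = ⟪n, x⟫ ^ 2 + ‖pj n x‖ ^ 2 := by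
  have h : x = ⟪n, x⟫ • n + pj n x := by
    unfold pj
    abel
  conv_lhs => rw [h]
  rw [norm_add_sq_real, norm_smul, real_inner_smul_left, inner_pj_self hn, hn, Real.norm_eq_abs]
  rw [mul_one, sq_abs]
  ring

lemma pj_add (n x y : V) : pj n (x + y) = pj n x + pj n y := by
  unfold pj
  rw [inner_add_right, add_smul]
  abel

lemma pj_smul (n : V) (c : ℝ) (x : V) : pj n (c • x) = c • pj n x := by
  unfold pj
  rw [real_inner_smul_right, smul_sub, smul_smul]

lemma pj_sub (n x y : V) : pj n (x - y) = pj n x - pj n y := by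
  unfold pj
  rw [inner_sub_right, sub_smul]
  abel

lemma continuous_pj (n : V) : Continuous (pj n) :=
  continuous_id.sub ((continuous_const.inner continuous_id).smul continuous_const)

end cone

lemma integrable_norm (d : ℕ) : Integrable (fun x => ‖x‖) (gam d) :=
  (IsGaussian.integrable_id (μ := gam d)).norm

lemma integrable_inner (d : ℕ) (w : E d) : Integrable (fun x => ⟪w, x⟫) (gam d) :=
  (IsGaussian.integrable_id (μ := gam d)).const_inner w

/-- the law of a linear functional -/
theorem map_inner {d : ℕ} (v : E d) : (gam d).map (fun x => ⟪v, x⟫) = gaussianReal 0 (‖v‖₊ ^ 2) := by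
  apply Measure.ext_of_charFun
  ext t
  rw [charFun_gaussianReal, charFun_apply, integral_map (by fun_prop) (by fun_prop)]
  have h := charFun_stdGaussian (E := E d) (t • v)
  rw [charFun_apply] at h
  have e : ∀ x : E d, ((⟪⟪v, x⟫, t⟫ : ℝ) : ℂ) = ((⟪x, t • v⟫ : ℝ) : ℂ) := by
    intro x
    rw [real_inner_smul_right, real_inner_comm v x]
    simp
  simp_rw [e]
  rw [h]
  congr 1
  rw [← Complex.ofReal_pow, norm_smul, Real.norm_eq_abs, mul_pow, sq_abs]
  simp
  ring

/-- hyperplanes are null sets -/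
theorem null_hyper {d : ℕ} {v : E d} (hv : v ≠ 0) : gam d {x | ⟪v, x⟫ = 0} = 0 := by
  have h := map_inner v
  have h2 : (gam d).map (fun x => ⟪v, x⟫) {0} = 0 := by
    rw [h]
    have hv2 : (‖v‖₊ ^ 2) ≠ 0 := by simpa using hv
    have := nullSingletonClass_gaussianReal (μ := 0) hv2
    exact measure_singleton 0
  rwa [Measure.map_apply (by fun_prop) (measurableSet_singleton 0)] at h2

theorem null_hyper' {d : ℕ} {v : E d} (hv : v ≠ 0) : ∀ᵐ x ∂(gam d), ⟪v, x⟫ ≠ 0 := by
  have := null_hyper hv
  rw [ae_iff]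
  simpa using this

/-- the component along a unit vector may be resampled independently -/
theorem resample {d : ℕ} {n : E d} (hn : ‖n‖ = 1) :
    ((gaussianReal 0 1).prod (gam d)).map (fun p : ℝ × E d => p.1 • n + pj n p.2) = gam d := by
  have hm : Measurable fun p : ℝ × E d => p.1 • n + pj n p.2 := by
    have h1 : Continuous fun p : ℝ × E d => p.1 • n + pj n p.2 :=
      (continuous_fst.smul continuous_const).add ((continuous_pj n).comp continuous_snd)
    exact h1.measurable
  have := Measure.isProbabilityMeasure_map (μ := (gaussianReal 0 1).prod (gam d)) hm.aemeasurable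
  apply Measure.ext_of_charFun
  ext t
  rw [charFun_stdGaussian, charFun_apply, integral_map hm.aemeasurable (by fun_prop)]
  have e : ∀ p : ℝ × E d, Complex.exp (((⟪p.1 • n + pj n p.2, t⟫ : ℝ) : ℂ) * Complex.I) =
      Complex.exp (((⟪p.1, ⟪n, t⟫⟫ : ℝ) : ℂ) * Complex.I) *
        Complex.exp (((⟪p.2, pj n t⟫ : ℝ) : ℂ) * Complex.I) := by
    intro p
    rw [← Complex.exp_add, ← add_mul, ← Complex.ofReal_add, inner_add_left, real_inner_smul_left, inner_pj]
    congr 3
    simp [mul_comm]
  simp_rw [e]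
  rw [integral_prod_mul (fun s : ℝ => Complex.exp (((⟪s, ⟪n, t⟫⟫ : ℝ) : ℂ) * Complex.I))
    (fun x : E d => Complex.exp (((⟪x, pj n t⟫ : ℝ) : ℂ) * Complex.I)), ← charFun_apply, ← charFun_apply,
    charFun_stdGaussian, charFun_gaussianReal, ← Complex.exp_add]
  congr 1
  have h := norm_sq_pj hn t
  have h' : ((‖t‖ : ℂ)) ^ 2 = (⟪n, t⟫ : ℂ) ^ 2 + (‖pj n t‖ : ℂ) ^ 2 := by
    exact_mod_cast congrArg (fun r : ℝ => (r : ℂ)) h
  rw [h']
  push_cast
  ring

/-- the law of `a x + b y` -/
theorem comb {d : ℕ} (a b : ℝ) :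
    ((gam d).prod (gam d)).map (fun p : E d × E d => a • p.1 + b • p.2) =
      (gam d).map (fun x => √(a ^ 2 + b ^ 2) • x) := by
  have hm : Measurable fun p : E d × E d => a • p.1 + b • p.2 := by fun_prop
  have hm' : Measurable fun x : E d => √(a ^ 2 + b ^ 2) • x := by fun_prop
  have := Measure.isProbabilityMeasure_map (μ := (gam d).prod (gam d)) hm.aemeasurable
  have := Measure.isProbabilityMeasure_map (μ := gam d) hm'.aemeasurable
  apply Measure.ext_of_charFun
  ext t
  rw [charFun_apply, charFun_apply, integral_map hm.aemeasurable (by fun_prop),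
    integral_map hm'.aemeasurable (by fun_prop)]
  have e : ∀ p : E d × E d, Complex.exp (((⟪a • p.1 + b • p.2, t⟫ : ℝ) : ℂ) * Complex.I) =
      Complex.exp (((⟪p.1, a • t⟫ : ℝ) : ℂ) * Complex.I) *
        Complex.exp (((⟪p.2, b • t⟫ : ℝ) : ℂ) * Complex.I) := by
    intro p
    rw [← Complex.exp_add, ← add_mul, ← Complex.ofReal_add, inner_add_left, real_inner_smul_left,
      real_inner_smul_left, real_inner_smul_right, real_inner_smul_right]
  have e' : ∀ x : E d, Complex.exp (((⟪√(a ^ 2 + b ^ 2) • x, t⟫ : ℝ) : ℂ) * Complex.I) =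
      Complex.exp (((⟪x, √(a ^ 2 + b ^ 2) • t⟫ : ℝ) : ℂ) * Complex.I) := by
    intro x
    rw [real_inner_smul_left, real_inner_smul_right]
  simp_rw [e, e']
  rw [integral_prod_mul (fun x : E d => Complex.exp (((⟪x, a • t⟫ : ℝ) : ℂ) * Complex.I))
    (fun x : E d => Complex.exp (((⟪x, b • t⟫ : ℝ) : ℂ) * Complex.I)), ← charFun_apply, ← charFun_apply,
    ← charFun_apply, charFun_stdGaussian, charFun_stdGaussian, charFun_stdGaussian, ← Complex.exp_add]
  congr 1
  rw [← Complex.ofReal_pow, ← Complex.ofReal_pow, ← Complex.ofReal_pow, norm_smul, norm_smul, norm_smul, mul_pow,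
    mul_pow, mul_pow, Real.norm_eq_abs, Real.norm_eq_abs, Real.norm_eq_abs, sq_abs, sq_abs, sq_abs,
    Real.sq_sqrt (by positivity)]
  push_cast
  ring

end PCW
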