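import Pool.Agent.PCW.Defs

/-! # Row D: the law of the edge vector (helper37) -/

set_option autoImplicit false

open MeasureTheory ProbabilityTheory
open scoped RealInnerProductSpace

namespace PCW

namespace FD

section gen
variable {V : Type*} [NormedAddCommGroup V] [InnerProductSpace ℝ V]

theorem inner_pj (n x t : V) : ⟪pj n x, t⟫ = ⟪x, pj n t⟫ := by
  unfold pj
  rw [inner_sub_left, inner_sub_right, real_inner_smul_left, inner_smul_right, real_inner_comm n x]
  ring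

theorem norm_pj_sq {n : V} (hn : ‖n‖ = 1) (t : V) : ‖pj n t‖ ^ 2 + ⟪n, t⟫ ^ 2 = ‖t‖ ^ 2 := by
  unfold pj
  rw [@norm_sub_sq ℝ, real_inner_comm, inner_smul_left, real_inner_comm, norm_smul, hn, mul_one, Real.norm_eq_abs,
    sq_abs]
  simp only [RCLike.re_to_real, conj_trivial]
  rw [real_inner_comm n t]
  ring

theorem pj_smul (n x : V) (c : ℝ) : pj n (c • x) = c • pj n x := by
  unfold pj
  rw [inner_smul_right, smul_sub, smul_smul]

theorem pj_add (n x y : V) : pj n (x + y) = pj n x + pj n y := by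
  unfold pj
  rw [inner_add_right, add_smul]
  abel

theorem pj_sub (n x y : V) : pj n (x - y) = pj n x - pj n y := by
  unfold pj
  rw [inner_sub_right, sub_smul]
  abel

theorem inner_pj_self {n : V} (hn : ‖n‖ = 1) (x : V) : ⟪n, pj n x⟫ = 0 := by
  unfold pj
  rw [inner_sub_right, inner_smul_right, real_inner_self_eq_norm_sq, hn]
  ring

theorem continuous_pj (n : V) : Continuous (pj n) := by
  unfold pj
  fun_prop

variable [FiniteDimensional ℝ V] [MeasurableSpace V] [BorelSpace V]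

/-- resampling the component along `n` -/
theorem resample {n : V} (hn : ‖n‖ = 1) :
    ((gaussianReal 0 1).prod (stdGaussian V)).map (fun p => p.1 • n + pj n p.2) = stdGaussian V := by
  have hm : Measurable fun p : ℝ × V => p.1 • n + pj n p.2 := by
    have := continuous_pj n
    exact Continuous.measurable (by fun_prop)
  apply Measure.ext_of_charFun
  ext t
  rw [charFun_apply, integral_map hm.aemeasurable (by fun_prop)]
  have e : ∀ p : ℝ × V, Complex.exp (((⟪p.1 • n + pj n p.2, t⟫ : ℝ) : ℂ) * Complex.I) =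
      Complex.exp (((⟪n, t⟫ : ℝ) : ℂ) * (p.1 : ℂ) * Complex.I) * Complex.exp (((⟪p.2, pj n t⟫ : ℝ) : ℂ) * Complex.I) := by
    intro p
    rw [← Complex.exp_add, inner_add_left, real_inner_smul_left, inner_pj]
    congr 1
    push_cast
    ring
  simp_rw [e]
  rw [integral_prod_mul (fun s : ℝ => Complex.exp (((⟪n, t⟫ : ℝ) : ℂ) * (s : ℂ) * Complex.I))
    (fun x : V => Complex.exp (((⟪x, pj n t⟫ : ℝ) : ℂ) * Complex.I)), ← charFun_apply_real, ← charFun_apply,
    charFun_gaussianReal, charFun_stdGaussian, charFun_stdGaussian, ← Complex.exp_add]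
  congr 1
  have h1 : ((‖pj n t‖ : ℝ) : ℂ) ^ 2 + ((⟪n, t⟫ : ℝ) : ℂ) ^ 2 = ((‖t‖ : ℝ) : ℂ) ^ 2 := by
    exact_mod_cast norm_pj_sq hn t
  push_cast
  linear_combination (-1 / 2 : ℂ) * h1

/-- the law of `t x - s y` -/
theorem law_comb {s t r : ℝ} (h : r ^ 2 = s ^ 2 + t ^ 2) :
    ((stdGaussian V).prod (stdGaussian V)).map (fun p => t • p.1 - s • p.2) = (stdGaussian V).map fun x => r • x := by
  have hm : Measurable fun p : V × V => t • p.1 - s • p.2 := by fun_prop
  apply Measure.ext_of_charFun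
  ext u
  rw [charFun_apply, integral_map hm.aemeasurable (by fun_prop)]
  have e : ∀ p : V × V, Complex.exp (((⟪t • p.1 - s • p.2, u⟫ : ℝ) : ℂ) * Complex.I) =
      Complex.exp (((⟪p.1, t • u⟫ : ℝ) : ℂ) * Complex.I) * Complex.exp (((⟪p.2, (-s) • u⟫ : ℝ) : ℂ) * Complex.I) := by
    intro p
    rw [← Complex.exp_add, inner_sub_left, real_inner_smul_left, real_inner_smul_left, inner_smul_right,
      inner_smul_right]
    congr 1
    push_cast
    ring
  simp_rw [e]
  rw [integral_prod_mul (fun x : V => Complex.exp (((⟪x, t • u⟫ : ℝ) : ℂ) * Complex.I))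
    (fun x : V => Complex.exp (((⟪x, (-s) • u⟫ : ℝ) : ℂ) * Complex.I)), ← charFun_apply, ← charFun_apply,
    charFun_map_smul, charFun_stdGaussian, charFun_stdGaussian, charFun_stdGaussian, ← Complex.exp_add]
  congr 1
  rw [norm_smul, norm_smul, norm_smul, Real.norm_eq_abs, Real.norm_eq_abs, Real.norm_eq_abs]
  have e1 : ((|t| : ℝ) : ℂ) ^ 2 = (t : ℂ) ^ 2 := by
    rw [← Complex.ofReal_pow, sq_abs, Complex.ofReal_pow]
  have e2 : ((|-s| : ℝ) : ℂ) ^ 2 = (s : ℂ) ^ 2 := by
    rw [← Complex.ofReal_pow, sq_abs, neg_sq, Complex.ofReal_pow]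
  have e3 : ((|r| : ℝ) : ℂ) ^ 2 = (s : ℂ) ^ 2 + (t : ℂ) ^ 2 := by
    rw [← Complex.ofReal_pow, sq_abs, h]
    push_cast
    ring
  push_cast
  rw [mul_pow, mul_pow, mul_pow, e1, e2, e3]
  ring

theorem facet_aux {n : V} {K : Set V} (hK : MeasurableSet K)
    (hc : ∀ c : ℝ, 0 < c → ∀ x ∈ K, c • x ∈ K) {s : ℝ} (hs : s ≠ 0) (t : ℝ) :
    (stdGaussian V).prod (stdGaussian V) {p | pj n (t • p.1 - s • p.2) ∈ K} = stdGaussian V {x | pj n x ∈ K} := by
  have hr : 0 < s ^ 2 + t ^ 2 := by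
    have := sq_pos_of_ne_zero hs
    nlinarith [sq_nonneg t]
  set r := √(s ^ 2 + t ^ 2) with hrd
  have hr0 : 0 < r := Real.sqrt_pos.2 hr
  have hr2 : r ^ 2 = s ^ 2 + t ^ 2 := Real.sq_sqrt hr.le
  have hKm : MeasurableSet {x | pj n x ∈ K} := hK.preimage (continuous_pj n).measurable
  have h1 := law_comb (V := V) hr2
  have h2 := congrArg (fun μ => μ {x | pj n x ∈ K}) h1
  rw [Measure.map_apply (by fun_prop) hKm, Measure.map_apply (by fun_prop) hKm] at h2
  refine Eq.trans h2 ?_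
  congr 1
  ext x
  show pj n (r • x) ∈ K ↔ pj n x ∈ K
  rw [pj_smul]
  constructor
  · intro h
    have := hc r⁻¹ (inv_pos.2 hr0) _ h
    rwa [inv_smul_smul₀ hr0.ne'] at this
  · exact hc r hr0 _

theorem facet_meas {n : V} (hn : ‖n‖ = 1) {K : Set V} (hK : MeasurableSet K)
    (hc : ∀ c : ℝ, 0 < c → ∀ x ∈ K, c • x ∈ K) :
    (stdGaussian V).prod (stdGaussian V) {p | ⟪n, p.2⟫ • p.1 - ⟪n, p.1⟫ • p.2 ∈ K} =
      stdGaussian V {x | pj n x ∈ K} := by
  set γ := stdGaussian V with hγ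
  set g := gaussianReal 0 1 with hg
  have hφ : Measurable fun p : ℝ × V => p.1 • n + pj n p.2 := by
    have := continuous_pj n
    exact Continuous.measurable (by fun_prop)
  have hS : MeasurableSet {p : V × V | ⟪n, p.2⟫ • p.1 - ⟪n, p.1⟫ • p.2 ∈ K} := hK.preimage (by fun_prop)
  have hre : (g.prod γ).map (fun p => p.1 • n + pj n p.2) = γ := resample hn
  have h1 : γ.prod γ {p | ⟪n, p.2⟫ • p.1 - ⟪n, p.1⟫ • p.2 ∈ K} =
      (g.prod γ).prod (g.prod γ) {q | pj n (q.2.1 • q.1.2 - q.1.1 • q.2.2) ∈ K} := by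
    conv_lhs => rw [← hre]
    rw [Measure.map_prod_map _ _ hφ hφ, Measure.map_apply (hφ.prodMap hφ) hS]
    congr 1
    ext q
    obtain ⟨⟨s, x⟩, ⟨t, y⟩⟩ := q
    show ⟪n, t • n + pj n y⟫ • (s • n + pj n x) - ⟪n, s • n + pj n x⟫ • (t • n + pj n y) ∈ K ↔
      pj n (t • x - s • y) ∈ K
    have e1 : ∀ (a : ℝ) (z : V), ⟪n, a • n + pj n z⟫ = a := by
      intro a z
      rw [inner_add_right, inner_smul_right, real_inner_self_eq_norm_sq, hn, inner_pj_self hn]
      ring
    rw [e1, e1, pj_sub, pj_smul, pj_smul]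
    have e2 : t • (s • n + pj n x) - s • (t • n + pj n y) = t • pj n x - s • pj n y := by
      module
    rw [e2]
  rw [h1]
  set F : ℝ → V → ℝ → V → ENNReal := fun s x t y => K.indicator 1 (pj n (t • x - s • y)) with hF
  have hind : Measurable (K.indicator (1 : V → ENNReal)) := measurable_one.indicator hK
  have hpj := continuous_pj n
  have hS' : MeasurableSet {q : (ℝ × V) × ℝ × V | pj n (q.2.1 • q.1.2 - q.1.1 • q.2.2) ∈ K} :=
    hK.preimage (Continuous.measurable (by fun_prop))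
  have hFm : Measurable fun q : (ℝ × V) × ℝ × V => F q.1.1 q.1.2 q.2.1 q.2.2 :=
    hind.comp (Continuous.measurable (by fun_prop))
  have h2 : (g.prod γ).prod (g.prod γ) {q | pj n (q.2.1 • q.1.2 - q.1.1 • q.2.2) ∈ K} =
      ∫⁻ s, ∫⁻ x, ∫⁻ t, ∫⁻ y, F s x t y ∂γ ∂g ∂γ ∂g := by
    rw [← lintegral_indicator_one hS', lintegral_prod _ (measurable_one.indicator hS').aemeasurable]
    rw [lintegral_prod]
    · refine lintegral_congr fun s => lintegral_congr fun x => ?_
      rw [lintegral_prod]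
      · rfl
      · exact ((measurable_one.indicator hS').comp (by fun_prop)).aemeasurable
    · exact (Measurable.lintegral_prod_right' (measurable_one.indicator hS')).aemeasurable
  rw [h2]
  have h3 : ∀ s : ℝ, ∫⁻ x, ∫⁻ t, ∫⁻ y, F s x t y ∂γ ∂g ∂γ = ∫⁻ t, ∫⁻ x, ∫⁻ y, F s x t y ∂γ ∂γ ∂g := by
    intro s
    refine lintegral_lintegral_swap ?_
    refine Measurable.aemeasurable ?_
    have hm : Measurable fun q : (V × ℝ) × V => F s q.1.1 q.1.2 q.2 :=
      hind.comp (Continuous.measurable (by fun_prop))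
    exact hm.lintegral_prod_right'
  have h4 : ∀ s t : ℝ, ∫⁻ x, ∫⁻ y, F s x t y ∂γ ∂γ = γ.prod γ {p | pj n (t • p.1 - s • p.2) ∈ K} := by
    intro s t
    have hm : MeasurableSet {p : V × V | pj n (t • p.1 - s • p.2) ∈ K} :=
      hK.preimage (Continuous.measurable (by fun_prop))
    rw [← lintegral_indicator_one hm, lintegral_prod _ (measurable_one.indicator hm).aemeasurable]
    rfl
  simp_rw [h3, h4]
  have := nullSingletonClass_gaussianReal (μ := 0) (v := 1) one_ne_zero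
  have h5 : ∀ᵐ s ∂g, s ≠ 0 := by
    rw [ae_iff]
    have : {a : ℝ | ¬ a ≠ 0} = {0} := by
      ext a
      simp
    rw [this]
    exact measure_singleton 0
  have h6 : ∀ᵐ s ∂g, ∫⁻ t, γ.prod γ {p | pj n (t • p.1 - s • p.2) ∈ K} ∂g = γ {x | pj n x ∈ K} := by
    filter_upwards [h5] with s hs
    have h7 : ∀ t : ℝ, γ.prod γ {p | pj n (t • p.1 - s • p.2) ∈ K} = γ {x | pj n x ∈ K} :=
      fun t => facet_aux hK hc hs t
    simp_rw [h7]
    rw [lintegral_const, measure_univ, mul_one]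
  rw [lintegral_congr_ae h6, lintegral_const, measure_univ, mul_one]

end gen

end FD

theorem facet_prob {d : ℕ} {n : E d} (hn : ‖n‖ = 1) {K : Set (E d)} (hK : MeasurableSet K)
    (hc : ∀ c : ℝ, 0 < c → ∀ x ∈ K, c • x ∈ K) :
    ((gam d).prod (gam d)).real {p | ⟪n, p.2⟫ • p.1 - ⟪n, p.1⟫ • p.2 ∈ K} = (gam d).real {x | pj n x ∈ K} := by
  rw [measureReal_def, measureReal_def, FD.facet_meas hn hK hc]

end PCW
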