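import Pool.Agent.PCW.Gau

/-!
# The Gaussian measure of a cone containing its dual cone, in every dimension
-/

set_option autoImplicit false

open MeasureTheory ProbabilityTheory Module
open scoped RealInnerProductSpace

namespace PCW

section cone
variable {V : Type*} [NormedAddCommGroup V] [InnerProductSpace ℝ V] {ι : Type*}

lemma isClosed_Kc' (n : ι → V) : IsClosed (Kc n) := by
  have : Kc n = ⋂ j, {x | 0 ≤ ⟪n j, x⟫} := by
    ext x
    simp [Kc]
  rw [this]
  exact isClosed_iInter fun j => isClosed_le continuous_const (continuous_const.inner continuous_id)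

lemma convex_Kc' (n : ι → V) : Convex ℝ (Kc n) := by
  intro x hx y hy a b ha hb _ j
  rw [inner_add_right, inner_smul_right, inner_smul_right]
  exact add_nonneg (mul_nonneg ha (hx j)) (mul_nonneg hb (hy j))

lemma smul_Kc' (n : ι → V) (c : ℝ) (hc : 0 ≤ c) (x : V) (hx : x ∈ Kc n) : c • x ∈ Kc n := fun j => by
  rw [inner_smul_right]
  exact mul_nonneg hc (hx j)

lemma add_Kc' (n : ι → V) (x y : V) (hx : x ∈ Kc n) (hy : y ∈ Kc n) : x + y ∈ Kc n := fun j => by
  rw [inner_add_right]
  exact add_nonneg (hx j) (hy j)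

lemma zero_Kc' (n : ι → V) : (0 : V) ∈ Kc n := fun j => by simp

/-- Moreau decomposition for a cone containing its dual cone -/
lemma moreau [FiniteDimensional ℝ V] {n : ι → V} (hn : Fam n) (x : V) :
    ∃ p q : V, p ∈ Kc n ∧ q ∈ Kc n ∧ x = p - q ∧ ⟪p, q⟫ = 0 := by
  obtain ⟨p, hp, hpn⟩ := exists_norm_eq_iInf_of_complete_convex ⟨0, zero_Kc' n⟩
    (isClosed_Kc' n).isComplete (convex_Kc' n) x
  rw [norm_eq_iInf_iff_real_inner_le_zero (convex_Kc' n) hp] at hpn
  have h0 : ⟪x - p, p⟫ = 0 := by
    have h1 := hpn 0 (zero_Kc' n)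
    have h2 := hpn ((2 : ℝ) • p) (smul_Kc' n 2 (by norm_num) p hp)
    rw [two_smul, add_sub_cancel_right] at h2
    rw [zero_sub, inner_neg_right] at h1
    linarith
  have hk : ∀ k ∈ Kc n, ⟪x - p, k⟫ ≤ 0 := by
    intro k hk
    have h1 := hpn k hk
    rw [inner_sub_right, h0] at h1
    linarith
  refine ⟨p, p - x, hp, fun j => ?_, by abel, ?_⟩
  · have h := hk (n j) (fun i => hn.nn i j)
    rw [← neg_sub x p, inner_neg_right, real_inner_comm]
    linarith
  · rw [← neg_sub x p, inner_neg_right, real_inner_comm, h0, neg_zero]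

end cone

section gen
variable {V : Type*} [NormedAddCommGroup V] [InnerProductSpace ℝ V] [FiniteDimensional ℝ V]
  [MeasurableSpace V] [BorelSpace V] {ι : Type*}

lemma std_pos [Finite ι] {n : ι → V} (hn : Fam n) : 0 < (stdGaussian V).real (Kc n) := by
  classical
  have := Fintype.ofFinite ι
  have hb : Metric.ball (∑ i, n i) 1 ⊆ Kc n := by
    intro x hx j
    have h1 : 1 ≤ ⟪n j, ∑ i, n i⟫ := by
      rw [inner_sum, ← Finset.add_sum_erase _ _ (Finset.mem_univ j), real_inner_self_eq_norm_sq, hn.unit j]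
      have : 0 ≤ ∑ x ∈ Finset.univ.erase j, ⟪n j, n x⟫ := Finset.sum_nonneg fun i _ => hn.nn j i
      linarith
    have h2 : |⟪n j, x - ∑ i, n i⟫| ≤ 1 := by
      refine (abs_real_inner_le_norm _ _).trans ?_
      rw [hn.unit j, one_mul, ← dist_eq_norm]
      exact (Metric.mem_ball.1 hx).le
    rw [inner_sub_right] at h2
    have := abs_le.1 h2
    linarith [this.1]
  have h1 : (volume : Measure V) ≪ stdGaussian V := by
    rw [std_eq]
    refine withDensity_absolutelyContinuous' continuous_dn.measurable.ennreal_ofReal.aemeasurable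
      (Filter.Eventually.of_forall fun x => ?_)
    simpa using dn_pos x
  have h2 : (0 : ENNReal) < stdGaussian V (Kc n) := by
    rw [pos_iff_ne_zero]
    intro h
    have h3 := h1 h
    have h4 : (volume : Measure V) (Metric.ball (∑ i, n i) 1) = 0 := measure_mono_null hb h3
    exact (Metric.measure_ball_pos volume (∑ i, n i) one_pos).ne' h4
  exact ENNReal.toReal_pos h2.ne' (measure_ne_top _ _)

/-- a translate of the cone inside the intersection of two translates -/
lemma two_translates {n : ι → V} (hn : Fam n) {l : ℝ} (hl : 0 < l) (x : V) :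
    Real.exp (-((1 + l) * ‖x‖ ^ 2) / 2) * (((√(1 + l⁻¹)) ^ (finrank ℝ V))⁻¹ * (stdGaussian V).real (Kc n)) ≤
      (stdGaussian V).real {y | x + y ∈ Kc n ∧ y - x ∈ Kc n} := by
  obtain ⟨p, q, hp, hq, rfl, hpq⟩ := moreau hn x
  have hK : MeasurableSet (Kc n) := (isClosed_Kc' n).measurableSet
  set z := p + q with hz
  have hzn : ‖z‖ ^ 2 = ‖p - q‖ ^ 2 := by
    rw [hz, @norm_add_sq_real, @norm_sub_sq_real, hpq]
    ring
  have hsub : {y | y - z ∈ Kc n} ⊆ {y | p - q + y ∈ Kc n ∧ y - (p - q) ∈ Kc n} := by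
    intro y hy
    have hy' : y - z ∈ Kc n := hy
    constructor
    · have : p - q + y = (y - z) + (2 : ℝ) • p := by
        rw [hz, two_smul]
        abel
      rw [this]
      exact add_Kc' n _ _ hy' (smul_Kc' n 2 (by norm_num) p hp)
    · have : y - (p - q) = (y - z) + (2 : ℝ) • q := by
        rw [hz, two_smul]
        abel
      rw [this]
      exact add_Kc' n _ _ hy' (smul_Kc' n 2 (by norm_num) q hq)
  refine le_trans ?_ (measureReal_mono hsub)
  rw [cameron_martin_set z hK, ← integral_cone_exp hK (fun c hc x hx => smul_Kc' n c hc.le x hx) (inv_pos.2 hl).le,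
    ← integral_const_mul]
  refine integral_mono ?_ ?_ fun k => ?_
  · refine Integrable.const_mul ?_ _
    refine Integrable.of_bound (C := 1) (by fun_prop) (Filter.Eventually.of_forall fun k => ?_)
    rw [Real.norm_eq_abs, abs_of_pos (Real.exp_pos _), Real.exp_le_one_iff]
    have : 0 ≤ l⁻¹ * ‖k‖ ^ 2 := by positivity
    linarith
  · have : Integrable (fun x => Real.exp (-⟪z, x⟫ - ‖z‖ ^ 2 / 2)) (stdGaussian V) := by
      have h := (integrable_exp_inner (-z)).mul_const (Real.exp (-(‖z‖ ^ 2 / 2)))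
      refine h.congr (Filter.Eventually.of_forall fun x => ?_)
      show Real.exp _ * Real.exp _ = Real.exp _
      rw [← Real.exp_add, inner_neg_left]
      rfl
    exact this.integrableOn
  · show Real.exp _ * Real.exp _ ≤ Real.exp _
    rw [← Real.exp_add, Real.exp_le_exp, hzn]
    have h1 : ⟪z, k⟫ ≤ ‖z‖ * ‖k‖ := real_inner_le_norm _ _
    have h2 : ‖z‖ = ‖p - q‖ := by
      rw [← abs_of_nonneg (norm_nonneg z), ← abs_of_nonneg (norm_nonneg (p - q))]
      exact sq_eq_sq_iff_abs_eq_abs _ _ |>.1 hzn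
    rw [h2] at h1
    have h3 : 2 * (‖p - q‖ * ‖k‖) ≤ l * ‖p - q‖ ^ 2 + l⁻¹ * ‖k‖ ^ 2 := by
      have e : l * ‖p - q‖ ^ 2 + l⁻¹ * ‖k‖ ^ 2 - 2 * (‖p - q‖ * ‖k‖) = l⁻¹ * (l * ‖p - q‖ - ‖k‖) ^ 2 := by
        field_simp
        ring
      have : 0 ≤ l⁻¹ * (l * ‖p - q‖ - ‖k‖) ^ 2 := by positivity
      linarith
    linarith

/-- **the general bound** -/
theorem gen_cone_aux [Finite ι] {n : ι → V} (hn : Fam n) :
    ((1 + √2) ^ (finrank ℝ V))⁻¹ ≤ (stdGaussian V).real (Kc n) := by
  set μ := stdGaussian V with hμ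
  set K := Kc n with hKd
  have hK : MeasurableSet K := (isClosed_Kc' n).measurableSet
  have hpos : 0 < μ.real K := std_pos hn
  have hrot : (μ.prod μ).map (ContinuousLinearMap.rotation (Real.pi / 4)) = μ.prod μ :=
    IsGaussian.map_rotation_eq_self (by simp [hμ]) _
  have hsm : ∀ x : V, √2⁻¹ • x ∈ K ↔ x ∈ K := fun x => by
    constructor
    · intro h
      have := smul_Kc' n (√2⁻¹)⁻¹ (by positivity) _ h
      rwa [smul_smul, inv_mul_cancel₀ (by positivity), one_smul] at this
    · exact fun h => smul_Kc' n _ (by positivity) _ h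
  have h1 : μ.real K * μ.real K = (μ.prod μ).real {p | p.1 + p.2 ∈ K ∧ p.2 - p.1 ∈ K} := by
    rw [← measureReal_prod_prod, ← hrot, map_measureReal_apply (by fun_prop) (hK.prod hK), hrot]
    congr 1
    ext p
    have e1 : √2 / 2 = √2⁻¹ := by
      rw [Real.sqrt_inv, div_eq_iff (by norm_num), eq_comm, inv_mul_eq_iff_eq_mul₀ (by positivity),
        Real.mul_self_sqrt (by norm_num)]
    simp only [Set.mem_preimage, ContinuousLinearMap.rotation_apply, Real.cos_pi_div_four, Real.sin_pi_div_four, e1,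
      Set.mem_prod, ← smul_add, neg_smul]
    rw [neg_add_eq_sub, ← smul_sub, hsm, hsm]
    rfl
  have hms : MeasurableSet {p : V × V | p.1 + p.2 ∈ K ∧ p.2 - p.1 ∈ K} :=
    (hK.preimage (measurable_fst.add measurable_snd)).inter (hK.preimage (measurable_snd.sub measurable_fst))
  have h2 : (μ.prod μ).real {p | p.1 + p.2 ∈ K ∧ p.2 - p.1 ∈ K} =
      ∫ x, μ.real {y | x + y ∈ K ∧ y - x ∈ K} ∂μ := by
    rw [measureReal_def, Measure.prod_apply hms, ← integral_toReal]
    · rfl
    · exact (measurable_measure_prodMk_left hms).aemeasurable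
    · exact Filter.Eventually.of_forall fun x => measure_lt_top _ _
  have h3 : (√(2 + √2) ^ (finrank ℝ V))⁻¹ * ((√(1 + √2⁻¹) ^ (finrank ℝ V))⁻¹ * μ.real K) ≤ μ.real K * μ.real K := by
    rw [h1, h2]
    have e := integral_cone_exp (V := V) (K := Set.univ) MeasurableSet.univ (fun _ _ _ _ => Set.mem_univ _)
      (s := 1 + √2) (by positivity)
    rw [setIntegral_univ, ← hμ, probReal_univ, mul_one, ← add_assoc, one_add_one_eq_two] at e
    rw [← e, ← integral_mul_const]
    refine integral_mono ?_ ?_ fun x => ?_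
    · refine Integrable.mul_const ?_ _
      refine Integrable.of_bound (C := 1) (by fun_prop) (Filter.Eventually.of_forall fun k => ?_)
      rw [Real.norm_eq_abs, abs_of_pos (Real.exp_pos _), Real.exp_le_one_iff]
      have : 0 ≤ (1 + √2) * ‖k‖ ^ 2 := by positivity
      linarith
    · refine Integrable.of_bound (C := 1) ?_ (Filter.Eventually.of_forall fun k => ?_)
      · exact (measurable_measure_prodMk_left hms).ennreal_toReal.aestronglyMeasurable
      · rw [Real.norm_eq_abs, abs_of_nonneg measureReal_nonneg]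
        exact measureReal_le_one
    · have := two_translates hn (l := √2) (by positivity) x
      rwa [← Real.sqrt_inv] at this
  have h4 : √(2 + √2) * √(1 + √2⁻¹) = 1 + √2 := by
    rw [← Real.sqrt_mul (by positivity), Real.sqrt_eq_iff_mul_self_eq (by positivity) (by positivity)]
    have h5 : √2 * √2 = 2 := Real.mul_self_sqrt (by norm_num)
    have h6 : √2 * √2⁻¹ = 1 := by
      rw [← Real.sqrt_mul (by norm_num)]
      norm_num
    nlinarith
  rw [← mul_assoc, ← mul_inv, ← mul_pow, h4] at h3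
  exact le_of_mul_le_mul_right h3 hpos

end gen

theorem gen_cone {d : ℕ} {ι : Type*} [Finite ι] {n : ι → E d} (hn : Fam n) :
    ((1 + √2) ^ d)⁻¹ ≤ (gam d).real (Kc n) := by
  have := gen_cone_aux hn
  rwa [finrank_euclideanSpace_fin] at this

end PCW
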