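import Pool.Agent.PCW.Defs

/-! # Row C: a random plane or its orthogonal complement meets the cone (helper37) -/

set_option autoImplicit false

open MeasureTheory ProbabilityTheory
open scoped RealInnerProductSpace Quaternion

namespace PCW

section gen
variable {V : Type*} [NormedAddCommGroup V] [InnerProductSpace ℝ V] {ι : Type*}

/-- the vector of the plane of `X` and `Y` orthogonal to `n` -/
def zz (n X Y : V) : V := ⟪n, Y⟫ • X - ⟪n, X⟫ • Y

/-- the plane spanned by `X` and `Y` meets the cone -/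
def Hit (n : ι → V) (X Y : V) : Prop := ∃ j, zz (n j) X Y ∈ Kc n

theorem inner_zz (n : ι → V) (X Y : V) (j k : ι) :
    ⟪n k, zz (n j) X Y⟫ = ⟪n k, X⟫ * ⟪n j, Y⟫ - ⟪n k, Y⟫ * ⟪n j, X⟫ := by
  unfold zz
  rw [inner_sub_right, inner_smul_right, inner_smul_right]
  ring

theorem planar [Finite ι] [Nonempty ι] (a b : ι → ℝ) {c₁ c₂ : ℝ}
    (hc : c₁ ≠ 0 ∨ c₂ ≠ 0) (h : ∀ k, 0 ≤ c₁ * a k + c₂ * b k) :
    ∃ j, ∀ k, 0 ≤ a k * b j - b k * a j := by
  classical
  have := Fintype.ofFinite ι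
  have hN : 0 < c₁ ^ 2 + c₂ ^ 2 := by
    rcases hc with hc | hc
    · nlinarith [sq_nonneg c₂, sq_pos_of_ne_zero hc]
    · nlinarith [sq_nonneg c₁, sq_pos_of_ne_zero hc]
  set p : ι → ℝ := fun k => c₁ * a k + c₂ * b k with hp
  set q : ι → ℝ := fun k => c₁ * b k - c₂ * a k with hq
  have key : ∀ j k, p k * q j - q k * p j = (c₁ ^ 2 + c₂ ^ 2) * (a k * b j - b k * a j) := by
    intro j k
    simp only [hp, hq]
    ring
  suffices hs : ∃ j, ∀ k, 0 ≤ p k * q j - q k * p j by
    obtain ⟨j, hj⟩ := hs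
    refine ⟨j, fun k => ?_⟩
    have h1 := hj k
    rw [key] at h1
    exact (mul_nonneg_iff_of_pos_left hN).1 h1
  by_cases h1 : ∃ j, p j = 0 ∧ 0 ≤ q j
  · obtain ⟨j, hj1, hj2⟩ := h1
    refine ⟨j, fun k => ?_⟩
    rw [hj1, mul_zero, sub_zero]
    exact mul_nonneg (h k) hj2
  · push Not at h1
    by_cases h2 : ∃ j, 0 < p j
    · obtain ⟨j₀, hj₀⟩ := h2
      obtain ⟨j, hj, hmax⟩ := Finset.exists_max_image (Finset.univ.filter fun j => 0 < p j)
        (fun j => q j / p j) ⟨j₀, Finset.mem_filter.2 ⟨Finset.mem_univ _, hj₀⟩⟩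
      rw [Finset.mem_filter] at hj
      refine ⟨j, fun k => ?_⟩
      rcases (h k).lt_or_eq with hk | hk
      · have h3 := hmax k (Finset.mem_filter.2 ⟨Finset.mem_univ _, hk⟩)
        rw [div_le_div_iff₀ hk hj.2] at h3
        have h4 : p k * q j - q k * p j = q j * p k - q k * p j := by ring
        rw [h4]
        linarith
      · have hk' : p k = 0 := hk.symm
        have h3 := h1 k hk'
        rw [hk', zero_mul, zero_sub, neg_nonneg]
        exact mul_nonpos_of_nonpos_of_nonneg h3.le hj.2.le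
    · push Not at h2
      obtain ⟨j⟩ := (inferInstance : Nonempty ι)
      refine ⟨j, fun k => ?_⟩
      have h3 : p k = 0 := le_antisymm (h2 k) (h k)
      have h4 : p j = 0 := le_antisymm (h2 j) (h j)
      rw [h3, h4]
      simp

/-- Farkas in the plane. -/
theorem farkas [Finite ι] (a b : ι → ℝ)
    (h : ¬ ∃ c₁ c₂ : ℝ, (c₁ ≠ 0 ∨ c₂ ≠ 0) ∧ ∀ k, 0 ≤ c₁ * a k + c₂ * b k) :
    ∃ (κ : Type) (t : Finset κ) (w : κ → ℝ) (g : κ → ι), (∀ i ∈ t, 0 ≤ w i) ∧
      ∑ i ∈ t, w i = 1 ∧ ∑ i ∈ t, w i * a (g i) = 0 ∧ ∑ i ∈ t, w i * b (g i) = 0 := by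
  classical
  set S : Set (ℝ × ℝ) := Set.range fun k => (a k, b k) with hS
  have hfin : S.Finite := Set.finite_range _
  by_cases h0 : (0 : ℝ × ℝ) ∈ convexHull ℝ S
  · rw [_root_.convexHull_eq] at h0
    obtain ⟨κ, t, w, z, hw0, hw1, hz, hc⟩ := h0
    have hz' : ∀ i : {i // i ∈ t}, ∃ k, (a k, b k) = z i.1 := fun i => hz i.1 i.2
    choose g hg using hz'
    replace hc : ∑ i ∈ t, w i • z i = 0 := by
      rw [← hc]
      unfold Finset.centerMass
      rw [hw1, inv_one, one_smul]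
    refine ⟨{i // i ∈ t}, t.attach, fun i => w i.1, g, fun i _ => hw0 i.1 i.2, ?_, ?_, ?_⟩
    · rw [Finset.sum_attach t w]
      exact hw1
    · have h1 := congrArg Prod.fst hc
      rw [Prod.fst_sum, ← Finset.sum_attach] at h1
      refine Eq.trans ?_ h1
      refine Finset.sum_congr rfl fun i _ => ?_
      rw [← hg i]
      rfl
    · have h1 := congrArg Prod.snd hc
      rw [Prod.snd_sum, ← Finset.sum_attach] at h1
      refine Eq.trans ?_ h1
      refine Finset.sum_congr rfl fun i _ => ?_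
      rw [← hg i]
      rfl
  · exfalso
    obtain ⟨f, u, hf1, hf2⟩ : ∃ (f : StrongDual ℝ (ℝ × ℝ)) (u : ℝ), f 0 < u ∧ ∀ b ∈ convexHull ℝ S, u < f b :=
      geometric_hahn_banach_point_closed (convex_convexHull ℝ S) (hfin.isCompact_convexHull ℝ).isClosed h0
    have hf : ∀ x : ℝ × ℝ, f x = f (1, 0) * x.1 + f (0, 1) * x.2 := by
      intro x
      have : x = x.1 • ((1 : ℝ), (0 : ℝ)) + x.2 • ((0 : ℝ), (1 : ℝ)) := by
        ext <;> simp
      conv_lhs => rw [this]
      rw [map_add, map_smul, map_smul, smul_eq_mul, smul_eq_mul]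
      ring
    rw [map_zero] at hf1
    by_cases hι : Nonempty ι
    · obtain ⟨k₀⟩ := hι
      apply h
      refine ⟨f (1, 0), f (0, 1), ?_, ?_⟩
      · by_contra hcon
        push Not at hcon
        have h1 := hf2 _ (subset_convexHull ℝ S ⟨k₀, rfl⟩)
        rw [hf, hcon.1, hcon.2] at h1
        linarith
      · intro k
        have h1 := hf2 _ (subset_convexHull ℝ S ⟨k, rfl⟩)
        rw [hf] at h1
        linarith
    · apply h
      exact ⟨1, 0, .inl one_ne_zero, fun k => absurd ⟨k⟩ hι⟩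

/-- Two complementary planes: one of them meets the cone. -/
theorem hit_or [Finite ι] [Nonempty ι] {n : ι → V} (hn : Fam n) (X Y X' Y' : V)
    (hsp : ∀ v : V, ⟪v, X⟫ = 0 → ⟪v, Y⟫ = 0 → ∃ c₁ c₂ : ℝ, v = c₁ • X' + c₂ • Y') :
    Hit n X Y ∨ Hit n X' Y' := by
  classical
  by_contra hcon
  push Not at hcon
  obtain ⟨h1, h2⟩ := hcon
  have hpl : ∀ U W : V, ¬ Hit n U W → ¬ ∃ c₁ c₂ : ℝ, (c₁ ≠ 0 ∨ c₂ ≠ 0) ∧
      ∀ k, 0 ≤ c₁ * ⟪n k, U⟫ + c₂ * ⟪n k, W⟫ := by
    rintro U W hUW ⟨c₁, c₂, hc, hk⟩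
    obtain ⟨j, hj⟩ := planar (fun k => ⟪n k, U⟫) (fun k => ⟪n k, W⟫) hc hk
    apply hUW
    refine ⟨j, fun k => ?_⟩
    rw [inner_zz]
    exact hj k
  obtain ⟨κ, t, w, g, hw0, hw1, ha, hb⟩ := farkas _ _ (hpl X Y h1)
  set v : V := ∑ i ∈ t, w i • n (g i) with hv
  have hvn : ∀ z : V, ⟪v, z⟫ = ∑ i ∈ t, w i * ⟪n (g i), z⟫ := by
    intro z
    rw [hv, sum_inner]
    refine Finset.sum_congr rfl fun i _ => ?_
    rw [real_inner_smul_left]
  have hvX : ⟪v, X⟫ = 0 := by
    rw [hvn]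
    exact ha
  have hvY : ⟪v, Y⟫ = 0 := by
    rw [hvn]
    exact hb
  obtain ⟨c₁, c₂, hc⟩ := hsp v hvX hvY
  apply hpl X' Y' h2
  refine ⟨c₁, c₂, ?_, ?_⟩
  · by_contra hcon
    push Not at hcon
    rw [hcon.1, hcon.2, zero_smul, zero_smul, add_zero] at hc
    obtain ⟨i, hi, hwi⟩ : ∃ i ∈ t, 0 < w i := by
      by_contra hno
      push Not at hno
      have := Finset.sum_nonpos hno
      linarith
    have h3 : w i ≤ ⟪v, n (g i)⟫ := by
      rw [hvn]
      have h4 : w i * ⟪n (g i), n (g i)⟫ ≤ ∑ i' ∈ t, w i' * ⟪n (g i'), n (g i)⟫ :=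
        Finset.single_le_sum (f := fun i' => w i' * ⟪n (g i'), n (g i)⟫)
          (fun i' hi' => mul_nonneg (hw0 i' hi') (hn.nn _ _)) hi
      rw [real_inner_self_eq_norm_sq, hn.unit, one_pow, mul_one] at h4
      exact h4
    rw [hc, inner_zero_left] at h3
    linarith
  · intro k
    have h3 : 0 ≤ ⟪v, n k⟫ := by
      rw [hvn]
      exact Finset.sum_nonneg fun i hi => mul_nonneg (hw0 i hi) (hn.nn _ _)
    rw [hc, inner_add_left, real_inner_smul_left, real_inner_smul_left, real_inner_comm,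
      real_inner_comm (n k) Y'] at h3
    exact h3

theorem hit_smul [Nonempty ι] {n : ι → V} {c : ℝ} (hc : 0 < c) (X Y : V) : Hit n (c • X) (c • Y) ↔ Hit n X Y := by
  unfold Hit
  refine exists_congr fun j => ?_
  have e : zz (n j) (c • X) (c • Y) = (c * c) • zz (n j) X Y := by
    unfold zz
    rw [inner_smul_right, inner_smul_right, smul_sub, smul_smul, smul_smul, smul_smul, smul_smul]
    congr 2 <;> ring
  rw [e]
  refine forall_congr' fun k => ?_
  rw [inner_smul_right]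
  exact mul_nonneg_iff_of_pos_left (mul_pos hc hc)

theorem hit_of_dep [Nonempty ι] {n : ι → V} {X Y : V} {a b : ℝ} (hab : a ≠ 0 ∨ b ≠ 0) (h : a • X + b • Y = 0) :
    Hit n X Y := by
  obtain ⟨j⟩ := (inferInstance : Nonempty ι)
  refine ⟨j, ?_⟩
  have e : zz (n j) X Y = 0 := by
    unfold zz
    have h1 : a * ⟪n j, X⟫ + b * ⟪n j, Y⟫ = 0 := by
      rw [← inner_smul_right, ← inner_smul_right, ← inner_add_right, h, inner_zero_right]
    rcases hab with ha | hb
    · have h2 : a • (⟪n j, Y⟫ • X - ⟪n j, X⟫ • Y) = 0 := by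
        have e1 : a • (⟪n j, Y⟫ • X - ⟪n j, X⟫ • Y) =
            ⟪n j, Y⟫ • (a • X + b • Y) - (a * ⟪n j, X⟫ + b * ⟪n j, Y⟫) • Y := by
          module
        rw [e1, h, h1, smul_zero, zero_smul, sub_zero]
      exact (smul_eq_zero.1 h2).resolve_left ha
    · have h2 : b • (⟪n j, Y⟫ • X - ⟪n j, X⟫ • Y) = 0 := by
        have e1 : b • (⟪n j, Y⟫ • X - ⟪n j, X⟫ • Y) =
            (a * ⟪n j, X⟫ + b * ⟪n j, Y⟫) • X - ⟪n j, X⟫ • (a • X + b • Y) := by
          module
        rw [e1, h, h1, smul_zero, zero_smul, sub_zero]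
      exact (smul_eq_zero.1 h2).resolve_left hb
  rw [e]
  intro k
  rw [inner_zero_right]

theorem isClosed_hit [Finite ι] (n : ι → V) : IsClosed {p : V × V | Hit n p.1 p.2} := by
  have e : {p : V × V | Hit n p.1 p.2} = ⋃ j, ⋂ k, {p : V × V | 0 ≤ ⟪n k, zz (n j) p.1 p.2⟫} := by
    ext p
    simp [Hit, Kc]
  rw [e]
  refine isClosed_iUnion_of_finite fun j => isClosed_iInter fun k => isClosed_le continuous_const ?_
  unfold zz
  fun_prop

/-- similarities -/
theorem exists_isom [FiniteDimensional ℝ V] (T : V →ₗ[ℝ] V) {c : ℝ} (hc : 0 < c) (hT : ∀ x, ‖T x‖ = c * ‖x‖) :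
    ∃ T' : V ≃ₗᵢ[ℝ] V, ∀ x, T x = c • T' x := by
  let T₁ : V →ₗᵢ[ℝ] V := ⟨c⁻¹ • T, fun x => by
    rw [LinearMap.smul_apply, norm_smul, hT, norm_inv, Real.norm_eq_abs, abs_of_pos hc, inv_mul_cancel_left₀ hc.ne']⟩
  refine ⟨T₁.toLinearIsometryEquiv rfl, fun x => ?_⟩
  rw [LinearIsometry.coe_toLinearIsometryEquiv]
  show T x = c • (c⁻¹ • T) x
  rw [LinearMap.smul_apply, smul_inv_smul₀ hc.ne']

end gen

/-! ## Quaternions -/

section quat

noncomputable local instance quatMS : MeasurableSpace (Quaternion ℝ) := borel _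

local instance quatBS : BorelSpace (Quaternion ℝ) := ⟨rfl⟩

theorem exists_perp (w : Quaternion ℝ) : ∃ v : Quaternion ℝ, ‖v‖ = 1 ∧ v.re = 0 ∧ (v * w).re = 0 := by
  obtain ⟨v, hv, h1, h2⟩ : ∃ v : Quaternion ℝ, v ≠ 0 ∧ v.re = 0 ∧ (v * w).re = 0 := by
    by_cases h : w.imI = 0
    · refine ⟨⟨0, 1, 0, 0⟩, fun h0 => ?_, rfl, ?_⟩
      · have := congrArg QuaternionAlgebra.imI h0
        simp at this
      · simp [h]
    · refine ⟨⟨0, -w.imJ, w.imI, 0⟩, fun h0 => ?_, rfl, ?_⟩
      · have := congrArg QuaternionAlgebra.imJ h0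
        simp at this
        exact h this
      · simp
        ring
  have hv' : ‖v‖ ≠ 0 := norm_ne_zero_iff.2 hv
  refine ⟨‖v‖⁻¹ • v, ?_, ?_, ?_⟩
  · rw [norm_smul, norm_inv, norm_norm, inv_mul_cancel₀ hv']
  · rw [Quaternion.re_smul, h1, smul_zero]
  · rw [smul_mul_assoc, Quaternion.re_smul, h2, smul_zero]

theorem inner_mul_right (A B Q : Quaternion ℝ) : ⟪A * Q, B * Q⟫ = Quaternion.normSq Q * ⟪A, B⟫ := by
  rw [Quaternion.inner_def, Quaternion.inner_def, Quaternion.normSq_def']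
  simp
  ring

theorem inner_mul_v (X v : Quaternion ℝ) : ⟪X, X * v⟫ = Quaternion.normSq X * v.re := by
  rw [Quaternion.inner_def, Quaternion.normSq_def']
  simp
  ring

theorem inner_mul_v1 (X Y v : Quaternion ℝ) : ⟪X, Y * v⟫ = (v * (star X * Y)).re := by
  rw [Quaternion.inner_def]
  simp
  ring

theorem inner_mul_v2 (X Y v : Quaternion ℝ) :
    ⟪Y, X * v⟫ = 2 * v.re * (star X * Y).re - (v * (star X * Y)).re := by
  rw [Quaternion.inner_def]
  simp
  ring

theorem hit_quat {ι : Type*} [Finite ι] [Nonempty ι] {n : ι → Quaternion ℝ} (hn : Fam n) (X Y : Quaternion ℝ) :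
    ∃ v : Quaternion ℝ, ‖v‖ = 1 ∧ ∀ Q, Hit n (X * Q) (Y * Q) ∨ Hit n (X * (v * Q)) (Y * (v * Q)) := by
  obtain ⟨v, hv1, hv2, hv3⟩ := exists_perp (star X * Y)
  have hv0 : v ≠ 0 := norm_ne_zero_iff.1 (by rw [hv1]; exact one_ne_zero)
  refine ⟨v, hv1, fun Q => ?_⟩
  by_cases hQ : Q = 0
  · left
    refine hit_of_dep (a := 1) (b := 0) (.inl one_ne_zero) ?_
    rw [hQ, mul_zero, mul_zero, smul_zero, smul_zero, add_zero]
  by_cases hd : ∃ a b : ℝ, (a ≠ 0 ∨ b ≠ 0) ∧ a • X + b • Y = 0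
  · left
    obtain ⟨a, b, hab, h⟩ := hd
    refine hit_of_dep (a := a) (b := b) hab ?_
    rw [← smul_mul_assoc, ← smul_mul_assoc, ← add_mul, h, zero_mul]
  have hd' : ∀ a b : ℝ, a • X + b • Y = 0 → a = 0 ∧ b = 0 := by
    intro a b h
    by_contra hcon
    apply hd
    refine ⟨a, b, ?_, h⟩
    by_contra h2
    push Not at h2
    exact hcon h2
  have hli : ∀ R : Quaternion ℝ, R ≠ 0 → LinearIndependent ℝ ![X * R, Y * R] := by
    intro R hR
    rw [LinearIndependent.pair_iff]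
    intro a b h
    rw [← smul_mul_assoc, ← smul_mul_assoc, ← add_mul] at h
    exact hd' a b ((mul_eq_zero.1 h).resolve_right hR)
  have hfr : ∀ R : Quaternion ℝ, R ≠ 0 →
      Module.finrank ℝ (Submodule.span ℝ {X * R, Y * R}) = 2 := by
    intro R hR
    have h1 := finrank_span_eq_card (hli R hR)
    rw [Fintype.card_fin, Matrix.range_cons, Matrix.range_cons, Matrix.range_empty, Set.union_empty] at h1
    exact h1
  set W := Submodule.span ℝ {X * Q, Y * Q} with hW
  set W' := Submodule.span ℝ {X * (v * Q), Y * (v * Q)} with hW'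
  have f1 : Module.finrank ℝ W = 2 := hfr Q hQ
  have f2 : Module.finrank ℝ W' = 2 := hfr (v * Q) (mul_ne_zero hv0 hQ)
  have f3 : Module.finrank ℝ W + Module.finrank ℝ Wᗮ = 4 := by
    rw [Submodule.finrank_add_finrank_orthogonal]
    exact Quaternion.finrank_eq_four
  have hle : W' ≤ Wᗮ := by
    rw [hW', Submodule.span_le]
    have hmem : ∀ z : Quaternion ℝ, ⟪X * Q, z⟫ = 0 → ⟪Y * Q, z⟫ = 0 → z ∈ Wᗮ := by
      intro z h1 h2
      rw [Submodule.mem_orthogonal]
      intro u hu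
      rw [hW, Submodule.mem_span_pair] at hu
      obtain ⟨a, b, rfl⟩ := hu
      rw [inner_add_left, real_inner_smul_left, real_inner_smul_left, h1, h2]
      simp
    rintro z (rfl | rfl)
    · apply hmem
      · rw [← mul_assoc, inner_mul_right, inner_mul_v, hv2, mul_zero, mul_zero]
      · rw [← mul_assoc, inner_mul_right, inner_mul_v2, hv2, hv3]
        ring
    · apply hmem
      · rw [← mul_assoc, inner_mul_right, inner_mul_v1, hv3, mul_zero]
      · rw [← mul_assoc, inner_mul_right, inner_mul_v, hv2, mul_zero, mul_zero]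
  have heq : W' = Wᗮ := Submodule.eq_of_le_of_finrank_eq hle (by omega)
  refine hit_or hn _ _ _ _ fun u h1 h2 => ?_
  have hu : u ∈ W' := by
    rw [heq, Submodule.mem_orthogonal]
    intro z hz
    rw [hW, Submodule.mem_span_pair] at hz
    obtain ⟨a, b, rfl⟩ := hz
    rw [inner_add_left, real_inner_smul_left, real_inner_smul_left, real_inner_comm, h1, real_inner_comm, h2]
    simp
  rw [hW', Submodule.mem_span_pair] at hu
  obtain ⟨a, b, h⟩ := hu
  exact ⟨a, b, h.symm⟩

end quat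

/-! ## Measures -/

section meas
variable {V : Type*} [NormedAddCommGroup V] [InnerProductSpace ℝ V] [FiniteDimensional ℝ V]
  [MeasurableSpace V] [BorelSpace V] {ι : Type*}

theorem std_zero {v : V} (hv : ‖v‖ = 1) : stdGaussian V {0} = 0 := by
  have h1 := IsGaussian.map_eq_gaussianReal (μ := stdGaussian V) (innerSL ℝ v)
  rw [integral_strongDual_stdGaussian, variance_dual_stdGaussian, innerSL_apply_norm, hv, one_pow, Real.toNNReal_one] at h1
  have := noAtoms_gaussianReal (μ := 0) (v := 1) one_ne_zero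
  refine le_antisymm ?_ (zero_le)
  calc stdGaussian V {0} ≤ stdGaussian V ((innerSL ℝ v) ⁻¹' {0}) := by
        refine measure_mono ?_
        rintro x rfl
        simp
    _ = 0 := by
        rw [← Measure.map_apply (by fun_prop) (measurableSet_singleton _), h1]
        exact measure_singleton 0

theorem half_le {T : V ≃ₗᵢ[ℝ] V} {S : Set V} (hS : MeasurableSet S) (h : ∀ x, x ∈ S ∨ T x ∈ S) :
    1 / 2 ≤ stdGaussian V S := by
  have h1 : stdGaussian V (T ⁻¹' S) = stdGaussian V S := by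
    conv_rhs => rw [← stdGaussian_map T]
    rw [Measure.map_apply T.continuous.measurable hS]
  have h2 : (1 : ENNReal) ≤ stdGaussian V S * 2 := by
    rw [mul_two]
    calc (1 : ENNReal) = stdGaussian V Set.univ := measure_univ.symm
      _ ≤ stdGaussian V (S ∪ T ⁻¹' S) := measure_mono fun x _ => h x
      _ ≤ stdGaussian V S + stdGaussian V (T ⁻¹' S) := measure_union_le _ _
      _ = _ := by rw [h1]
  exact ENNReal.div_le_of_le_mul h2

theorem prod_isom (T : V ≃ₗᵢ[ℝ] V) {A : Set (V × V)} (hA : MeasurableSet A) :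
    (stdGaussian V).prod (stdGaussian V) {p | (T p.1, T p.2) ∈ A} = (stdGaussian V).prod (stdGaussian V) A := by
  conv_rhs => rw [← stdGaussian_map T]
  rw [Measure.map_prod_map _ _ T.continuous.measurable T.continuous.measurable,
    Measure.map_apply (T.continuous.measurable.prodMap T.continuous.measurable) hA]
  rfl

end meas

section final

noncomputable local instance quatMS' : MeasurableSpace (Quaternion ℝ) := borel _

local instance quatBS' : BorelSpace (Quaternion ℝ) := ⟨rfl⟩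

theorem hit_half_quat {ι : Type*} [Finite ι] [Nonempty ι] {n : ι → Quaternion ℝ} (hn : Fam n) :
    1 / 2 ≤ (stdGaussian (Quaternion ℝ)).prod (stdGaussian (Quaternion ℝ)) {p | Hit n p.1 p.2} := by
  set μ := stdGaussian (Quaternion ℝ) with hμ
  set A : Set (Quaternion ℝ × Quaternion ℝ) := {p | Hit n p.1 p.2} with hA
  have hAc : IsClosed A := isClosed_hit n
  have hAm : MeasurableSet A := hAc.measurableSet
  set B : Set ((Quaternion ℝ × Quaternion ℝ) × Quaternion ℝ) := {q | (q.1.1 * q.2, q.1.2 * q.2) ∈ A} with hB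
  have hBm : MeasurableSet B := (hAc.preimage (by fun_prop)).measurableSet
  have h1 : 1 / 2 ≤ (μ.prod μ).prod μ B := by
    rw [Measure.prod_apply hBm]
    calc (1 / 2 : ENNReal) = ∫⁻ _ : Quaternion ℝ × Quaternion ℝ, 1 / 2 ∂(μ.prod μ) := by
          rw [lintegral_const, measure_univ, mul_one]
      _ ≤ _ := by
          refine lintegral_mono fun p => ?_
          obtain ⟨v, hv, hQ⟩ := hit_quat hn p.1 p.2
          obtain ⟨T, hT⟩ := exists_isom (LinearMap.mulLeft ℝ v) one_pos fun x => by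
            rw [LinearMap.mulLeft_apply, norm_mul, hv]
          refine half_le (T := T) (hBm.preimage (by fun_prop)) fun x => ?_
          have h2 := hT x
          rw [one_smul, LinearMap.mulLeft_apply] at h2
          rw [← h2]
          exact hQ x
  have h2 : (μ.prod μ).prod μ B = μ.prod μ A := by
    rw [Measure.prod_apply_symm hBm]
    have h3 : ∀ᵐ Q ∂μ, μ.prod μ ((fun x => (x, Q)) ⁻¹' B) = μ.prod μ A := by
      have h0 : μ {0} = 0 := std_zero (v := (1 : Quaternion ℝ)) (by simp)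
      have h4 : ∀ᵐ Q ∂μ, Q ≠ 0 := by
        rw [ae_iff]
        simpa using h0
      filter_upwards [h4] with Q hQ
      have hQ' : 0 < ‖Q‖ := norm_pos_iff.2 hQ
      obtain ⟨T, hT⟩ := exists_isom (LinearMap.mulRight ℝ Q) hQ' fun x => by
        rw [LinearMap.mulRight_apply, norm_mul, mul_comm]
      rw [← prod_isom T hAm]
      congr 1
      ext p
      show Hit n (p.1 * Q) (p.2 * Q) ↔ Hit n (T p.1) (T p.2)
      have e1 := hT p.1
      have e2 := hT p.2
      rw [LinearMap.mulRight_apply] at e1 e2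
      rw [e1, e2]
      exact hit_smul hQ' _ _
    rw [lintegral_congr_ae h3, lintegral_const, measure_univ, mul_one]
  rw [← h2]
  exact h1

theorem hit_half {ι : Type*} [Finite ι] [Nonempty ι] {n : ι → E 4} (hn : Fam n) :
    1 / 2 ≤ ((gam 4).prod (gam 4)).real {p | ∃ j, ⟪n j, p.2⟫ • p.1 - ⟪n j, p.1⟫ • p.2 ∈ Kc n} := by
  set e := Quaternion.linearIsometryEquivTuple with he
  set n' : ι → Quaternion ℝ := fun j => e.symm (n j) with hn'
  have hin : ∀ (x : Quaternion ℝ) (j : ι), ⟪n j, e x⟫ = ⟪n' j, x⟫ := by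
    intro x j
    have : n j = e (n' j) := (e.apply_symm_apply _).symm
    rw [this, LinearIsometryEquiv.inner_map_map]
  have hF : Fam n' := ⟨fun j => by rw [hn', LinearIsometryEquiv.norm_map, hn.unit], fun i j => by
    rw [← hin]
    have : e (n' j) = n j := e.apply_symm_apply _
    rw [this]
    exact hn.nn i j⟩
  have hHit : ∀ X Y : Quaternion ℝ, Hit n (e X) (e Y) ↔ Hit n' X Y := by
    intro X Y
    refine exists_congr fun j => forall_congr' fun k => ?_
    rw [inner_zz, inner_zz, hin, hin, hin, hin]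
  have h1 := hit_half_quat hF
  have hAm : MeasurableSet {p : E 4 × E 4 | Hit n p.1 p.2} := (isClosed_hit n).measurableSet
  have h2 : (gam 4).prod (gam 4) {p | Hit n p.1 p.2} =
      (stdGaussian (Quaternion ℝ)).prod (stdGaussian (Quaternion ℝ)) {p | Hit n' p.1 p.2} := by
    have e1 : gam 4 = (stdGaussian (Quaternion ℝ)).map e := (stdGaussian_map e).symm
    rw [e1, Measure.map_prod_map _ _ e.continuous.measurable e.continuous.measurable,
      Measure.map_apply (e.continuous.measurable.prodMap e.continuous.measurable) hAm]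
    congr 1
    ext p
    exact hHit p.1 p.2
  rw [← h2] at h1
  have h3 : (1 / 2 : ENNReal).toReal ≤ ((gam 4).prod (gam 4)).real {p | Hit n p.1 p.2} :=
    ENNReal.toReal_mono (measure_ne_top _ _) h1
  have h4 : (1 / 2 : ENNReal).toReal = 1 / 2 := by norm_num
  rw [h4] at h3
  exact h3

end final

end PCW
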