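import Pool.Agent.PCW.Defs

/-!
# Packing convex sets: a central direction (Jung)

`exists_center_dim` : a finite family of unit vectors of `ℝ^d` with nonnegative inner products has a unit vector `w` with
`⟪n j, w⟫ ≥ d ^ (-1/2)` for all `j`; `exists_center` : the case `d = 4`.
-/

set_option autoImplicit false

open MeasureTheory ProbabilityTheory
open scoped RealInnerProductSpace

namespace PCW

theorem exists_center_dim {d : ℕ} {ι : Type*} [Finite ι] [Nonempty ι] {n : ι → E d} (hn : Fam n) :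
    ∃ w : E d, ‖w‖ = 1 ∧ ∀ j, (√d)⁻¹ ≤ ⟪n j, w⟫ := by
  classical
  set C : Set (E d) := convexHull ℝ (Set.range n) with hC
  have hne : C.Nonempty := (Set.range_nonempty n).convexHull
  have hcomp : IsComplete C := ((Set.finite_range n).isCompact_convexHull ℝ).isComplete
  have hconv : Convex ℝ C := convex_convexHull ℝ _
  obtain ⟨q, hq, hmin⟩ := exists_norm_eq_iInf_of_complete_convex hne hcomp hconv 0
  have hq2 : ∀ x ∈ C, ‖q‖ ^ 2 ≤ ⟪q, x⟫ := by
    intro x hx
    have h1 := (norm_eq_iInf_iff_real_inner_le_zero hconv hq).1 hmin x hx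
    rw [zero_sub, inner_neg_left, inner_sub_right, real_inner_self_eq_norm_sq] at h1
    linarith
  obtain ⟨κ, hκ, z, w, hz, hai, hw, hw1, hwz⟩ := eq_pos_convex_span_of_mem_convexHull hq
  have hzC : ∀ i, z i ∈ C := fun i => subset_convexHull ℝ _ (hz ⟨i, rfl⟩)
  choose a ha using fun i => hz (Set.mem_range_self i)
  have hzz : ∀ i i', (if i = i' then (1 : ℝ) else 0) ≤ ⟪z i, z i'⟫ := by
    intro i i'
    rw [← ha i, ← ha i']
    by_cases h : i = i'
    · rw [if_pos h, h, real_inner_self_eq_norm_sq, hn.unit]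
      norm_num
    · rw [if_neg h]
      exact hn.nn _ _
  -- the norm of `q`
  have hqq : ∑ i, w i ^ 2 ≤ ‖q‖ ^ 2 := by
    have h1 : ‖q‖ ^ 2 = ∑ i, ∑ i', w i * w i' * ⟪z i, z i'⟫ := by
      rw [← real_inner_self_eq_norm_sq, ← hwz, sum_inner]
      refine Finset.sum_congr rfl fun i _ => ?_
      rw [inner_sum]
      refine Finset.sum_congr rfl fun i' _ => ?_
      rw [inner_smul_left, inner_smul_right]
      simp only [conj_trivial]
      ring
    rw [h1]
    refine Finset.sum_le_sum fun i _ => ?_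
    have h2 : w i ^ 2 = ∑ i', w i * w i' * (if i = i' then (1 : ℝ) else 0) := by
      simp [sq]
    rw [h2]
    exact Finset.sum_le_sum fun i' _ => mul_le_mul_of_nonneg_left (hzz i i') (mul_pos (hw i) (hw i')).le
  have hpos : 0 < ∑ i, w i ^ 2 := by
    have hk : Nonempty κ := by
      by_contra h
      rw [not_nonempty_iff] at h
      rw [Fintype.sum_empty] at hw1
      exact zero_ne_one hw1
    exact Finset.sum_pos (fun i _ => pow_pos (hw i) 2) Finset.univ_nonempty
  have hq0 : 0 < ‖q‖ := by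
    have h1 : 0 < ‖q‖ ^ 2 := hpos.trans_le hqq
    exact lt_of_le_of_ne (norm_nonneg q) fun h => by rw [← h] at h1; norm_num at h1
  -- the points lie in a hyperplane
  have hqz : ∀ i, ⟪q, z i⟫ = ‖q‖ ^ 2 := by
    have h1 : ∑ i, w i * (⟪q, z i⟫ - ‖q‖ ^ 2) = 0 := by
      have h2 : ∑ i, w i * ⟪q, z i⟫ = ‖q‖ ^ 2 := by
        rw [← real_inner_self_eq_norm_sq]
        conv_rhs => rw [← hwz, inner_sum]
        refine Finset.sum_congr rfl fun i _ => ?_
        rw [inner_smul_right, hwz]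
      simp only [mul_sub]
      rw [Finset.sum_sub_distrib, h2, ← Finset.sum_mul, hw1, one_mul, sub_self]
    intro i
    have h3 := (Finset.sum_eq_zero_iff_of_nonneg fun i _ =>
      mul_nonneg (hw i).le (sub_nonneg.2 (hq2 _ (hzC i)))).1 h1 i (Finset.mem_univ i)
    have h4 := (mul_eq_zero.1 h3).resolve_left (hw i).ne'
    linarith
  have hli : LinearIndependent ℝ z := by
    rw [Fintype.linearIndependent_iff]
    intro c hc
    have h1 : ∑ i, c i = 0 := by
      have h2 : ⟪q, ∑ i, c i • z i⟫ = 0 := by rw [hc, inner_zero_right]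
      rw [inner_sum] at h2
      simp only [inner_smul_right, hqz] at h2
      rw [← Finset.sum_mul] at h2
      exact (mul_eq_zero.1 h2).resolve_right (pow_pos hq0 2).ne'
    rw [affineIndependent_iff] at hai
    exact fun i => hai Finset.univ c h1 hc i (Finset.mem_univ i)
  have hcard : (Fintype.card κ : ℝ) ≤ d := by
    have h1 := hli.fintype_card_le_finrank
    rw [finrank_euclideanSpace, Fintype.card_fin] at h1
    exact_mod_cast h1
  have hcs : 1 ≤ (d : ℝ) * ‖q‖ ^ 2 := by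
    have h1 := sq_sum_le_card_mul_sum_sq (s := (Finset.univ : Finset κ)) (f := w)
    rw [hw1, one_pow, Finset.card_univ] at h1
    calc (1 : ℝ) ≤ Fintype.card κ * ∑ i, w i ^ 2 := h1
      _ ≤ d * ∑ i, w i ^ 2 := mul_le_mul_of_nonneg_right hcard hpos.le
      _ ≤ d * ‖q‖ ^ 2 := mul_le_mul_of_nonneg_left hqq (Nat.cast_nonneg d)
  have hd : (0 : ℝ) < d := by
    by_contra h
    have h1 : (d : ℝ) = 0 := le_antisymm (not_lt.1 h) (Nat.cast_nonneg d)
    rw [h1, zero_mul] at hcs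
    linarith
  have hqd : (√d)⁻¹ ≤ ‖q‖ := by
    rw [inv_le_iff_one_le_mul₀ (Real.sqrt_pos.2 hd), mul_comm]
    rw [← Real.sqrt_sq hq0.le, ← Real.sqrt_mul hd.le]
    exact Real.one_le_sqrt.2 hcs
  refine ⟨‖q‖⁻¹ • q, by rw [norm_smul, norm_inv, norm_norm, inv_mul_cancel₀ hq0.ne'], fun j => ?_⟩
  rw [inner_smul_right, real_inner_comm]
  refine hqd.trans ?_
  have h1 := hq2 (n j) (subset_convexHull ℝ _ ⟨j, rfl⟩)
  calc ‖q‖ = ‖q‖⁻¹ * ‖q‖ ^ 2 := by field_simp
    _ ≤ ‖q‖⁻¹ * ⟪q, n j⟫ := mul_le_mul_of_nonneg_left h1 (inv_nonneg.2 hq0.le)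

theorem exists_center {ι : Type*} [Finite ι] [Nonempty ι] {n : ι → E 4} (hn : Fam n) :
    ∃ w : E 4, ‖w‖ = 1 ∧ ∀ j, 1 / 2 ≤ ⟪n j, w⟫ := by
  obtain ⟨w, hw, h⟩ := exists_center_dim hn
  refine ⟨w, hw, fun j => ?_⟩
  have h1 := h j
  have h2 : √((4 : ℕ) : ℝ) = 2 := by
    rw [show ((4 : ℕ) : ℝ) = 2 ^ 2 by norm_num]
    exact Real.sqrt_sq (by norm_num)
  rw [h2] at h1
  linarith

end PCW
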