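import Pool.Agent.PCW.Defs

/-!
# Packing convex sets: the density of the Gaussian measure, radial integrals over cones
-/

set_option autoImplicit false

open MeasureTheory ProbabilityTheory
open scoped RealInnerProductSpace ENNReal

namespace PCW

/-- the density of the standard Gaussian measure of `ℝ^d` -/
noncomputable def dens (d : ℕ) (x : E d) : ℝ :=
  (2 * Real.pi) ^ (-(d : ℝ) / 2) * Real.exp (-‖x‖ ^ 2 / 2)

lemma dens_pos (d : ℕ) (x : E d) : 0 < dens d x := by
  unfold dens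
  positivity

lemma continuous_dens (d : ℕ) : Continuous (dens d) := by
  unfold dens
  fun_prop

lemma integral_dens (d : ℕ) : ∫ x, dens d x = 1 := by
  have h := GaussianFourier.integral_rexp_neg_mul_sq_norm (V := E d) (b := 1 / 2) (by norm_num)
  simp only [dens]
  rw [integral_const_mul]
  have e : ∀ x : E d, Real.exp (-‖x‖ ^ 2 / 2) = Real.exp (-(1 / 2) * ‖x‖ ^ 2) := fun x => by
    congr 1
    ring
  simp only [e]
  rw [h]
  have : Real.pi / (1 / 2) = 2 * Real.pi := by ring
  rw [this, finrank_euclideanSpace, Fintype.card_fin, ← Real.rpow_add (by positivity)]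
  have : -(d : ℝ) / 2 + (d : ℝ) / 2 = 0 := by ring
  rw [this, Real.rpow_zero]

lemma integrable_dens (d : ℕ) : Integrable (dens d) := by
  by_contra h
  have := integral_dens d
  rw [integral_undef h] at this
  exact zero_ne_one this

/-- **the density of the standard Gaussian measure** -/
theorem gam_eq (d : ℕ) : gam d = (volume : Measure (E d)).withDensity (fun x => ENNReal.ofReal (dens d x)) := by
  have hfin : IsFiniteMeasure ((volume : Measure (E d)).withDensity (fun x => ENNReal.ofReal (dens d x))) :=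
    isFiniteMeasure_withDensity_ofReal (integrable_dens d).2
  refine Measure.ext_of_charFun (funext fun t => ?_)
  rw [charFun_stdGaussian, charFun_apply]
  have e1 : ∫ x, Complex.exp (⟪x, t⟫ * Complex.I)
        ∂((volume : Measure (E d)).withDensity (fun x => ENNReal.ofReal (dens d x))) =
      ∫ x, ((dens d x : ℝ) : ℂ) * Complex.exp (⟪x, t⟫ * Complex.I) := by
    rw [integral_withDensity_eq_integral_toReal_smul
      ((continuous_dens d).measurable.ennreal_ofReal) (by simp)]
    refine integral_congr_ae (Filter.Eventually.of_forall fun x => ?_)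
    simp only [ENNReal.toReal_ofReal (dens_pos d x).le, Complex.real_smul]
  rw [e1]
  have h := GaussianFourier.integral_cexp_neg_mul_sq_norm_add (V := E d) (b := 1 / 2) (by norm_num) Complex.I t
  have e2 : ∀ x : E d, ((dens d x : ℝ) : ℂ) * Complex.exp (⟪x, t⟫ * Complex.I) =
      (((2 * Real.pi) ^ (-(d : ℝ) / 2) : ℝ) : ℂ) * Complex.exp (-(1 / 2) * ‖x‖ ^ 2 + Complex.I * ⟪t, x⟫) := by
    intro x
    rw [dens, Complex.ofReal_mul, mul_assoc, Complex.ofReal_exp, ← Complex.exp_add, real_inner_comm t x]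
    congr 2
    push_cast
    ring
  simp only [e2]
  rw [integral_const_mul, h]
  have e3 : ((Real.pi : ℂ) / (1 / 2)) = ((2 * Real.pi : ℝ) : ℂ) := by
    push_cast
    ring
  have e4 : ((Module.finrank ℝ (E d) : ℂ) / 2) = (((d : ℝ) / 2 : ℝ) : ℂ) := by
    rw [finrank_euclideanSpace, Fintype.card_fin]
    push_cast
    ring
  rw [e3, e4, ← Complex.ofReal_cpow (by positivity), ← mul_assoc, ← Complex.ofReal_mul,
    ← Real.rpow_add (by positivity)]
  have : -(d : ℝ) / 2 + (d : ℝ) / 2 = 0 := by ring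
  rw [this, Real.rpow_zero, Complex.ofReal_one, one_mul, Complex.I_sq]
  congr 1
  ring

/-- integrals with respect to the Gaussian measure -/
lemma integral_gam {F : Type*} [NormedAddCommGroup F] [NormedSpace ℝ F] {d : ℕ} (f : E d → F) :
    ∫ x, f x ∂(gam d) = ∫ x, dens d x • f x := by
  rw [gam_eq, integral_withDensity_eq_integral_toReal_smul ((continuous_dens d).measurable.ennreal_ofReal) (by simp)]
  refine integral_congr_ae (Filter.Eventually.of_forall fun x => ?_)
  simp only [ENNReal.toReal_ofReal (dens_pos d x).le]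

lemma setIntegral_gam {F : Type*} [NormedAddCommGroup F] [NormedSpace ℝ F] {d : ℕ} {C : Set (E d)}
    (hC : MeasurableSet C) (f : E d → F) : ∫ x in C, f x ∂(gam d) = ∫ x in C, dens d x • f x := by
  rw [← integral_indicator hC, integral_gam, ← integral_indicator hC]
  refine integral_congr_ae (Filter.Eventually.of_forall fun x => ?_)
  by_cases hx : x ∈ C <;> simp [hx]

/-- polar coordinates on a cone -/
lemma cone_polar {d : ℕ} (hd : d ≠ 0) {C : Set (E d)} (hC : MeasurableSet C)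
    (hc : ∀ c : ℝ, 0 < c → ∀ x ∈ C, c • x ∈ C) (f : ℝ → ℝ) :
    ∫ x in C, f ‖x‖ =
      (∫ y : Metric.sphere (0 : E d) 1, C.indicator (fun _ => (1 : ℝ)) (y : E d) ∂((volume : Measure (E d)).toSphere)) *
        ∫ r, f (r : Set.Ioi (0 : ℝ)) ∂(Measure.volumeIoiPow (Module.finrank ℝ (E d) - 1)) := by
  have : Nontrivial (E d) := by
    have : Nonempty (Fin d) := ⟨⟨0, Nat.pos_of_ne_zero hd⟩⟩
    infer_instance
  have e0 : ∀ x : E d, C.indicator (fun x => f ‖x‖) x = C.indicator (fun _ => (1 : ℝ)) x * f ‖x‖ := fun x => by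
    by_cases hx : x ∈ C <;> simp [hx]
  have e1 : ∀ x : ({(0 : E d)}ᶜ : Set (E d)), C.indicator (fun _ => (1 : ℝ)) (x : E d) =
      C.indicator (fun _ => (1 : ℝ)) ((homeomorphUnitSphereProd (E d) x).1 : E d) := by
    intro x
    have hx0 : (x : E d) ≠ 0 := x.2
    have hn : 0 < ‖(x : E d)‖ := norm_pos_iff.2 hx0
    have h1 : ((homeomorphUnitSphereProd (E d) x).1 : E d) = ‖(x : E d)‖⁻¹ • (x : E d) := by
      simp
    rw [h1]
    by_cases hx : (x : E d) ∈ C
    · rw [Set.indicator_of_mem hx, Set.indicator_of_mem (hc _ (inv_pos.2 hn) _ hx)]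
    · rw [Set.indicator_of_notMem hx, Set.indicator_of_notMem]
      intro h2
      apply hx
      have := hc _ hn _ h2
      rwa [smul_smul, mul_inv_cancel₀ hn.ne', one_smul] at this
  calc ∫ x in C, f ‖x‖ = ∫ x, C.indicator (fun _ => (1 : ℝ)) x * f ‖x‖ := by
        rw [← integral_indicator hC]
        exact integral_congr_ae (Filter.Eventually.of_forall e0)
    _ = ∫ x : ({(0 : E d)}ᶜ : Set (E d)), C.indicator (fun _ => (1 : ℝ)) (x : E d) * f ‖(x : E d)‖
          ∂((volume : Measure (E d)).comap (↑)) := by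
        rw [integral_subtype_comap (measurableSet_singleton _).compl
          fun x : E d => C.indicator (fun _ => (1 : ℝ)) x * f ‖x‖, restrict_compl_singleton]
    _ = ∫ x : Metric.sphere (0 : E d) 1 × Set.Ioi (0 : ℝ), C.indicator (fun _ => (1 : ℝ)) (x.1 : E d) * f (x.2 : ℝ)
          ∂((volume : Measure (E d)).toSphere.prod (Measure.volumeIoiPow (Module.finrank ℝ (E d) - 1))) := by
        rw [← (volume : Measure (E d)).measurePreserving_homeomorphUnitSphereProd.integral_comp
          (Homeomorph.measurableEmbedding _)]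
        refine integral_congr_ae (Filter.Eventually.of_forall fun x => ?_)
        simp only
        rw [← e1 x]
        simp
    _ = _ := by
        rw [← integral_prod_mul (μ := (volume : Measure (E d)).toSphere)
          (ν := Measure.volumeIoiPow (Module.finrank ℝ (E d) - 1))
          (fun y : Metric.sphere (0 : E d) 1 => C.indicator (fun _ => (1 : ℝ)) (y : E d))
          (fun r : Set.Ioi (0 : ℝ) => f (r : ℝ))]

/-- radial integrals over cones -/
lemma cone_ratio {d : ℕ} {C : Set (E d)} (hC : MeasurableSet C)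
    (hc : ∀ c : ℝ, 0 < c → ∀ x ∈ C, c • x ∈ C) (hd : d ≠ 0) (f : ℝ → ℝ) :
    ∫ x in C, f ‖x‖ ∂(gam d) = (gam d).real C * ∫ x, f ‖x‖ ∂(gam d) := by
  set k : ℝ := (2 * Real.pi) ^ (-(d : ℝ) / 2) with hk
  set g : ℝ → ℝ := fun r => k * Real.exp (-r ^ 2 / 2) with hg
  have a1 : ∀ {B : Set (E d)} (_ : MeasurableSet B) (h : ℝ → ℝ),
      ∫ x in B, h ‖x‖ ∂(gam d) = ∫ x in B, (fun r => g r * h r) ‖x‖ := fun {B} hB h => by
    rw [setIntegral_gam hB]
    rfl
  have a2 := fun h : ℝ → ℝ => cone_polar hd hC hc h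
  have a3 := fun h : ℝ → ℝ => cone_polar hd (C := Set.univ) MeasurableSet.univ (fun _ _ _ _ => Set.mem_univ _) h
  have b1 : (gam d).real C = ∫ x in C, (fun r => g r * (fun _ => (1 : ℝ)) r) ‖x‖ := by
    rw [← a1 hC (fun _ => 1)]
    simp
  have b2 : (1 : ℝ) = ∫ x in (Set.univ : Set (E d)), (fun r => g r * (fun _ => (1 : ℝ)) r) ‖x‖ := by
    rw [← a1 MeasurableSet.univ (fun _ => 1)]
    simp
  have b3 : ∫ x, f ‖x‖ ∂(gam d) = ∫ x in (Set.univ : Set (E d)), (fun r => g r * f r) ‖x‖ := by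
    rw [← a1 MeasurableSet.univ f, setIntegral_univ]
  rw [b1, b3, ← mul_one (∫ x in C, f ‖x‖ ∂(gam d)), a1 hC]
  nth_rewrite 1 [b2]
  rw [a2 (fun r => g r * f r), a3 (fun r => g r * f r), a2 (fun r => g r * (fun _ => (1 : ℝ)) r),
    a3 (fun r => g r * (fun _ => (1 : ℝ)) r)]
  ring

/-- **radial integrals over cones** -/
theorem cone_norm {d : ℕ} {C : Set (E d)} (hC : MeasurableSet C) (hc : ∀ c : ℝ, 0 < c → ∀ x ∈ C, c • x ∈ C) :
    ∫ x in C, ‖x‖ ∂(gam d) = (gam d).real C * ∫ x, ‖x‖ ∂(gam d) := by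
  rcases eq_or_ne d 0 with rfl | hd
  · have : ∀ x : E 0, ‖x‖ = 0 := fun x => by
      rw [Subsingleton.elim x 0, norm_zero]
    simp [this]
  · exact cone_ratio hC hc hd (fun r => r)

/-- **the mean norm in dimension four** -/
theorem integral_norm_four : ∫ x, ‖x‖ ∂(gam 4) = 3 * √Real.pi / (2 * √2) := by
  have h1 : ∫ x, ‖x‖ ∂(gam 4) = ∫ x : E 4, (fun r : ℝ => (2 * Real.pi) ^ (-((4 : ℕ) : ℝ) / 2) * Real.exp (-r ^ 2 / 2) * r) ‖x‖ := by
    rw [integral_gam]
    rfl
  have hvol : (volume : Measure (E 4)).real (Metric.ball 0 1) = Real.pi ^ 2 / 2 := by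
    rw [measureReal_def, InnerProductSpace.volume_ball_of_dim_even (k := 2) (by simp)]
    simp [Nat.factorial]
    positivity
  have hI : ∫ y in Set.Ioi (0 : ℝ), y ^ (3 : ℕ) * (Real.exp (-y ^ 2 / 2) * y) = 3 * √Real.pi / √2 := by
    have h := integral_rpow_mul_exp_neg_mul_rpow (p := 2) (q := 4) (b := 1 / 2) (by norm_num) (by norm_num) (by norm_num)
    have e : ∫ y in Set.Ioi (0 : ℝ), y ^ (3 : ℕ) * (Real.exp (-y ^ 2 / 2) * y) =
        ∫ x in Set.Ioi (0 : ℝ), x ^ (4 : ℝ) * Real.exp (-(1 / 2) * x ^ (2 : ℝ)) := by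
      refine setIntegral_congr_fun measurableSet_Ioi fun y _ => ?_
      show y ^ (3 : ℕ) * (Real.exp (-y ^ 2 / 2) * y) = y ^ (4 : ℝ) * Real.exp (-(1 / 2) * y ^ (2 : ℝ))
      rw [show (4 : ℝ) = ((4 : ℕ) : ℝ) by norm_num, show (2 : ℝ) = ((2 : ℕ) : ℝ) by norm_num, Real.rpow_natCast, Real.rpow_natCast]
      push_cast
      rw [show -y ^ 2 / 2 = -(1 / 2) * y ^ 2 by ring]
      ring
    rw [e, h]
    have g1 : Real.Gamma ((4 + 1) / 2) = 3 / 4 * √Real.pi := by
      rw [show ((4 : ℝ) + 1) / 2 = 3 / 2 + 1 by norm_num, Real.Gamma_add_one (by norm_num),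
        show (3 : ℝ) / 2 = 1 / 2 + 1 by norm_num, Real.Gamma_add_one (by norm_num), Real.Gamma_one_half_eq]
      ring
    rw [g1]
    have g2 : ((1 : ℝ) / 2) ^ (-((4 : ℝ) + 1) / 2) = 4 * √2 := by
      rw [one_div, Real.inv_rpow (by norm_num), ← Real.rpow_neg (by norm_num),
        show -(-((4 : ℝ) + 1) / 2) = 2 + 1 / 2 by norm_num, Real.rpow_add (by norm_num), Real.sqrt_eq_rpow]
      norm_num
    rw [g2]
    have hs2 : √2 * √2 = 2 := Real.mul_self_sqrt (by norm_num)
    field_simp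
    nlinarith [Real.sqrt_nonneg Real.pi]
  have h2 : (2 * Real.pi) ^ (-((4 : ℕ) : ℝ) / 2) = 1 / (4 * Real.pi ^ 2) := by
    rw [show -((4 : ℕ) : ℝ) / 2 = -((2 : ℕ) : ℝ) by norm_num, Real.rpow_neg (by positivity), Real.rpow_natCast]
    rw [mul_pow]
    norm_num
  rw [h1, integral_fun_norm_addHaar (volume : Measure (E 4))
    (fun r : ℝ => (2 * Real.pi) ^ (-((4 : ℕ) : ℝ) / 2) * Real.exp (-r ^ 2 / 2) * r), hvol, finrank_euclideanSpace, Fintype.card_fin, h2]
  have e3 : ∫ y in Set.Ioi (0 : ℝ), y ^ (4 - 1) • (1 / (4 * Real.pi ^ 2) * Real.exp (-y ^ 2 / 2) * y) =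
      1 / (4 * Real.pi ^ 2) * (3 * √Real.pi / √2) := by
    rw [← hI, ← integral_const_mul]
    refine integral_congr_ae (Filter.Eventually.of_forall fun y => ?_)
    simp only [smul_eq_mul]
    ring
  rw [e3]
  have hp : Real.pi ≠ 0 := Real.pi_ne_zero
  simp only [nsmul_eq_mul, smul_eq_mul]
  push_cast
  field_simp

end PCW
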