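import Pool.Agent.PCW.GenH

/-!
# The shift inequality
-/

set_option autoImplicit false

open MeasureTheory ProbabilityTheory Module
open scoped RealInnerProductSpace

namespace PCW

section shift
variable {V : Type*} [NormedAddCommGroup V] [InnerProductSpace ℝ V] [FiniteDimensional ℝ V]
  [MeasurableSpace V] [BorelSpace V] {ι : Type*}

/-- a slab: lower bound -/
lemma gaussian_slab {e : ℝ} (he : 0 < e) :
    e * ((√(2 * Real.pi))⁻¹ * Real.exp (-e ^ 2 / 2)) ≤ (gaussianReal 0 1).real (Set.Ioo 0 e) := by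
  rw [measureReal_def, gaussianReal_apply_eq_integral _ one_ne_zero, ENNReal.toReal_ofReal
    (integral_nonneg fun x => gaussianPDFReal_nonneg _ _ _)]
  have h := setIntegral_mono_on (μ := volume) (s := Set.Ioo 0 e)
    (f := fun _ => (√(2 * Real.pi))⁻¹ * Real.exp (-e ^ 2 / 2)) (g := fun x => gaussianPDFReal 0 1 x)
    (integrable_const _) (integrable_gaussianPDFReal 0 1).integrableOn measurableSet_Ioo ?_
  · rwa [setIntegral_const, Real.volume_real_Ioo_of_le he.le, sub_zero, smul_eq_mul] at h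
  · intro x hx
    rw [gaussianPDFReal]
    simp only [NNReal.coe_one, mul_one, sub_zero]
    refine mul_le_mul_of_nonneg_left ?_ (by positivity)
    rw [Real.exp_le_exp]
    have : x ^ 2 ≤ e ^ 2 := pow_le_pow_left₀ hx.1.le hx.2.le 2
    linarith

omit [FiniteDimensional ℝ V] in
lemma measurableSet_aux [Finite ι] (n : ι → V) (j : ι) (e : ℝ) :
    MeasurableSet {x : V | ∀ i, i ≠ j → e ≤ ⟪n i, pj (n j) x⟫} := by
  have h : {x : V | ∀ i, i ≠ j → e ≤ ⟪n i, pj (n j) x⟫} = ⋂ i, ⋂ (_ : i ≠ j), {x : V | e ≤ ⟪n i, pj (n j) x⟫} := by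
    ext x
    simp
  rw [h]
  refine (isClosed_iInter fun i => isClosed_iInter fun _ => ?_).measurableSet
  have hc : Continuous fun x : V => ⟪n i, pj (n j) x⟫ := continuous_const.inner (continuous_pj' (n j))
  exact isClosed_le continuous_const hc

omit [FiniteDimensional ℝ V] in
lemma measurableSet_aux2 [Finite ι] (n : ι → V) (j : ι) (e : ℝ) :
    MeasurableSet {x : V | 0 < ⟪n j, x⟫ ∧ ⟪n j, x⟫ < e ∧ ∀ i, i ≠ j → e ≤ ⟪n i, pj (n j) x⟫} := by
  have hc : Continuous fun x : V => ⟪n j, x⟫ := continuous_const.inner continuous_id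
  exact (measurableSet_lt measurable_const hc.measurable).inter
    ((measurableSet_lt hc.measurable measurable_const).inter (measurableSet_aux n j e))

/-- the measure of `{z : ⟪n i, pj z⟫ ≥ e for i ≠ j}` times a slab -/
lemma slab_prod [Finite ι] {n : ι → V} (hn : Fam n) (j : ι) (e : ℝ) :
    (stdGaussian V).real {x | 0 < ⟪n j, x⟫ ∧ ⟪n j, x⟫ < e ∧ ∀ i, i ≠ j → e ≤ ⟪n i, pj (n j) x⟫} =
      (gaussianReal 0 1).real (Set.Ioo 0 e) * (stdGaussian V).real {x | ∀ i, i ≠ j → e ≤ ⟪n i, pj (n j) x⟫} := by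
  have hT := measurableSet_aux2 n j e
  have hn1 : ⟪n j, n j⟫ = 1 := by rw [real_inner_self_eq_norm_sq, hn.unit j, one_pow]
  have hpp : ∀ x : V, ⟪n j, pj (n j) x⟫ = 0 := fun x => by
    rw [pj, inner_sub_right, inner_smul_right, hn1, mul_one, sub_self]
  have hpp2 : ∀ (s : ℝ) (x : V), pj (n j) (s • n j + pj (n j) x) = pj (n j) x := fun s x => by
    rw [pj, inner_add_right, inner_smul_right, hn1, hpp, mul_one, add_zero, add_sub_cancel_left]
  have hm : Measurable (fun p : ℝ × V => p.1 • n j + pj (n j) p.2) := by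
    have := (continuous_pj' (n j)).measurable
    fun_prop
  conv_lhs => rw [← map_resample (hn.unit j)]
  rw [map_measureReal_apply hm hT, ← measureReal_prod_prod]
  congr 1
  ext p
  simp only [Set.mem_preimage, Set.mem_ofPred_eq, Set.mem_prod, Set.mem_Ioo]
  rw [hpp2, inner_add_right, inner_smul_right, hn1, hpp, mul_one, add_zero, and_assoc]

/-- finite version of the shift inequality -/
lemma shift_eps [Fintype ι] {n : ι → V} (hn : Fam n) {w : V} (hw : ‖w‖ = 1) (h : ∀ j, 1 / 2 ≤ ⟪n j, w⟫)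
    {e : ℝ} (he : 0 < e) :
    ∑ j, (√(2 * Real.pi))⁻¹ * Real.exp (-e ^ 2 / 2) * (stdGaussian V).real {x | ∀ i, i ≠ j → e ≤ ⟪n i, pj (n j) x⟫} ≤
      2 * ∫ x in Kc n, ⟪w, x⟫ ∂(stdGaussian V) + 2 * e := by
  set μ := stdGaussian V with hμ
  set K := Kc n with hKd
  have hK : MeasurableSet K := (isClosed_Kc' n).measurableSet
  set S : ι → Set V := fun j => {x | 0 < ⟪n j, x⟫ ∧ ⟪n j, x⟫ < e ∧ ∀ i, i ≠ j → e ≤ ⟪n i, pj (n j) x⟫} with hS
  set T : Set V := {x | x - (2 * e) • w ∈ K} with hT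
  have hTm : MeasurableSet T := hK.preimage (measurable_id.sub_const _)
  have key : ∀ (x : V) (i j : ι), ⟪n i, x⟫ = ⟪n j, x⟫ * ⟪n i, n j⟫ + ⟪n i, pj (n j) x⟫ := fun x i j => by
    rw [pj, inner_sub_right, inner_smul_right]
    ring
  have hST : ∀ j, S j ⊆ K \ T := by
    intro j x hx
    obtain ⟨h1, h2, h3⟩ := hx
    refine ⟨fun i => ?_, fun hxT => ?_⟩
    · by_cases hij : i = j
      · rw [hij]
        exact h1.le
      · rw [key x i j]
        have := h3 i hij
        have := mul_nonneg h1.le (hn.nn i j)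
        linarith
    · have h4 := hxT j
      rw [inner_sub_right, inner_smul_right] at h4
      have := h j
      nlinarith
  have hdisj : Pairwise (Function.onFun Disjoint S) := by
    intro i j hij
    rw [Function.onFun, Set.disjoint_left]
    rintro x ⟨h1, h2, h3⟩ ⟨h4, h5, h6⟩
    have h7 := h6 i hij
    have h8 := key x i j
    have := mul_nonneg h4.le (hn.nn i j)
    linarith
  have hTK : T ⊆ K := by
    intro x hx j
    have h4 := hx j
    rw [inner_sub_right, inner_smul_right] at h4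
    have := h j
    nlinarith
  have hSm : ∀ j, MeasurableSet (S j) := fun j => measurableSet_aux2 n j e
  have h1 : ∑ j, μ.real (S j) ≤ μ.real K - μ.real T := by
    rw [← measureReal_sdiff hTK hTm, ← measureReal_iUnion_fintype hdisj hSm]
    exact measureReal_mono (Set.iUnion_subset hST)
  have h2 : μ.real K - μ.real T ≤ e * (2 * ∫ x in K, ⟪w, x⟫ ∂μ + 2 * e) := by
    have hi1 : Integrable (fun x : V => ⟪w, x⟫) μ := IsGaussian.integrable_id.const_inner w
    have hi2 : Integrable (fun x => Real.exp (-⟪(2 * e) • w, x⟫ - ‖(2 * e) • w‖ ^ 2 / 2)) μ := by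
      have h := (integrable_exp_inner (-((2 * e) • w))).mul_const (Real.exp (-(‖(2 * e) • w‖ ^ 2 / 2)))
      refine h.congr (Filter.Eventually.of_forall fun x => ?_)
      show Real.exp _ * Real.exp _ = Real.exp _
      rw [← Real.exp_add, inner_neg_left]
      rfl
    have e1 : μ.real K = ∫ x in K, (1 : ℝ) ∂μ := by simp
    have e2 : μ.real T = ∫ x in K, Real.exp (-⟪(2 * e) • w, x⟫ - ‖(2 * e) • w‖ ^ 2 / 2) ∂μ := cameron_martin_set _ hK
    rw [e1, e2, ← integral_sub (integrable_const _) hi2.integrableOn]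
    have e3 : ∫ x in K, (2 * e) * ⟪w, x⟫ + 2 * e ^ 2 ∂μ = 2 * e * ∫ x in K, ⟪w, x⟫ ∂μ + 2 * e ^ 2 * μ.real K := by
      rw [integral_add (hi1.integrableOn.const_mul _) (integrable_const _), integral_const_mul, setIntegral_const,
        smul_eq_mul, mul_comm (μ.real K)]
    have h3 : ∫ x in K, (1 : ℝ) - Real.exp (-⟪(2 * e) • w, x⟫ - ‖(2 * e) • w‖ ^ 2 / 2) ∂μ ≤
        ∫ x in K, (2 * e) * ⟪w, x⟫ + 2 * e ^ 2 ∂μ := by
      refine integral_mono ((integrable_const _).sub hi2.integrableOn)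
        ((hi1.integrableOn.const_mul _).add (integrable_const _)) fun x => ?_
      show 1 - Real.exp _ ≤ _
      have h4 := Real.add_one_le_exp (-⟪(2 * e) • w, x⟫ - ‖(2 * e) • w‖ ^ 2 / 2)
      rw [norm_smul, hw, Real.norm_eq_abs, mul_one, sq_abs, inner_smul_left] at h4 ⊢
      simp only [conj_trivial] at h4 ⊢
      linarith
    rw [e3] at h3
    have h5 : μ.real K ≤ 1 := measureReal_le_one
    have h6 : 2 * e ^ 2 * μ.real K ≤ 2 * e ^ 2 := by
      have : 0 < 2 * e ^ 2 := by positivity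
      nlinarith
    linarith
  have h3 : ∀ j, e * ((√(2 * Real.pi))⁻¹ * Real.exp (-e ^ 2 / 2) * μ.real {x | ∀ i, i ≠ j → e ≤ ⟪n i, pj (n j) x⟫}) ≤
      μ.real (S j) := by
    intro j
    rw [hS]
    show _ ≤ (stdGaussian V).real {x | 0 < ⟪n j, x⟫ ∧ ⟪n j, x⟫ < e ∧ ∀ i, i ≠ j → e ≤ ⟪n i, pj (n j) x⟫}
    rw [slab_prod hn j e, ← mul_assoc]
    exact mul_le_mul_of_nonneg_right (gaussian_slab he) measureReal_nonneg
  have h4 := (Finset.sum_le_sum fun j (_ : j ∈ Finset.univ) => h3 j).trans (h1.trans h2)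
  rw [← Finset.mul_sum] at h4
  exact le_of_mul_le_mul_left h4 he

/-- the boundary of a face is a null set -/
lemma null_face {n : ι → V} (hn : Fam n) (hi : Function.Injective n) (i j : ι) (hij : i ≠ j) :
    stdGaussian V {x | ⟪n i, pj (n j) x⟫ = 0} = 0 := by
  have hne : pj (n j) (n i) ≠ 0 := by
    intro h
    rw [pj, sub_eq_zero] at h
    have h1 : ‖n i‖ = |⟪n j, n i⟫| * ‖n j‖ := by
      conv_lhs => rw [h]
      rw [norm_smul, Real.norm_eq_abs]
    rw [hn.unit, hn.unit, mul_one, abs_of_nonneg (hn.nn j i)] at h1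
    rw [← h1, one_smul] at h
    exact hij (hi h)
  have hv : (volume : Measure V) {x | ⟪n i, pj (n j) x⟫ = 0} = 0 := by
    have h1 : {x : V | ⟪n i, pj (n j) x⟫ = 0} = (LinearMap.ker (innerₛₗ ℝ (pj (n j) (n i))) : Set V) := by
      ext x
      simp only [Set.mem_ofPred_eq, SetLike.mem_coe, LinearMap.mem_ker, innerₛₗ_apply_apply]
      rw [← inner_pj_left]
    rw [h1]
    refine Measure.addHaar_submodule volume _ fun h => hne ?_
    have h2 : pj (n j) (n i) ∈ LinearMap.ker (innerₛₗ ℝ (pj (n j) (n i))) := by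
      rw [h]
      trivial
    simpa using h2
  rw [std_eq]
  exact withDensity_absolutelyContinuous _ _ hv

/-- **the shift inequality** -/
theorem shift_aux [Fintype ι] {n : ι → V} (hn : Fam n) (hi : Function.Injective n) {w : V}
    (hw : ‖w‖ = 1) (h : ∀ j, 1 / 2 ≤ ⟪n j, w⟫) :
    (1 / 2) * (√(2 * Real.pi))⁻¹ * ∑ j, (stdGaussian V).real {x | pj (n j) x ∈ Kc n} ≤
      ∫ x in Kc n, ⟪w, x⟫ ∂(stdGaussian V) := by
  set μ := stdGaussian V with hμ
  set a : ℕ → ℝ := fun k => 1 / ((k : ℝ) + 1) with ha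
  have ha0 : ∀ k, 0 < a k := fun k => by
    rw [ha]
    positivity
  have hat : Filter.Tendsto a Filter.atTop (nhds 0) := tendsto_one_div_add_atTop_nhds_zero_nat
  have hanti : Antitone a := fun k l hkl => by
    rw [ha]
    exact one_div_le_one_div_of_le (by positivity) (by exact_mod_cast Nat.succ_le_succ hkl)
  have hlim : ∀ j, Filter.Tendsto (fun k => μ.real {x | ∀ i, i ≠ j → a k ≤ ⟪n i, pj (n j) x⟫}) Filter.atTop
      (nhds (μ.real {x | pj (n j) x ∈ Kc n})) := by
    intro j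
    have hmono : Monotone fun k => {x : V | ∀ i, i ≠ j → a k ≤ ⟪n i, pj (n j) x⟫} := by
      intro k l hkl x hx i hij
      exact (hanti hkl).trans (hx i hij)
    have h1 := tendsto_measure_iUnion_atTop (μ := μ) hmono
    have h2 : μ (⋃ k, {x : V | ∀ i, i ≠ j → a k ≤ ⟪n i, pj (n j) x⟫}) = μ {x | pj (n j) x ∈ Kc n} := by
      have hsub : (⋃ k, {x : V | ∀ i, i ≠ j → a k ≤ ⟪n i, pj (n j) x⟫}) ⊆ {x | pj (n j) x ∈ Kc n} := by
        intro x hx i
        obtain ⟨k, hk⟩ := Set.mem_iUnion.1 hx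
        by_cases hij : i = j
        · rw [hij, pj, inner_sub_right, inner_smul_right, real_inner_self_eq_norm_sq, hn.unit j]
          simp
        · exact (ha0 k).le.trans (hk i hij)
      refine measure_eq_measure_of_null_sdiff hsub ?_
      refine measure_mono_null (t := ⋃ i, ⋃ (_ : i ≠ j), {x | ⟪n i, pj (n j) x⟫ = 0}) ?_ ?_
      · rintro x ⟨hx1, hx2⟩
        by_contra hcon
        apply hx2
        have h3 : ∀ i, i ≠ j → 0 < ⟪n i, pj (n j) x⟫ := by
          intro i hij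
          refine lt_of_le_of_ne (hx1 i) fun h4 => hcon ?_
          exact Set.mem_iUnion.2 ⟨i, Set.mem_iUnion.2 ⟨hij, h4.symm⟩⟩
        have h4 : ∀ᶠ k in Filter.atTop, ∀ i, i ≠ j → a k ≤ ⟪n i, pj (n j) x⟫ := by
          refine Filter.eventually_all.2 fun i => ?_
          by_cases hij : i = j
          · exact Filter.Eventually.of_forall fun k h => absurd hij h
          · exact (hat.eventually_le_const (h3 i hij)).mono fun k hk _ => hk
        obtain ⟨k, hk⟩ := h4.exists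
        exact Set.mem_iUnion.2 ⟨k, hk⟩
      · refine measure_iUnion_null fun i => measure_iUnion_null fun hij => null_face hn hi i j hij
    rw [h2] at h1
    exact (ENNReal.tendsto_toReal (measure_ne_top _ _)).comp h1
  have hexp : Filter.Tendsto (fun k => (√(2 * Real.pi))⁻¹ * Real.exp (-(a k) ^ 2 / 2)) Filter.atTop
      (nhds ((√(2 * Real.pi))⁻¹ * 1)) := by
    refine Filter.Tendsto.const_mul _ ?_
    have h1 : Filter.Tendsto (fun k => -(a k) ^ 2 / 2) Filter.atTop (nhds (-(0 : ℝ) ^ 2 / 2)) :=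
      ((hat.pow 2).neg).div_const 2
    have h2 := (Real.continuous_exp.tendsto _).comp h1
    have h3 : Real.exp (-(0 : ℝ) ^ 2 / 2) = 1 := by norm_num
    rw [h3] at h2
    exact h2
  have hL : Filter.Tendsto (fun k => ∑ j, (√(2 * Real.pi))⁻¹ * Real.exp (-(a k) ^ 2 / 2) *
      μ.real {x | ∀ i, i ≠ j → a k ≤ ⟪n i, pj (n j) x⟫}) Filter.atTop
      (nhds (∑ j, (√(2 * Real.pi))⁻¹ * 1 * μ.real {x | pj (n j) x ∈ Kc n})) :=
    tendsto_finsetSum _ fun j _ => hexp.mul (hlim j)
  have hR : Filter.Tendsto (fun k => 2 * ∫ x in Kc n, ⟪w, x⟫ ∂μ + 2 * a k) Filter.atTop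
      (nhds (2 * ∫ x in Kc n, ⟪w, x⟫ ∂μ + 2 * 0)) := tendsto_const_nhds.add (hat.const_mul 2)
  have h5 := le_of_tendsto_of_tendsto' hL hR fun k => shift_eps hn hw h (ha0 k)
  rw [← Finset.mul_sum] at h5
  linarith

end shift

theorem shift {d : ℕ} {ι : Type*} [Fintype ι] {n : ι → E d} (hn : Fam n) (hi : Function.Injective n) {w : E d}
    (hw : ‖w‖ = 1) (h : ∀ j, 1 / 2 ≤ ⟪n j, w⟫) :
    (1 / 2) * (√(2 * Real.pi))⁻¹ * ∑ j, (gam d).real {x | pj (n j) x ∈ Kc n} ≤ ∫ x in Kc n, ⟪w, x⟫ ∂(gam d) :=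
  shift_aux hn hi hw h

end PCW
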