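import Pool.Agent.PCW.CapF
import Pool.Agent.PCW.FacD
import Pool.Agent.PCW.GenH
import Pool.Agent.PCW.HitC
import Pool.Agent.PCW.Jung
import Pool.Agent.PCW.Low
import Pool.Agent.PCW.Rad
import Pool.Agent.PCW.Red
import Pool.Agent.PCW.ShiftE
import Pool.Agent.PCW.Common

/-!
# Packing convex sets of given minimum width into the unit ball: assembly

* `cone_four` : a cone of `ℝ⁴` which contains its dual cone has Gaussian measure greater than `1 / 17`;
* `arr_card_four`, `arr_card_gen`, `arr_double` : the size of the arrays;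
* `main` : the main theorem.
-/

set_option autoImplicit false

open MeasureTheory ProbabilityTheory
open scoped RealInnerProductSpace

namespace PCW

/-- **the cone inequality in dimension four** -/
theorem cone_four {ι : Type*} [Finite ι] [Nonempty ι] {n : ι → E 4} (hn : Fam n) (hi : Function.Injective n) :
    1 / 17 < (gam 4).real (Kc n) := by
  classical
  have := Fintype.ofFinite ι
  obtain ⟨w, hw, hwn⟩ := exists_center hn
  have hKm : MeasurableSet (Kc n) := (isClosed_Kc n).measurableSet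
  -- the facets
  have h1 : 1 / 2 ≤ ∑ j, (gam 4).real {x | pj (n j) x ∈ Kc n} := by
    refine (hit_half hn).trans ?_
    have e : {p : E 4 × E 4 | ∃ j, ⟪n j, p.2⟫ • p.1 - ⟪n j, p.1⟫ • p.2 ∈ Kc n} =
        ⋃ j, {p : E 4 × E 4 | ⟪n j, p.2⟫ • p.1 - ⟪n j, p.1⟫ • p.2 ∈ Kc n} := by
      ext p
      simp
    rw [e]
    refine (measureReal_iUnion_fintype_le _).trans (le_of_eq ?_)
    exact Finset.sum_congr rfl fun j _ => facet_prob (hn.unit j) hKm (smul_Kc n)
  have h2 : 1 / (4 * √(2 * Real.pi)) ≤ ∫ x in Kc n, ⟪w, x⟫ ∂(gam 4) := by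
    refine le_trans ?_ (shift hn hi hw hwn)
    have h3 : 0 < √(2 * Real.pi) := Real.sqrt_pos.2 (by positivity)
    calc 1 / (4 * √(2 * Real.pi)) = (1 / 2) * (√(2 * Real.pi))⁻¹ * (1 / 2) := by
          field_simp
          norm_num
      _ ≤ _ := mul_le_mul_of_nonneg_left h1 (by positivity)
  -- the bathtub inequality
  set C : Set (E 4) := {x | ‖x‖ < √2 * ⟪w, x⟫} with hC
  have hCm : MeasurableSet C :=
    (isOpen_lt continuous_norm (continuous_const.mul (continuous_const.inner continuous_id))).measurableSet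
  have hCc : ∀ c : ℝ, 0 < c → ∀ x ∈ C, c • x ∈ C := by
    intro c hc x hx
    show ‖c • x‖ < √2 * ⟪w, c • x⟫
    rw [norm_smul, inner_smul_right, Real.norm_eq_abs, abs_of_pos hc]
    have hx' : ‖x‖ < √2 * ⟪w, x⟫ := hx
    nlinarith
  have i1 := integrable_norm 4
  have i2 := integrable_inner 4 w
  set g : E 4 → ℝ := fun x => √2 * ⟪w, x⟫ - ‖x‖ with hg
  have i3 : Integrable g (gam 4) := (i2.const_mul _).sub i1
  have h3 : ∫ x in Kc n, g x ∂(gam 4) ≤ ∫ x in C, g x ∂(gam 4) := by
    rw [← integral_indicator hKm, ← integral_indicator hCm]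
    refine integral_mono (i3.indicator hKm) (i3.indicator hCm) fun x => ?_
    by_cases hx : x ∈ C
    · rw [Set.indicator_of_mem hx]
      by_cases hx2 : x ∈ Kc n
      · rw [Set.indicator_of_mem hx2]
      · rw [Set.indicator_of_notMem hx2]
        exact sub_nonneg.2 (le_of_lt hx)
    · rw [Set.indicator_of_notMem hx]
      by_cases hx2 : x ∈ Kc n
      · rw [Set.indicator_of_mem hx2]
        exact sub_nonpos.2 (not_lt.1 hx)
      · rw [Set.indicator_of_notMem hx2]
  have e1 : ∫ x in Kc n, g x ∂(gam 4) = √2 * ∫ x in Kc n, ⟪w, x⟫ ∂(gam 4) -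
      (gam 4).real (Kc n) * (3 * √Real.pi / (2 * √2)) := by
    rw [hg, integral_sub (i2.const_mul _).integrableOn i1.integrableOn, integral_const_mul,
      cone_norm hKm (smul_Kc n), integral_norm_four]
  have e2 : ∫ x in C, g x ∂(gam 4) = √2 * (1 / (4 * √Real.pi)) -
      (1 / 4 - 1 / (2 * Real.pi)) * (3 * √Real.pi / (2 * √2)) := by
    rw [hg, integral_sub (i2.const_mul _).integrableOn i1.integrableOn, integral_const_mul,
      cone_norm hCm hCc, integral_norm_four, cap_first hw, cap_measure hw]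
  rw [e1, e2] at h3
  have h4 : √2 * (1 / (4 * √(2 * Real.pi))) ≤ √2 * ∫ x in Kc n, ⟪w, x⟫ ∂(gam 4) :=
    mul_le_mul_of_nonneg_left h2 (Real.sqrt_nonneg _)
  rw [Real.sqrt_mul (by norm_num)] at h4
  have hs2 : √2 * √2 = 2 := Real.mul_self_sqrt (by norm_num)
  have hsp : √Real.pi * √Real.pi = Real.pi := Real.mul_self_sqrt Real.pi_pos.le
  have p1 := Real.pi_gt_d2
  have q1 : 0 < √2 := by positivity
  have q2 : 0 < √Real.pi := Real.sqrt_pos.2 Real.pi_pos
  set a := √2 with ha
  set b := √Real.pi with hb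
  set κ := (gam 4).real (Kc n) with hκ
  have h5 : a * (1 / (4 * (a * b))) - κ * (3 * b / (2 * a)) ≤
      a * (1 / (4 * b)) - (1 / 4 - 1 / (2 * Real.pi)) * (3 * b / (2 * a)) := by linarith
  -- multiply by `4 b / 3` and simplify
  have h6 : 1 / 4 - (5 - a) / (6 * Real.pi) ≤ κ := by
    have hb0 : b ≠ 0 := q2.ne'
    have ha0 : a ≠ 0 := q1.ne'
    have e3 : a * (1 / (4 * (a * b))) = 1 / (4 * b) := by field_simp
    rw [e3] at h5
    have h7 := mul_le_mul_of_nonneg_left h5 (show (0 : ℝ) ≤ 2 * a / (3 * b) by positivity)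
    have e4 : 2 * a / (3 * b) * (1 / (4 * b) - κ * (3 * b / (2 * a))) = a / (6 * Real.pi) - κ := by
      rw [← hsp]
      field_simp
      ring
    have e5 : 2 * a / (3 * b) * (a * (1 / (4 * b)) - (1 / 4 - 1 / (2 * Real.pi)) * (3 * b / (2 * a))) =
        1 / (3 * Real.pi) - (1 / 4 - 1 / (2 * Real.pi)) := by
      have e6 : 2 * a / (3 * b) * (a * (1 / (4 * b))) = (a * a) / (6 * (b * b)) := by
        field_simp
        ring
      have e7 : 2 * a / (3 * b) * ((1 / 4 - 1 / (2 * Real.pi)) * (3 * b / (2 * a))) = 1 / 4 - 1 / (2 * Real.pi) := by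
        field_simp
      rw [mul_sub, e6, e7, hs2, hsp]
      field_simp
      ring
    rw [e4, e5] at h7
    have e8 : (5 - a) / (6 * Real.pi) = 1 / (2 * Real.pi) + 1 / (3 * Real.pi) - a / (6 * Real.pi) := by
      field_simp
      ring
    rw [e8]
    linarith
  refine lt_of_lt_of_le ?_ h6
  have ha2 : 1.414 < a := by
    rw [ha]
    exact Real.lt_sqrt_of_sq_lt (by norm_num)
  have h8 : (5 - a) / (6 * Real.pi) < 13 / 68 := by
    rw [div_lt_iff₀ (by positivity)]
    nlinarith
  linarith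

/-! ### arrays -/

section arrays
variable {d : ℕ} {ι : Type*}

/-- the cone of `i` -/
def Ki (u : ι → ι → E d) (i : ι) : Set (E d) := Kc fun j : {j // j ≠ i} => u i j

lemma mem_Ki {u : ι → ι → E d} {i : ι} {x : E d} : x ∈ Ki u i ↔ ∀ j, j ≠ i → 0 ≤ ⟪u i j, x⟫ :=
  ⟨fun h j hj => h ⟨j, hj⟩, fun h j => h j.1 j.2⟩

/-- the sum of the Gaussian measures of the cones -/
lemma arr_sum_le [Fintype ι] {u : ι → ι → E d} (hu : Arr u) : ∑ i, (gam d).real (Ki u i) ≤ 1 := by
  have hm : ∀ i, MeasurableSet (Ki u i) := fun i => (isClosed_Kc _).measurableSet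
  have hd : Pairwise (Function.onFun (AEDisjoint (gam d)) (Ki u)) := by
    intro i j hij
    have h0 : u i j ≠ 0 := by
      intro h
      have := hu.unit i j hij
      rw [h, norm_zero] at this
      exact zero_ne_one this
    refine measure_mono_null ?_ (null_hyper h0)
    rintro x ⟨hx, hy⟩
    have h1 := mem_Ki.1 hx j hij.symm
    have h2 := mem_Ki.1 hy i hij
    rw [hu.anti i j hij, inner_neg_left] at h2
    exact le_antisymm (by linarith) h1
  have h := measure_iUnion₀ hd fun i => (hm i).nullMeasurableSet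
  have h1 : ∑ i, (gam d) (Ki u i) ≤ 1 := by
    calc ∑ i, (gam d) (Ki u i) = ∑' i, (gam d) (Ki u i) := (tsum_fintype fun i => (gam d) (Ki u i)).symm
      _ = (gam d) (⋃ i, Ki u i) := h.symm
      _ ≤ 1 := prob_le_one
  have h2 : (∑ i, (gam d) (Ki u i)).toReal ≤ 1 := by
    rw [← ENNReal.toReal_one]
    exact ENNReal.toReal_mono ENNReal.one_ne_top h1
  rw [ENNReal.toReal_sum fun i _ => measure_ne_top _ _] at h2
  exact h2

lemma arr_card_le [Fintype ι] {u : ι → ι → E d} (hu : Arr u) {c : ℝ} (h : ∀ i, c ≤ (gam d).real (Ki u i)) :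
    (Fintype.card ι : ℝ) * c ≤ 1 := by
  calc (Fintype.card ι : ℝ) * c = ∑ _i : ι, c := by
        rw [Finset.sum_const, Finset.card_univ, nsmul_eq_mul]
    _ ≤ ∑ i, (gam d).real (Ki u i) := Finset.sum_le_sum fun i _ => h i
    _ ≤ 1 := arr_sum_le hu

lemma Kc_range {V : Type*} [NormedAddCommGroup V] [InnerProductSpace ℝ V] {κ : Type*} (n : κ → V) :
    Kc (fun v : Set.range n => (v : V)) = Kc n := by
  ext x
  constructor
  · exact fun h j => h ⟨n j, j, rfl⟩
  · rintro h ⟨_, j, rfl⟩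
    exact h j

theorem arr_card_four [Fintype ι] {u : ι → ι → E 4} (hu : Arr u) : Fintype.card ι ≤ 16 := by
  by_contra hcon
  have hcon : 17 ≤ Fintype.card ι := by omega
  have hnt : Nontrivial ι := Fintype.one_lt_card_iff_nontrivial.1 (by omega)
  have h1 : ∀ i, 1 / 17 < (gam 4).real (Ki u i) := by
    intro i
    obtain ⟨j, hj⟩ := exists_ne i
    have : Nonempty {j // j ≠ i} := ⟨⟨j, hj⟩⟩
    set n : {j // j ≠ i} → E 4 := fun j => u i j with hn
    have hf : Fam (fun v : Set.range n => (v : E 4)) :=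
      ⟨by
        rintro ⟨_, j, rfl⟩
        exact hu.unit i j j.2.symm, by
        rintro ⟨_, j, rfl⟩ ⟨_, k, rfl⟩
        exact hu.nn i j k j.2 k.2⟩
    have h := cone_four hf Subtype.val_injective
    rw [Kc_range] at h
    exact h
  have hne : Nonempty ι := hnt.to_nonempty
  have h2 : ∑ _i : ι, (1 / 17 : ℝ) < ∑ i, (gam 4).real (Ki u i) :=
    Finset.sum_lt_sum_of_nonempty Finset.univ_nonempty fun i _ => h1 i
  rw [Finset.sum_const, Finset.card_univ, nsmul_eq_mul] at h2
  have h3 := arr_sum_le hu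
  have h4 : (17 : ℝ) ≤ Fintype.card ι := by exact_mod_cast hcon
  linarith

theorem arr_card_gen [Fintype ι] {u : ι → ι → E d} (hu : Arr u) : (Fintype.card ι : ℝ) ≤ (1 + √2) ^ d := by
  have h := arr_card_le hu (c := ((1 + √2) ^ d)⁻¹) fun i => gen_cone
    ⟨fun j => hu.unit i j j.2.symm, fun j k => hu.nn i j k j.2 k.2⟩
  have h0 : 0 < (1 + √2) ^ d := by positivity
  rwa [← div_eq_mul_inv, div_le_one h0] at h

/-- the embedding of `ℝ^d` into `ℝ^(d+1)` -/
noncomputable def em (x : E d) : E (d + 1) := WithLp.toLp 2 (Fin.cons 0 x.ofLp : Fin (d + 1) → ℝ)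

/-- the new direction -/
noncomputable def e0 (d : ℕ) : E (d + 1) := WithLp.toLp 2 (Fin.cons 1 (fun _ => 0) : Fin (d + 1) → ℝ)

lemma inner_em (x y : E d) : ⟪em x, em y⟫ = ⟪x, y⟫ := by
  rw [PiLp.inner_apply, PiLp.inner_apply, Fin.sum_univ_succ]
  simp [em]

lemma inner_em_e0 (x : E d) : ⟪em x, e0 d⟫ = 0 := by
  rw [PiLp.inner_apply, Fin.sum_univ_succ]
  simp [em, e0]

lemma inner_e0_em (x : E d) : ⟪e0 d, em x⟫ = 0 := by
  rw [real_inner_comm, inner_em_e0]

lemma inner_e0 : ⟪e0 d, e0 d⟫ = (1 : ℝ) := by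
  rw [PiLp.inner_apply, Fin.sum_univ_succ]
  simp [e0]

lemma norm_em (x : E d) : ‖em x‖ = ‖x‖ := by
  rw [@norm_eq_sqrt_real_inner _ _ _ (em x), inner_em, ← @norm_eq_sqrt_real_inner]

lemma norm_e0 : ‖e0 d‖ = 1 := by
  rw [@norm_eq_sqrt_real_inner, inner_e0, Real.sqrt_one]

lemma em_neg (x : E d) : em (-x) = -em x := by
  ext i
  refine Fin.cases ?_ (fun i => ?_) i
  · simp [em]
  · simp [em]

/-- the double of an array -/
theorem arr_double {u : ι → ι → E d} (hu : Arr u) : ∃ v : ι × Bool → ι × Bool → E (d + 1), Arr v := by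
  set v : ι × Bool → ι × Bool → E (d + 1) := fun p q =>
    if p.2 = q.2 then em (u p.1 q.1) else (if p.2 then e0 d else -e0 d) with hv
  have hne : ∀ {i j : ι} {s : Bool}, ((i, s) : ι × Bool) ≠ (j, s) → i ≠ j := fun h h' => h (by rw [h'])
  refine ⟨v, ⟨?_, ?_, ?_⟩⟩
  · rintro ⟨i, s⟩ ⟨j, t⟩ h
    show ‖(if s = t then em (u i j) else (if s then e0 d else -e0 d))‖ = 1
    by_cases hst : s = t
    · subst hst
      rw [if_pos rfl, norm_em]
      exact hu.unit i j (hne h)
    · rw [if_neg hst]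
      cases s
      · simp [norm_e0]
      · simp [norm_e0]
  · rintro ⟨i, s⟩ ⟨j, t⟩ h
    show (if t = s then em (u j i) else (if t then e0 d else -e0 d)) =
      -(if s = t then em (u i j) else (if s then e0 d else -e0 d))
    by_cases hst : s = t
    · subst hst
      rw [if_pos rfl, if_pos rfl, hu.anti i j (hne h), em_neg]
    · rw [if_neg hst, if_neg (Ne.symm hst)]
      cases s <;> cases t <;> simp_all
  · rintro ⟨i, s⟩ ⟨j, t⟩ ⟨k, r⟩ h1 h2
    show 0 ≤ ⟪(if s = t then em (u i j) else (if s then e0 d else -e0 d)),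
      (if s = r then em (u i k) else (if s then e0 d else -e0 d))⟫
    by_cases hst : s = t
    · subst hst
      rw [if_pos rfl]
      by_cases hsr : s = r
      · subst hsr
        rw [if_pos rfl, inner_em]
        exact hu.nn i j k (hne h1) (hne h2)
      · rw [if_neg hsr]
        cases s
        · simp [inner_em_e0]
        · simp [inner_em_e0]
    · rw [if_neg hst]
      by_cases hsr : s = r
      · subst hsr
        rw [if_pos rfl]
        cases s
        · simp [inner_e0_em]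
        · simp [inner_e0_em]
      · rw [if_neg hsr]
        cases s
        · simp
        · simp

theorem arr_card_three [Fintype ι] {u : ι → ι → E 3} (hu : Arr u) : Fintype.card ι ≤ 8 := by
  obtain ⟨v, hv⟩ := arr_double hu
  have h := arr_card_four hv
  rw [Fintype.card_prod, Fintype.card_bool] at h
  omega

theorem arr_card_two [Fintype ι] {u : ι → ι → E 2} (hu : Arr u) : Fintype.card ι ≤ 4 := by
  obtain ⟨v, hv⟩ := arr_double hu
  have h := arr_card_three hv
  rw [Fintype.card_prod, Fintype.card_bool] at h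
  omega

end arrays

/-- fewer sets -/
lemma Pack.mono {d : ℕ} {t : ℝ} {m m' : ℕ} (h : m ≤ m') (hp : Pack d t m') : Pack d t m := by
  obtain ⟨C, h1, h2, h3, h4⟩ := hp
  refine ⟨fun i => C (Fin.castLE h i), fun i => h1 _, fun i => h2 _, fun i j hij => h3 _ _ fun h' => hij ?_,
    fun i => h4 _⟩
  exact Fin.castLE_injective h h'

/-- a bound for the arrays gives a bound for the packings of width near `1` -/
theorem near {d : ℕ} (hd : 1 ≤ d) (B : ℕ) (hB : ∀ u : Fin (B + 1) → Fin (B + 1) → E d, ¬ Arr u) :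
    ∃ ε : ℝ, 0 < ε ∧ ∀ t : ℝ, 1 - ε < t → ∀ m : ℕ, Pack d t m → m ≤ B := by
  by_contra hcon
  push Not at hcon
  obtain ⟨u, hu⟩ := arr_of_pack (d := d) (m := B + 1) hd fun ε hε => by
    obtain ⟨t, ht, m, hp, hm⟩ := hcon ε hε
    exact ⟨t, ht, hp.mono hm⟩
  exact hB u hu

/-- **main theorem** -/
theorem main :
    (∀ d : ℕ, 1 ≤ d → ∃ ε : ℝ, 0 < ε ∧ ∀ t : ℝ, 1 - ε < t → ∀ m : ℕ, Pack d t m → (m : ℝ) ≤ (1 + √2) ^ d) ∧
    (∀ d : ℕ, 2 ≤ d → d ≤ 4 → ∃ ε : ℝ, 0 < ε ∧ ∀ t : ℝ, 1 - ε < t → t ≤ 1 →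
      IsGreatest {m : ℕ | Pack d t m} (2 ^ d)) ∧
    (∀ d : ℕ, ∀ t : ℝ, t ≤ 1 → Pack d t (2 ^ d)) := by
  refine ⟨fun d hd => ?_, fun d hd1 hd2 => ?_, fun d t ht => pack_two_pow ht⟩
  · obtain ⟨ε, hε, h⟩ := near hd ⌊(1 + √2) ^ d⌋₊ fun u hu => by
      have h1 := arr_card_gen hu
      rw [Fintype.card_fin] at h1
      have h2 := Nat.lt_floor_add_one ((1 + √2) ^ d)
      push_cast at h1
      linarith
    refine ⟨ε, hε, fun t ht m hp => ?_⟩
    have h3 := h t ht m hp
    exact (Nat.le_floor_iff (by positivity)).1 h3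
  · have hB : ∀ u : Fin (2 ^ d + 1) → Fin (2 ^ d + 1) → E d, ¬ Arr u := by
      intro u hu
      interval_cases d
      · have := arr_card_two hu
        rw [Fintype.card_fin] at this
        omega
      · have := arr_card_three hu
        rw [Fintype.card_fin] at this
        omega
      · have := arr_card_four hu
        rw [Fintype.card_fin] at this
        omega
    obtain ⟨ε, hε, h⟩ := near (by omega) (2 ^ d) hB
    exact ⟨ε, hε, fun t ht ht1 => ⟨pack_two_pow ht1, fun m hm => h t ht m hm⟩⟩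

end PCW
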