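import Pool.Agent.PCW.Defs

/-!
# The cap of half angle `π / 4` in `ℝ⁴` (project MP_332d77_P4, row F3)
-/

set_option autoImplicit false

open MeasureTheory ProbabilityTheory Real
open scoped RealInnerProductSpace ENNReal

namespace PCW

/-- the standard Gaussian measure of the line -/
noncomputable abbrev cg : Measure ℝ := gaussianReal 0 1

lemma cap_pi : (Measure.pi fun _ : Fin 4 => cg) =
    ((cg.prod cg).prod (cg.prod cg)).map (fun p => ![p.1.1, p.1.2, p.2.1, p.2.2]) := by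
  have hm : Measurable (fun p : (ℝ × ℝ) × (ℝ × ℝ) => (![p.1.1, p.1.2, p.2.1, p.2.2] : Fin 4 → ℝ)) := by
    refine measurable_pi_lambda _ fun i => ?_
    fin_cases i
    · exact measurable_fst.comp measurable_fst
    · exact measurable_snd.comp measurable_fst
    · exact measurable_fst.comp measurable_snd
    · exact measurable_snd.comp measurable_snd
  refine Measure.pi_eq fun s hs => ?_
  rw [Measure.map_apply hm (MeasurableSet.univ_pi hs)]
  have : (fun p : (ℝ × ℝ) × (ℝ × ℝ) => (![p.1.1, p.1.2, p.2.1, p.2.2] : Fin 4 → ℝ)) ⁻¹'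
      (Set.univ.pi s) = (s 0 ×ˢ s 1) ×ˢ (s 2 ×ˢ s 3) := by
    ext p
    simp only [Set.mem_preimage, Set.mem_pi, Set.mem_univ, forall_true_left, Fin.forall_fin_succ,
      Set.mem_prod]
    constructor
    · rintro ⟨h0, h1, h2, h3, -⟩
      exact ⟨⟨h0, h1⟩, ⟨h2, h3⟩⟩
    · rintro ⟨⟨h0, h1⟩, ⟨h2, h3⟩⟩
      exact ⟨h0, h1, h2, h3, fun i => i.elim0⟩
  rw [this, Measure.prod_prod, Measure.prod_prod, Measure.prod_prod, Fin.prod_univ_four]
  ring

lemma cap_map (b : OrthonormalBasis (Fin 4) ℝ (E 4)) : gam 4 =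
    ((cg.prod cg).prod (cg.prod cg)).map
      (fun p => p.1.1 • b 0 + p.1.2 • b 1 + p.2.1 • b 2 + p.2.2 • b 3) := by
  refine (stdGaussian_eq_map_pi_orthonormalBasis b).trans ?_
  rw [show (fun _ : Fin 4 => gaussianReal 0 1) = fun _ : Fin 4 => cg from rfl, cap_pi]
  have hm : Measurable (fun p : (ℝ × ℝ) × (ℝ × ℝ) => (![p.1.1, p.1.2, p.2.1, p.2.2] : Fin 4 → ℝ)) := by
    refine measurable_pi_lambda _ fun i => ?_
    fin_cases i
    · exact measurable_fst.comp measurable_fst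
    · exact measurable_snd.comp measurable_fst
    · exact measurable_fst.comp measurable_snd
    · exact measurable_snd.comp measurable_snd
  have hm2 : Measurable (fun x : Fin 4 → ℝ => ∑ i, x i • b i) := by fun_prop
  rw [Measure.map_map hm2 hm]
  congr 1
  funext p
  simp [Fin.sum_univ_four]

lemma cap_basis {w : E 4} (hw : ‖w‖ = 1) : ∃ b : OrthonormalBasis (Fin 4) ℝ (E 4), b 0 = w := by
  have h : Orthonormal ℝ (({0} : Set (Fin 4)).domRestrict fun _ => w) := by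
    constructor
    · intro i
      exact hw
    · rintro ⟨i, hi⟩ ⟨j, hj⟩ hij
      rw [Set.mem_singleton_iff] at hi hj
      subst hi; subst hj
      exact absurd rfl hij
  obtain ⟨b, hb⟩ := h.exists_orthonormalBasis_extension_of_card_eq (by simp)
  exact ⟨b, hb 0 rfl⟩

lemma cap_pdf (x : ℝ) : gaussianPDFReal 0 1 x = (√(2 * π))⁻¹ * exp (-(x ^ 2 / 2)) := by
  simp [gaussianPDFReal, neg_div]

lemma cap_lint (f : ℝ → ℝ≥0∞) (hf : Measurable f) :
    ∫⁻ x, f x ∂cg = ∫⁻ x, ENNReal.ofReal ((√(2 * π))⁻¹ * exp (-(x ^ 2 / 2))) * f x := by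
  rw [cg, gaussianReal_of_var_ne_zero _ one_ne_zero,
    lintegral_withDensity_eq_lintegral_mul _ (measurable_gaussianPDF 0 1) hf]
  refine lintegral_congr fun x => ?_
  simp only [Pi.mul_apply, gaussianPDF, cap_pdf]

/-- The first tail integral. -/
lemma cap_J0 {a : ℝ} (ha : 0 ≤ a) :
    ∫⁻ s in Set.Ioi a, ENNReal.ofReal (s * exp (-(s ^ 2 / 2))) =
      ENNReal.ofReal (exp (-(a ^ 2 / 2))) := by
  have hd : ∀ x ∈ Set.Ici a, HasDerivAt (fun s => -exp (-(s ^ 2 / 2))) (x * exp (-(x ^ 2 / 2))) x := by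
    intro x _
    have h1 : HasDerivAt (fun s : ℝ => -(s ^ 2 / 2)) (-x) x := by
      have := ((hasDerivAt_id x).pow 2).div_const 2
      have h2 := this.neg
      refine h2.congr_deriv ?_
      simp
    exact (h1.exp.neg).congr_deriv (by ring)
  have hn : ∀ x ∈ Set.Ioi a, 0 ≤ x * exp (-(x ^ 2 / 2)) := fun x hx =>
    mul_nonneg (ha.trans (le_of_lt hx)) (exp_pos _).le
  have ht : Filter.Tendsto (fun s : ℝ => -exp (-(s ^ 2 / 2))) Filter.atTop (nhds 0) := by
    rw [← neg_zero]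
    refine Filter.Tendsto.neg ?_
    refine tendsto_exp_atBot.comp ?_
    refine Filter.tendsto_neg_atTop_atBot.comp ?_
    exact (Filter.tendsto_pow_atTop two_ne_zero).atTop_div_const two_pos
  have hi := integrableOn_Ioi_deriv_of_nonneg' hd hn ht
  rw [← ofReal_integral_eq_lintegral_ofReal hi
    ((ae_restrict_iff' measurableSet_Ioi).2 (Filter.Eventually.of_forall hn)),
    integral_Ioi_of_hasDerivAt_of_nonneg' hd hn ht]
  simp

lemma cap_c : 0 < (√(2 * π))⁻¹ := by positivity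

/-- The mean of `s` on `s > √ q`. -/
lemma cap_J1 {q : ℝ} (hq : 0 ≤ q) :
    ∫⁻ s, (if 0 < s ∧ q < s ^ 2 then ENNReal.ofReal s else 0) ∂cg =
      ENNReal.ofReal ((√(2 * π))⁻¹ * exp (-(q / 2))) := by
  have hm : Measurable fun s : ℝ => if 0 < s ∧ q < s ^ 2 then ENNReal.ofReal s else 0 := by
    refine Measurable.ite ?_ ENNReal.measurable_ofReal measurable_const
    exact (measurableSet_lt measurable_const measurable_id).inter
      (measurableSet_lt measurable_const (measurable_id.pow_const 2))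
  rw [cap_lint _ hm]
  have h1 : ∀ s : ℝ, ENNReal.ofReal ((√(2 * π))⁻¹ * exp (-(s ^ 2 / 2))) *
      (if 0 < s ∧ q < s ^ 2 then ENNReal.ofReal s else 0) =
      (Set.Ioi (√q)).indicator (fun s => ENNReal.ofReal ((√(2 * π))⁻¹) *
        ENNReal.ofReal (s * exp (-(s ^ 2 / 2)))) s := by
    intro s
    by_cases h : 0 < s ∧ q < s ^ 2
    · have hs : s ∈ Set.Ioi (√q) := (Real.sqrt_lt' h.1).2 h.2
      rw [if_pos h, Set.indicator_of_mem hs, ENNReal.ofReal_mul cap_c.le, mul_assoc,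
        ← ENNReal.ofReal_mul (exp_pos _).le, mul_comm (exp _) s]
    · have hs : s ∉ Set.Ioi (√q) := by
        intro hs
        have h0 : 0 < s := lt_of_le_of_lt (Real.sqrt_nonneg q) hs
        exact h ⟨h0, (Real.sqrt_lt' h0).1 hs⟩
      rw [if_neg h, Set.indicator_of_notMem hs, mul_zero]
  simp only [h1]
  rw [lintegral_indicator measurableSet_Ioi, lintegral_const_mul _ (by fun_prop),
    cap_J0 (Real.sqrt_nonneg q), Real.sq_sqrt hq, ← ENNReal.ofReal_mul cap_c.le]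

/-- The mean of `exp (- x ^ 2 / 2)`. -/
lemma cap_J2 : ∫⁻ x, ENNReal.ofReal (exp (-(x ^ 2 / 2))) ∂cg = ENNReal.ofReal ((√2)⁻¹) := by
  rw [cap_lint _ (by fun_prop)]
  have h1 : ∀ x : ℝ, ENNReal.ofReal ((√(2 * π))⁻¹ * exp (-(x ^ 2 / 2))) *
      ENNReal.ofReal (exp (-(x ^ 2 / 2))) =
      ENNReal.ofReal ((√(2 * π))⁻¹ * exp (-1 * x ^ 2)) := by
    intro x
    rw [← ENNReal.ofReal_mul (mul_nonneg cap_c.le (exp_pos _).le), mul_assoc, ← exp_add]
    congr 3
    ring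
  simp only [h1]
  have h2 : Integrable fun x : ℝ => (√(2 * π))⁻¹ * exp (-1 * x ^ 2) :=
    (integrable_exp_neg_mul_sq one_pos).const_mul _
  rw [← ofReal_integral_eq_lintegral_ofReal h2
    (Filter.Eventually.of_forall fun x => mul_nonneg cap_c.le (exp_pos _).le),
    integral_const_mul, integral_gaussian]
  congr 1
  rw [Real.sqrt_mul (by norm_num), div_one]
  have := Real.sqrt_pos.2 pi_pos
  field_simp

theorem cap_first {w : E 4} (hw : ‖w‖ = 1) :
    ∫ x in {x | ‖x‖ < √2 * ⟪w, x⟫}, ⟪w, x⟫ ∂(gam 4) = 1 / (4 * √Real.pi) := by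
  obtain ⟨b, hb⟩ := cap_basis hw
  set S : Set (E 4) := {x | ‖x‖ < √2 * ⟪w, x⟫} with hS
  have hSm : MeasurableSet S :=
    (isOpen_lt continuous_norm (continuous_const.mul (continuous_const.inner continuous_id))).measurableSet
  have hpos : ∀ x ∈ S, 0 ≤ ⟪w, x⟫ := by
    intro x hx
    have h1 : 0 < √2 * ⟪w, x⟫ := lt_of_le_of_lt (norm_nonneg x) hx
    exact (pos_of_mul_pos_right h1 (Real.sqrt_nonneg 2)).le
  set Φ : (ℝ × ℝ) × (ℝ × ℝ) → E 4 :=
    fun p => p.1.1 • b 0 + p.1.2 • b 1 + p.2.1 • b 2 + p.2.2 • b 3 with hΦ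
  have hΦm : Measurable Φ := by
    rw [hΦ]
    fun_prop
  have hin : ∀ p, ⟪w, Φ p⟫ = p.1.1 := by
    intro p
    rw [← hb]
    simp [hΦ, inner_add_right, inner_smul_right, b.inner_eq_ite]
  have hno : ∀ p, ‖Φ p‖ ^ 2 = p.1.1 ^ 2 + p.1.2 ^ 2 + p.2.1 ^ 2 + p.2.2 ^ 2 := by
    intro p
    rw [← real_inner_self_eq_norm_sq]
    simp only [hΦ, inner_add_right, inner_add_left, inner_smul_right, inner_smul_left,
      b.inner_eq_ite]
    simp
    ring
  have hmem : ∀ p, Φ p ∈ S ↔ 0 < p.1.1 ∧ p.1.2 ^ 2 + p.2.1 ^ 2 + p.2.2 ^ 2 < p.1.1 ^ 2 := by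
    intro p
    have h2 : √2 ^ 2 = 2 := Real.sq_sqrt (by norm_num)
    have h20 : 0 < √2 := by positivity
    show ‖Φ p‖ < √2 * ⟪w, Φ p⟫ ↔ _
    rw [hin]
    constructor
    · intro h
      have h0 : 0 < √2 * p.1.1 := lt_of_le_of_lt (norm_nonneg _) h
      have h1 : 0 < p.1.1 := pos_of_mul_pos_right h0 h20.le
      have h3 : ‖Φ p‖ ^ 2 < (√2 * p.1.1) ^ 2 := pow_lt_pow_left₀ h (norm_nonneg _) two_ne_zero
      rw [hno, mul_pow, h2] at h3
      exact ⟨h1, by linarith⟩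
    · rintro ⟨h1, h3⟩
      refine lt_of_pow_lt_pow_left₀ 2 (by positivity) ?_
      rw [hno, mul_pow, h2]
      linarith
  rw [integral_eq_lintegral_of_nonneg_ae
    ((ae_restrict_iff' hSm).2 (Filter.Eventually.of_forall hpos))
    (by fun_prop)]
  have hmes : Measurable fun x : E 4 => ENNReal.ofReal ⟪w, x⟫ := by fun_prop
  rw [← lintegral_indicator hSm, cap_map b, lintegral_map (hmes.indicator hSm) hΦm]
  have h1 : ∀ p : (ℝ × ℝ) × (ℝ × ℝ), S.indicator (fun x => ENNReal.ofReal ⟪w, x⟫) (Φ p) =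
      if 0 < p.1.1 ∧ p.1.2 ^ 2 + p.2.1 ^ 2 + p.2.2 ^ 2 < p.1.1 ^ 2 then ENNReal.ofReal p.1.1
      else 0 := by
    intro p
    by_cases h : Φ p ∈ S
    · rw [Set.indicator_of_mem h, hin, if_pos ((hmem p).1 h)]
    · rw [Set.indicator_of_notMem h, if_neg (fun h' => h ((hmem p).2 h'))]
  simp only [h1]
  have hM : Measurable fun p : (ℝ × ℝ) × (ℝ × ℝ) =>
      if 0 < p.1.1 ∧ p.1.2 ^ 2 + p.2.1 ^ 2 + p.2.2 ^ 2 < p.1.1 ^ 2 then ENNReal.ofReal p.1.1
      else 0 := by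
    have m1 : Measurable fun p : (ℝ × ℝ) × (ℝ × ℝ) => p.1.1 := by fun_prop
    have m2 : Measurable fun p : (ℝ × ℝ) × (ℝ × ℝ) => p.1.2 ^ 2 + p.2.1 ^ 2 + p.2.2 ^ 2 := by
      fun_prop
    refine Measurable.ite ?_ (by fun_prop) measurable_const
    exact (measurableSet_lt measurable_const m1).inter (measurableSet_lt m2 (m1.pow_const 2))
  rw [lintegral_prod_symm _ hM.aemeasurable]
  have h2 : ∀ y : ℝ × ℝ, ∫⁻ x : ℝ × ℝ, (if 0 < x.1 ∧ x.2 ^ 2 + y.1 ^ 2 + y.2 ^ 2 < x.1 ^ 2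
      then ENNReal.ofReal x.1 else 0) ∂(cg.prod cg) =
      ENNReal.ofReal ((√(2 * π))⁻¹ * (√2)⁻¹) * (ENNReal.ofReal (exp (-(y.1 ^ 2 / 2))) *
        ENNReal.ofReal (exp (-(y.2 ^ 2 / 2)))) := by
    intro y
    have hM2 : Measurable fun x : ℝ × ℝ => if 0 < x.1 ∧ x.2 ^ 2 + y.1 ^ 2 + y.2 ^ 2 < x.1 ^ 2
      then ENNReal.ofReal x.1 else 0 := by
      have m1 : Measurable fun x : ℝ × ℝ => x.1 := measurable_fst
      have m2 : Measurable fun x : ℝ × ℝ => x.2 ^ 2 + y.1 ^ 2 + y.2 ^ 2 := by fun_prop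
      refine Measurable.ite ?_ (by fun_prop) measurable_const
      exact (measurableSet_lt measurable_const m1).inter (measurableSet_lt m2 (m1.pow_const 2))
    rw [lintegral_prod_symm _ hM2.aemeasurable]
    have h3 : ∀ t : ℝ, ∫⁻ s : ℝ, (if 0 < s ∧ t ^ 2 + y.1 ^ 2 + y.2 ^ 2 < s ^ 2
        then ENNReal.ofReal s else 0) ∂cg = ENNReal.ofReal ((√(2 * π))⁻¹) *
          (ENNReal.ofReal (exp (-(y.1 ^ 2 / 2))) * ENNReal.ofReal (exp (-(y.2 ^ 2 / 2)))) *
          ENNReal.ofReal (exp (-(t ^ 2 / 2))) := by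
      intro t
      rw [cap_J1 (by positivity), ← ENNReal.ofReal_mul (exp_pos _).le,
        ← ENNReal.ofReal_mul cap_c.le, ← ENNReal.ofReal_mul (by positivity), ← exp_add,
        mul_assoc, ← exp_add]
      congr 3
      ring
    simp only [h3]
    rw [lintegral_const_mul _ (by fun_prop), cap_J2, ENNReal.ofReal_mul cap_c.le]
    ring
  simp only [h2]
  rw [lintegral_const_mul _ (by fun_prop),
    lintegral_prod_mul (f := fun x : ℝ => ENNReal.ofReal (exp (-(x ^ 2 / 2))))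
      (g := fun x : ℝ => ENNReal.ofReal (exp (-(x ^ 2 / 2)))) (by fun_prop) (by fun_prop), cap_J2,
    ← ENNReal.ofReal_mul (by positivity), ← ENNReal.ofReal_mul (by positivity),
    ENNReal.toReal_ofReal (by positivity)]
  rw [Real.sqrt_mul (by norm_num)]
  have h2 : √2 ^ 4 = 4 := by
    have : √2 ^ 2 = 2 := Real.sq_sqrt (by norm_num)
    nlinarith
  have h20 : 0 < √2 := by positivity
  have hp := Real.sqrt_pos.2 pi_pos
  field_simp
  linarith [h2]

/-! ### The measure of the cap -/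

lemma cap_lint2 (f : ℝ × ℝ → ℝ≥0∞) (hf : Measurable f) :
    ∫⁻ p, f p ∂(cg.prod cg) =
      ∫⁻ p : ℝ × ℝ, ENNReal.ofReal ((2 * π)⁻¹ * exp (-((p.1 ^ 2 + p.2 ^ 2) / 2))) * f p := by
  rw [cg, gaussianReal_of_var_ne_zero _ one_ne_zero,
    prod_withDensity (measurable_gaussianPDF 0 1) (measurable_gaussianPDF 0 1),
    lintegral_withDensity_eq_lintegral_mul _ (by fun_prop) hf]
  refine lintegral_congr fun p => ?_
  simp only [Pi.mul_apply, gaussianPDF, cap_pdf]
  rw [← ENNReal.ofReal_mul (mul_nonneg cap_c.le (exp_pos _).le)]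
  congr 2
  have h1 : (√(2 * π))⁻¹ * (√(2 * π))⁻¹ = (2 * π)⁻¹ := by
    rw [← mul_inv, Real.mul_self_sqrt (by positivity)]
  calc (√(2 * π))⁻¹ * exp (-(p.1 ^ 2 / 2)) * ((√(2 * π))⁻¹ * exp (-(p.2 ^ 2 / 2))) =
        ((√(2 * π))⁻¹ * (√(2 * π))⁻¹) * (exp (-(p.1 ^ 2 / 2)) * exp (-(p.2 ^ 2 / 2))) := by ring
    _ = (2 * π)⁻¹ * exp (-((p.1 ^ 2 + p.2 ^ 2) / 2)) := by
      rw [h1, ← exp_add]
      congr 2
      ring

/-- The radial tail of the planar Gaussian. -/
lemma cap_radial {ρ : ℝ} (hρ : 0 < ρ) :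
    (cg.prod cg) {p : ℝ × ℝ | ρ ≤ p.1 ^ 2 + p.2 ^ 2} = ENNReal.ofReal (exp (-(ρ / 2))) := by
  have hS : MeasurableSet {p : ℝ × ℝ | ρ ≤ p.1 ^ 2 + p.2 ^ 2} :=
    measurableSet_le measurable_const (by fun_prop)
  rw [← lintegral_indicator_one hS, cap_lint2 _ (measurable_one.indicator hS),
    ← lintegral_comp_polarCoord_symm]
  have h1 : ∫⁻ p : ℝ × ℝ in polarCoord.target, ENNReal.ofReal p.1 •
      (ENNReal.ofReal ((2 * π)⁻¹ * exp (-(((polarCoord.symm p).1 ^ 2 +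
        (polarCoord.symm p).2 ^ 2) / 2))) *
      ({p : ℝ × ℝ | ρ ≤ p.1 ^ 2 + p.2 ^ 2}).indicator 1 (polarCoord.symm p)) =
      ∫⁻ p : ℝ × ℝ in Set.Ioi (0 : ℝ) ×ˢ Set.Ioo (-π) π,
        (Set.Ici (√ρ)).indicator (fun s => ENNReal.ofReal (s * exp (-(s ^ 2 / 2)))) p.1 *
          ENNReal.ofReal ((2 * π)⁻¹) := by
    refine setLIntegral_congr_fun (measurableSet_Ioi.prod measurableSet_Ioo) fun p hp => ?_
    have hp1 : 0 < p.1 := hp.1
    have e1 : (polarCoord.symm p).1 ^ 2 + (polarCoord.symm p).2 ^ 2 = p.1 ^ 2 := by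
      simp only [polarCoord_symm_apply]
      have := Real.sin_sq_add_cos_sq p.2
      nlinarith [this]
    simp only [e1, smul_eq_mul]
    by_cases h : ρ ≤ p.1 ^ 2
    · have h2 : polarCoord.symm p ∈ {p : ℝ × ℝ | ρ ≤ p.1 ^ 2 + p.2 ^ 2} := by
        show ρ ≤ _
        rw [e1]
        exact h
      have h3 : p.1 ∈ Set.Ici (√ρ) := Real.sqrt_le_iff.2 ⟨hp1.le, h⟩
      rw [Set.indicator_of_mem h2, Set.indicator_of_mem h3, Pi.one_apply, mul_one,
        ← ENNReal.ofReal_mul hp1.le, ← ENNReal.ofReal_mul (by positivity)]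
      congr 1
      ring
    · have h2 : polarCoord.symm p ∉ {p : ℝ × ℝ | ρ ≤ p.1 ^ 2 + p.2 ^ 2} := by
        intro h2
        have h3 : ρ ≤ (polarCoord.symm p).1 ^ 2 + (polarCoord.symm p).2 ^ 2 := h2
        rw [e1] at h3
        exact h h3
      have h3 : p.1 ∉ Set.Ici (√ρ) := fun h3 => h (Real.sqrt_le_iff.1 h3).2
      rw [Set.indicator_of_notMem h2, Set.indicator_of_notMem h3, mul_zero, mul_zero, zero_mul]
  refine h1.trans ?_
  rw [Measure.volume_eq_prod, ← Measure.prod_restrict,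
    lintegral_prod_mul (f := (Set.Ici (√ρ)).indicator
      (fun s => ENNReal.ofReal (s * exp (-(s ^ 2 / 2))))) (g := fun _ => ENNReal.ofReal ((2 * π)⁻¹))
      (((by fun_prop : Measurable fun s : ℝ => ENNReal.ofReal (s * exp (-(s ^ 2 / 2)))).indicator
        measurableSet_Ici).aemeasurable) aemeasurable_const,
    lintegral_indicator measurableSet_Ici, Measure.restrict_restrict measurableSet_Ici,
    lintegral_const, Measure.restrict_apply MeasurableSet.univ, Set.univ_inter, Real.volume_Ioo]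
  have h2 : Set.Ici (√ρ) ∩ Set.Ioi 0 = Set.Ici (√ρ) := by
    refine Set.inter_eq_left.2 fun x hx => ?_
    exact lt_of_lt_of_le (Real.sqrt_pos.2 hρ) hx
  rw [h2, setLIntegral_congr Ioi_ae_eq_Ici.symm, cap_J0 (Real.sqrt_nonneg ρ),
    Real.sq_sqrt hρ.le, ← ENNReal.ofReal_mul (by positivity), ← ENNReal.ofReal_mul (exp_pos _).le]
  congr 1
  have := pi_pos
  field_simp
  ring

lemma cap_basis2 {w : E 4} (hw : ‖w‖ = 1) :
    ∃ b : OrthonormalBasis (Fin 4) ℝ (E 4), √2 • w = b 0 + b 1 := by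
  obtain ⟨b, hb⟩ := cap_basis hw
  have h2 : (√2)⁻¹ * (√2)⁻¹ = 1 / 2 := by
    rw [← mul_inv, Real.mul_self_sqrt (by norm_num)]
    norm_num
  set v : Fin 4 → E 4 := ![(√2)⁻¹ • (b 0 + b 1), (√2)⁻¹ • (b 0 - b 1), b 2, b 3] with hv
  have hvo : Orthonormal ℝ v := by
    rw [orthonormal_iff_ite]
    intro i j
    have e : ∀ i j, ⟪b i, b j⟫ = if i = j then (1 : ℝ) else 0 := fun i j => b.inner_eq_ite i j
    fin_cases i <;> fin_cases j <;>
      simp only [hv, Fin.zero_eta, Fin.mk_one, Fin.reduceFinMk, Matrix.cons_val_zero,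
        Matrix.cons_val_one, Matrix.cons_val, inner_smul_left, inner_smul_right, inner_add_left,
        inner_add_right, inner_sub_left, inner_sub_right, e] <;> simp <;> nlinarith [h2]
  have h : Orthonormal ℝ ((Set.univ : Set (Fin 4)).domRestrict v) :=
    hvo.comp _ Subtype.val_injective
  obtain ⟨b', hb'⟩ := h.exists_orthonormalBasis_extension_of_card_eq (by simp)
  refine ⟨b', ?_⟩
  rw [hb' 0 (Set.mem_univ _), hb' 1 (Set.mem_univ _)]
  show √2 • w = (√2)⁻¹ • (b 0 + b 1) + (√2)⁻¹ • (b 0 - b 1)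
  rw [← smul_add, add_add_sub_cancel, ← two_smul ℝ (b 0), smul_smul, hb]
  congr 1
  have h3 : √2 * √2 = 2 := Real.mul_self_sqrt (by norm_num)
  have h4 : √2 ≠ 0 := by positivity
  field_simp
  rw [sq]
  exact h3

lemma cap_half : cg (Set.Ioi 0) = ENNReal.ofReal (1 / 2) := by
  rw [← lintegral_indicator_one measurableSet_Ioi,
    cap_lint _ (measurable_one.indicator measurableSet_Ioi)]
  have h1 : ∀ x : ℝ, ENNReal.ofReal ((√(2 * π))⁻¹ * exp (-(x ^ 2 / 2))) *
      (Set.Ioi (0 : ℝ)).indicator 1 x =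
      (Set.Ioi (0 : ℝ)).indicator
        (fun x => ENNReal.ofReal ((√(2 * π))⁻¹ * exp (-(1 / 2) * x ^ 2))) x := by
    intro x
    by_cases h : x ∈ Set.Ioi (0 : ℝ)
    · rw [Set.indicator_of_mem h, Set.indicator_of_mem h, Pi.one_apply, mul_one]
      congr 3
      ring
    · rw [Set.indicator_of_notMem h, Set.indicator_of_notMem h, mul_zero]
  simp only [h1]
  have h2 : Integrable fun x : ℝ => (√(2 * π))⁻¹ * exp (-(1 / 2) * x ^ 2) :=
    (integrable_exp_neg_mul_sq (by norm_num)).const_mul _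
  rw [lintegral_indicator measurableSet_Ioi, ← ofReal_integral_eq_lintegral_ofReal
    h2.integrableOn (Filter.Eventually.of_forall fun x => mul_nonneg cap_c.le (exp_pos _).le),
    integral_const_mul, integral_gaussian_Ioi]
  congr 1
  have h3 : π / (1 / 2) = 2 * π := by ring
  rw [h3]
  have := Real.sqrt_pos.2 (show 0 < 2 * π by positivity)
  field_simp

lemma cap_quad : ∫⁻ p : ℝ × ℝ, (if 0 < p.1 ∧ 0 < p.2 then ENNReal.ofReal (exp (-(p.1 * p.2)))
    else 0) ∂(cg.prod cg) = ENNReal.ofReal ((2 * π)⁻¹) := by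
  have hm : Measurable fun p : ℝ × ℝ => if 0 < p.1 ∧ 0 < p.2 then
      ENNReal.ofReal (exp (-(p.1 * p.2))) else 0 := by
    refine Measurable.ite ?_ (by fun_prop) measurable_const
    exact (measurableSet_lt measurable_const measurable_fst).inter
      (measurableSet_lt measurable_const measurable_snd)
  rw [cap_lint2 _ hm]
  have h1 : ∀ p : ℝ × ℝ, ENNReal.ofReal ((2 * π)⁻¹ * exp (-((p.1 ^ 2 + p.2 ^ 2) / 2))) *
      (if 0 < p.1 ∧ 0 < p.2 then ENNReal.ofReal (exp (-(p.1 * p.2))) else 0) =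
      ENNReal.ofReal ((2 * π)⁻¹) * (if 0 < p.1 ∧ p.1 < p.1 + p.2 then
        ENNReal.ofReal (exp (-((p.1 + p.2) ^ 2 / 2))) else 0) := by
    intro p
    by_cases h : 0 < p.1 ∧ 0 < p.2
    · rw [if_pos h, if_pos ⟨h.1, by linarith [h.2]⟩, ← ENNReal.ofReal_mul (by positivity),
        ← ENNReal.ofReal_mul (by positivity), mul_assoc, ← exp_add]
      congr 3
      ring
    · rw [if_neg h, if_neg (fun h' => h ⟨h'.1, by linarith [h'.2]⟩), mul_zero, mul_zero]
  simp only [h1]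
  have hm1 : Measurable fun p : ℝ × ℝ => if 0 < p.1 ∧ p.1 < p.1 + p.2 then
        ENNReal.ofReal (exp (-((p.1 + p.2) ^ 2 / 2))) else 0 := by
    refine Measurable.ite ?_ (by fun_prop) measurable_const
    exact (measurableSet_lt measurable_const measurable_fst).inter
      (measurableSet_lt measurable_fst (measurable_fst.add measurable_snd))
  have hm2 : Measurable fun p : ℝ × ℝ => if 0 < p.1 ∧ p.1 < p.2 then
        ENNReal.ofReal (exp (-(p.2 ^ 2 / 2))) else 0 := by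
    refine Measurable.ite ?_ (by fun_prop) measurable_const
    exact (measurableSet_lt measurable_const measurable_fst).inter
      (measurableSet_lt measurable_fst measurable_snd)
  rw [lintegral_const_mul _ hm1, Measure.volume_eq_prod, lintegral_prod _ hm1.aemeasurable]
  have h2 : ∀ a : ℝ, ∫⁻ b : ℝ, (if 0 < a ∧ a < a + b then
      ENNReal.ofReal (exp (-((a + b) ^ 2 / 2))) else 0) =
      ∫⁻ s : ℝ, (if 0 < a ∧ a < s then ENNReal.ofReal (exp (-(s ^ 2 / 2))) else 0) := fun a =>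
    lintegral_add_left_eq_self (fun s => if 0 < a ∧ a < s then
      ENNReal.ofReal (exp (-(s ^ 2 / 2))) else 0) a
  simp only [h2]
  rw [lintegral_lintegral_swap hm2.aemeasurable]
  have h3 : ∀ s : ℝ, ∫⁻ a : ℝ, (if 0 < a ∧ a < s then ENNReal.ofReal (exp (-(s ^ 2 / 2))) else 0) =
      (Set.Ioi (0 : ℝ)).indicator (fun s => ENNReal.ofReal (s * exp (-(s ^ 2 / 2)))) s := by
    intro s
    have h4 : ∀ a : ℝ, (if 0 < a ∧ a < s then ENNReal.ofReal (exp (-(s ^ 2 / 2))) else 0) =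
        (Set.Ioo 0 s).indicator (fun _ => ENNReal.ofReal (exp (-(s ^ 2 / 2)))) a := by
      intro a
      by_cases h : 0 < a ∧ a < s
      · have h' : a ∈ Set.Ioo 0 s := h
        rw [if_pos h, Set.indicator_of_mem h']
      · have h' : a ∉ Set.Ioo 0 s := h
        rw [if_neg h, Set.indicator_of_notMem h']
    simp only [h4]
    rw [lintegral_indicator measurableSet_Ioo, lintegral_const,
      Measure.restrict_apply MeasurableSet.univ, Set.univ_inter, Real.volume_Ioo, sub_zero,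
      ← ENNReal.ofReal_mul (exp_pos _).le]
    by_cases h : s ∈ Set.Ioi (0 : ℝ)
    · rw [Set.indicator_of_mem h, mul_comm]
    · rw [Set.indicator_of_notMem h]
      refine ENNReal.ofReal_of_nonpos ?_
      exact mul_nonpos_of_nonneg_of_nonpos (exp_pos _).le (not_lt.1 h)
  simp only [h3]
  rw [lintegral_indicator measurableSet_Ioi, cap_J0 le_rfl]
  simp

theorem cap_measure {w : E 4} (hw : ‖w‖ = 1) :
    (gam 4).real {x | ‖x‖ < √2 * ⟪w, x⟫} = 1 / 4 - 1 / (2 * Real.pi) := by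
  obtain ⟨b, hb⟩ := cap_basis2 hw
  set S : Set (E 4) := {x | ‖x‖ < √2 * ⟪w, x⟫} with hS
  have hSm : MeasurableSet S :=
    (isOpen_lt continuous_norm (continuous_const.mul (continuous_const.inner continuous_id))).measurableSet
  set Φ : (ℝ × ℝ) × (ℝ × ℝ) → E 4 :=
    fun p => p.1.1 • b 0 + p.1.2 • b 1 + p.2.1 • b 2 + p.2.2 • b 3 with hΦ
  have hΦm : Measurable Φ := by
    rw [hΦ]
    fun_prop
  have hin : ∀ p, √2 * ⟪w, Φ p⟫ = p.1.1 + p.1.2 := by
    intro p
    have h1 : √2 * ⟪w, Φ p⟫ = ⟪√2 • w, Φ p⟫ := by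
      rw [inner_smul_left]
      simp
    rw [h1, hb]
    simp [hΦ, inner_add_right, inner_add_left, inner_smul_right, b.inner_eq_ite]
  have hno : ∀ p, ‖Φ p‖ ^ 2 = p.1.1 ^ 2 + p.1.2 ^ 2 + p.2.1 ^ 2 + p.2.2 ^ 2 := by
    intro p
    rw [← real_inner_self_eq_norm_sq]
    simp only [hΦ, inner_add_right, inner_add_left, inner_smul_right, inner_smul_left,
      b.inner_eq_ite]
    simp
    ring
  have hmem : ∀ p, Φ p ∈ S ↔ (0 < p.1.1 ∧ 0 < p.1.2) ∧
      p.2.1 ^ 2 + p.2.2 ^ 2 < 2 * (p.1.1 * p.1.2) := by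
    intro p
    show ‖Φ p‖ < √2 * ⟪w, Φ p⟫ ↔ _
    rw [hin]
    constructor
    · intro h
      have h0 : 0 < p.1.1 + p.1.2 := lt_of_le_of_lt (norm_nonneg _) h
      have h3 : ‖Φ p‖ ^ 2 < (p.1.1 + p.1.2) ^ 2 := pow_lt_pow_left₀ h (norm_nonneg _) two_ne_zero
      rw [hno] at h3
      have h4 : 0 < p.1.1 * p.1.2 := by nlinarith [sq_nonneg p.2.1, sq_nonneg p.2.2]
      have h5 : 0 < p.1.1 ∧ 0 < p.1.2 := by
        rcases mul_pos_iff.1 h4 with h5 | h5
        · exact h5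
        · linarith [h5.1, h5.2]
      exact ⟨h5, by nlinarith⟩
    · rintro ⟨⟨h1, h2⟩, h3⟩
      refine lt_of_pow_lt_pow_left₀ 2 (by linarith) ?_
      rw [hno]
      nlinarith
  set μ := ((cg.prod cg).prod (cg.prod cg)) with hμ
  have m1 : Measurable fun p : (ℝ × ℝ) × (ℝ × ℝ) => 2 * (p.1.1 * p.1.2) := by fun_prop
  have m2 : Measurable fun p : (ℝ × ℝ) × (ℝ × ℝ) => p.2.1 ^ 2 + p.2.2 ^ 2 := by fun_prop
  set Q : Set ((ℝ × ℝ) × (ℝ × ℝ)) := (Set.Ioi 0 ×ˢ Set.Ioi 0) ×ˢ Set.univ with hQ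
  set B : Set ((ℝ × ℝ) × (ℝ × ℝ)) := Q ∩ {p | 2 * (p.1.1 * p.1.2) ≤ p.2.1 ^ 2 + p.2.2 ^ 2} with hB
  have hQm : MeasurableSet Q := (measurableSet_Ioi.prod measurableSet_Ioi).prod MeasurableSet.univ
  have hBm : MeasurableSet B := hQm.inter (measurableSet_le m1 m2)
  have hpre : Φ ⁻¹' S = Q \ B := by
    ext p
    rw [Set.mem_preimage, hmem, hB, Set.sdiff_self_inter, Set.mem_sdiff]
    simp [hQ]
  have hQv : μ.real Q = 1 / 4 := by
    rw [measureReal_def, hQ, hμ, Measure.prod_prod, Measure.prod_prod, cap_half]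
    rw [measure_univ, mul_one, ← ENNReal.ofReal_mul (by norm_num),
      ENNReal.toReal_ofReal (by norm_num)]
    norm_num
  have hBv : μ.real B = 1 / (2 * π) := by
    have h1 : μ B = ENNReal.ofReal ((2 * π)⁻¹) := by
      rw [hμ, Measure.prod_apply hBm, ← cap_quad]
      refine lintegral_congr fun y => ?_
      by_cases h : 0 < y.1 ∧ 0 < y.2
      · rw [if_pos h]
        have h2 : Prod.mk y ⁻¹' B = {p : ℝ × ℝ | 2 * (y.1 * y.2) ≤ p.1 ^ 2 + p.2 ^ 2} := by
          ext z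
          simp [hB, hQ, h.1, h.2]
        rw [h2, cap_radial (by have := mul_pos h.1 h.2; linarith)]
        congr 3
        ring
      · rw [if_neg h]
        have h2 : Prod.mk y ⁻¹' B = ∅ := by
          ext z
          simp only [Set.mem_preimage, Set.mem_empty_iff_false, iff_false]
          intro hz
          exact h hz.1.1
        rw [h2, measure_empty]
    rw [measureReal_def, h1, ENNReal.toReal_ofReal (by positivity), one_div]
  have : (gam 4).real S = μ.real (Q \ B) := by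
    rw [cap_map b, map_measureReal_apply hΦm hSm, hpre]
  rw [this, measureReal_sdiff (Set.inter_subset_left) hBm, hQv, hBv]

end PCW
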